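import Pool.Agent.J4.H73.EX.Ker

/-!
# Project AD: the extension inequality for almost every dilate of every function. Definitions

`Y g t s` is the extension operator of the surface `(x_1, x_2, x_1^2, x_2^2)`; `A g q k l` is the part of the
`L^q` norm of the extension (for the form `x_1^2 + x_2^2 / l^2`) in the `k`-th shell of times.
-/

set_option autoImplicit false

namespace Pool.Agent.J4.H87.AD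

open MeasureTheory Complex Set Filter Topology
open scoped ENNReal NNReal RealInnerProductSpace ComplexConjugate
open Pool.Agent.J4.H73.EX (E en Ga)

/-- measurable integrable functions supported in the disc of radius `1/2` -/
def Go (g : E 2 → ℂ) : Prop := Measurable g ∧ Integrable g ∧ ∀ x, 1 / 2 < ‖x‖ → g x = 0

/-- the extension operator with two times -/
noncomputable def Y (g : E 2 → ℂ) (t s : ℝ) (y : E 2) : ℂ :=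
  ∫ x : E 2, en (⟪x, y⟫ + (x 0 ^ 2 * t + x 1 ^ 2 * s)) * g x

/-- the shells of times -/
def shell : ℕ → Set ℝ
  | 0 => {t | |t| ≤ 1}
  | (k + 1) => {t | 2 ^ k < |t| ∧ |t| ≤ 2 ^ (k + 1)}

/-- the part in one shell -/
noncomputable def A (g : E 2 → ℂ) (q : ℝ) (k : ℕ) (l : ℝ) : ℝ≥0∞ :=
  ∫⁻ t in shell k, ∫⁻ y : E 2, ‖Y g t (t / l ^ 2) y‖ₑ ^ q

/-- the paraboloid -/
noncomputable def Phi (x : E 2) : E 3 := !₂[x 0, x 1, x 0 ^ 2 + x 1 ^ 2]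

/-- the extension operator of the problem on the disc of radius `1/2` -/
noncomputable def ext (f : E 2 → ℂ) (ξ : E 3) : ℂ :=
  ∫ x in Metric.ball (0 : E 2) (1 / 2), Complex.exp (-((⟪Phi x, ξ⟫ : ℝ) : ℂ) * I) * f x

/-- the dilation by `l` in the direction `e` -/
noncomputable def Dil (e : E 2) (l : ℝ) (x : E 2) : E 2 := x + ((l - 1) * ⟪e, x⟫) • e

/-- the dilation of the second coordinate -/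
noncomputable def D1 (l : ℝ) (x : E 2) : E 2 := !₂[x 0, l * x 1]

/-- one dimensional kernel lemma -/
def S_K1 : Prop := ∃ C : ℝ, 0 < C ∧ ∀ h : ℝ → ℂ, Integrable h → (∀ x, 1 < |x| → h x = 0) →
  ∀ b T κ : ℝ, b ≠ 0 → 1 ≤ T → 0 < κ → κ < 1 →
    ∫⁻ t in Icc (-T) T, ‖∫ x : ℝ, en (2 * (x * b * t)) * h x‖ₑ ^ 2 ≤
      ENNReal.ofReal (C * (T ^ κ * |b| ^ (κ - 1))) * ∫⁻ x, ‖h x‖ₑ ^ 2

/-- two dimensional kernel lemma -/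
def S_K2 : Prop := ∃ C : ℝ, 0 < C ∧ ∀ G : E 2 → ℂ, Measurable G → Integrable G →
  (∀ x, 1 < ‖x‖ → G x = 0) → ∀ b : E 2, b 0 ≠ 0 → b 1 ≠ 0 → ∀ T κ : ℝ, 1 ≤ T → 0 < κ → κ < 1 →
    ∫⁻ t in Icc (-T) T, ∫⁻ s in Icc (-T) T,
      ‖∫ x : E 2, en (2 * (x 0 * b 0 * t + x 1 * b 1 * s)) * G x‖ₑ ^ 2 ≤
      ENNReal.ofReal (C * (T ^ (2 * κ) * (|b 0| ^ (κ - 1) * |b 1| ^ (κ - 1)))) *
        ∫⁻ x, ‖G x‖ₑ ^ 2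

/-- `L²` inequality -/
def S_L2 : Prop := ∀ g : E 2 → ℂ, Integrable g → ∀ t s : ℝ,
  ∫⁻ y, ‖Y g t s y‖ₑ ^ 2 ≤ ENNReal.ofReal ((2 * Real.pi) ^ 2) * ∫⁻ x, ‖g x‖ₑ ^ 2

/-- measurability -/
def S_MEAS : Prop := ∀ g : E 2 → ℂ, AEStronglyMeasurable g →
  Measurable (fun p : (ℝ × ℝ) × E 2 => Y g p.1.1 p.1.2 p.2)

/-- `L⁴` identity -/
def S_ID4 : Prop := ∀ g : E 2 → ℂ, Integrable g → ∀ t s : ℝ,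
  ∫⁻ y, ‖Y g t s y‖ₑ ^ 4 ≤ ENNReal.ofReal ((2 * Real.pi) ^ 2) *
    ∫⁻ b : E 2, ‖∫ x : E 2, en (2 * (x 0 * b 0 * t + x 1 * b 1 * s)) * Ga g b x‖ₑ ^ 2

/-- `L⁴` inequality -/
def S_L4 : Prop := ∀ κ : ℝ, 0 < κ → κ < 1 → ∃ C : ℝ, 0 < C ∧ ∀ T : ℝ, 1 ≤ T → ∀ g, Go g →
  ∫⁻ t in Icc (-T) T, ∫⁻ s in Icc (-T) T, ∫⁻ y, ‖Y g t s y‖ₑ ^ 4 ≤
    ENNReal.ofReal (C * T ^ (2 * κ)) * ∫⁻ x, ‖g x‖ₑ ^ 4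

/-- `L^q` inequality -/
def S_LQ : Prop := ∀ q : ℝ, 2 < q → q < 4 → ∀ ε : ℝ, 0 < ε → ∃ C : ℝ, 0 < C ∧
  ∀ T : ℝ, 1 ≤ T → ∀ g, Go g →
    ∫⁻ t in Icc (-T) T, ∫⁻ s in Icc (-T) T, ∫⁻ y, ‖Y g t s y‖ₑ ^ q ≤
      ENNReal.ofReal (C * T ^ (4 - q + ε)) * ∫⁻ x, ‖g x‖ₑ ^ q

/-- a locally constant majorant -/
def S_SUP : Prop := ∀ q : ℝ, 2 < q → q < 4 → ∀ ε : ℝ, 0 < ε → ∃ C : ℝ, 0 < C ∧ ∀ g, Go g →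
  ∃ M : ℝ → ℝ → E 2 → ℝ≥0∞, Measurable (fun p : (ℝ × ℝ) × E 2 => M p.1.1 p.1.2 p.2) ∧
    (∀ t s s' y, |s - s'| ≤ 3 → ‖Y g t s y‖ₑ ^ q ≤ M t s' y) ∧
    ∀ T : ℝ, 1 ≤ T → ∫⁻ t in Icc (-T) T, ∫⁻ s in Icc (-T) T, ∫⁻ y, M t s y ≤
      ENNReal.ofReal (C * T ^ (4 - q + ε)) * ∫⁻ x, ‖g x‖ₑ ^ q

/-- coverings -/
def S_COV : Prop := ∀ q : ℝ, 2 < q → q < 4 → ∀ ε : ℝ, 0 < ε → ∃ C : ℝ, 0 < C ∧ ∀ g, Go g →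
  ∃ c : ℕ → ℕ → ℝ≥0∞,
    (∀ k : ℕ, ∑ j ∈ Finset.range (2 ^ k), c k j ≤
      ENNReal.ofReal (C * (2 : ℝ) ^ (k * (4 - q + ε))) * ∫⁻ x, ‖g x‖ₑ ^ q) ∧
    ∀ k j : ℕ, j < 2 ^ k → ∀ l ∈ Icc (1 + (j : ℝ) / 2 ^ k) (1 + ((j : ℝ) + 1) / 2 ^ k),
      A g q k l ≤ c k j

/-- dimension of the exceptional set (abstract) -/
def S_DIM : Prop := ∀ (a : ℕ → ℝ → ℝ≥0∞) (c : ℕ → ℕ → ℝ≥0∞) (β C : ℝ), 0 ≤ β →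
  (∀ k : ℕ, ∑ j ∈ Finset.range (2 ^ k), c k j ≤ ENNReal.ofReal (C * (2 : ℝ) ^ (k * β))) →
  (∀ k j : ℕ, j < 2 ^ k → ∀ l ∈ Icc (1 + (j : ℝ) / 2 ^ k) (1 + ((j : ℝ) + 1) / 2 ^ k),
    a k l ≤ c k j) →
  dimH {l : ℝ | l ∈ Icc (1 : ℝ) 2 ∧ ∑' k, a k l = ⊤} ≤ ENNReal.ofReal β

/-- averages over Frostman measures (abstract) -/
def S_FRO : Prop := ∀ (α β C K : ℝ), 0 < α → α ≤ 1 → β < α → 0 ≤ C → 0 ≤ K → ∃ C' : ℝ, 0 < C' ∧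
  ∀ (a : ℕ → ℝ → ℝ≥0∞) (c : ℕ → ℕ → ℝ≥0∞) (μ : Measure ℝ) (Z : ℝ≥0∞),
    (∀ k : ℕ, ∑ j ∈ Finset.range (2 ^ k), c k j ≤ ENNReal.ofReal (C * (2 : ℝ) ^ (k * β)) * Z) →
    (∀ k j : ℕ, j < 2 ^ k → ∀ l ∈ Icc (1 + (j : ℝ) / 2 ^ k) (1 + ((j : ℝ) + 1) / 2 ^ k),
      a k l ≤ c k j) →
    (∀ x r : ℝ, 0 < r → r ≤ 1 → μ (Icc x (x + r)) ≤ ENNReal.ofReal (K * r ^ α)) →
    ∫⁻ l in Icc (1 : ℝ) 2, ∑' k, a k l ∂μ ≤ ENNReal.ofReal C' * Z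

/-- the operator of the problem -/
def S_LINK : Prop := ∀ (g : E 2 → ℂ) (q l : ℝ), Go g → 1 ≤ q → 1 ≤ l → l ≤ 2 →
  ∫⁻ ξ : E 3, ‖ext (fun x => g (D1 l x)) ξ‖ₑ ^ q ≤ ∑' k, A g q k l

/-- rotations -/
def S_ROT : Prop := ∀ e : E 2, ‖e‖ = 1 → ∃ ρ : E 2 ≃ₗᵢ[ℝ] E 2,
  (∀ (l : ℝ) (x : E 2), ρ (Dil e l x) = D1 l (ρ x)) ∧
    ∀ (g : E 2 → ℂ) (q : ℝ), 0 < q →
      ∫⁻ ξ : E 3, ‖ext (fun x => g (ρ x)) ξ‖ₑ ^ q = ∫⁻ ξ : E 3, ‖ext g ξ‖ₑ ^ q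

end Pool.Agent.J4.H87.AD
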