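import Pool.Agent.J4.H87.AD.Defs

/-!
# Project AD: almost every linear map
-/

set_option autoImplicit false

namespace Pool.Agent.J4.H87.AD

open MeasureTheory Complex Set Filter Topology
open scoped ENNReal NNReal RealInnerProductSpace ComplexConjugate
open Pool.Agent.J4.H73.EX (E en Ga)

/-- the extension operator of the whole paraboloid -/
noncomputable def extR (f : E 2 → ℂ) (ξ : E 3) : ℂ :=
  ∫ x : E 2, Complex.exp (-((⟪Phi x, ξ⟫ : ℝ) : ℂ) * I) * f x

/-- parabolic scaling -/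
def S_SCA : Prop := ∀ (g : E 2 → ℂ) (R q : ℝ), 0 < R → 0 < q →
  (∀ x, x ∉ Metric.ball (0 : E 2) R → g x = 0) →
  MemLp (ext fun x => g ((2 * R) • x)) (ENNReal.ofReal q) volume →
  MemLp (extR g) (ENNReal.ofReal q) volume

/-- almost every linear map -/
def S_MAT : Prop := ∀ q : ℝ, 3 < q →
  (∀ g : E 2 → ℂ, Measurable g → (∀ x, x ∉ Metric.ball (0 : E 2) (1 / 2) → g x = 0) →
    MemLp g (ENNReal.ofReal q) volume →
    ∀ᵐ l ∂(volume.restrict (Icc (1 : ℝ) 2)),
      MemLp (ext fun x => g (D1 l x)) (ENNReal.ofReal q) volume) →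
  ∀ f : E 2 → ℂ, Measurable f → HasCompactSupport f → MemLp f (ENNReal.ofReal q) volume →
    ∀ᵐ p : E 2 × E 2, MemLp (extR fun x => f (x 0 • p.1 + x 1 • p.2)) (ENNReal.ofReal q) volume

end Pool.Agent.J4.H87.AD
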