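import Pool.Agent.J4.H87.AD.Defs2

/-!
# Project AD: sharper exponents (interpolation after averaging)
-/

set_option autoImplicit false

namespace Pool.Agent.J4.H87.AD

open MeasureTheory Complex Set Filter Topology
open scoped ENNReal NNReal RealInnerProductSpace ComplexConjugate
open Pool.Agent.J4.H73.EX (E en Ga)

/-- measurability in the parameter -/
def S_AM : Prop := ∀ (g : E 2 → ℂ) (q : ℝ) (k : ℕ), Go g → Measurable (A g q k)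

/-- one shell, general measure -/
def S_GEN : Prop := ∀ q : ℝ, 2 < q → q < 4 → ∀ ε : ℝ, 0 < ε → ∃ C : ℝ, 0 < C ∧ ∀ g, Go g →
  ∀ (k : ℕ) (μ : Measure ℝ) (m r : ℝ), 0 < m → 0 < r → μ (Icc (1 : ℝ) 2) ≤ ENNReal.ofReal m →
    (∀ j : ℕ, j < 2 ^ k →
      μ (Icc (1 + (j : ℝ) / 2 ^ k) (1 + ((j : ℝ) + 1) / 2 ^ k)) ≤ ENNReal.ofReal r) →
    ∫⁻ l in Icc (1 : ℝ) 2, A g q k l ∂μ ≤
      ENNReal.ofReal (C * (m * 2 ^ k) ^ ((4 - q) / 2) * (r * (2 : ℝ) ^ (k * ε)) ^ ((q - 2) / 2)) *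
        ∫⁻ x, ‖g x‖ₑ ^ q

/-- Frostman measures, `q > 2 + 2 / (1 + α)` -/
def S_FRO2 : Prop := ∀ (α q K : ℝ), 0 < α → α ≤ 1 → 2 + 2 / (1 + α) < q → q < 4 → 0 ≤ K →
  ∃ C : ℝ, 0 < C ∧ ∀ μ : Measure ℝ,
    (∀ x r : ℝ, 0 < r → r ≤ 1 → μ (Icc x (x + r)) ≤ ENNReal.ofReal (K * r ^ α)) →
    ∀ g, Go g → ∫⁻ l in Icc (1 : ℝ) 2, ∑' k, A g q k l ∂μ ≤ ENNReal.ofReal C * ∫⁻ x, ‖g x‖ₑ ^ q

/-- dimension of the exceptional set -/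
def S_DIM2 : Prop := ∀ (q : ℝ), 3 < q → q < 4 → ∀ g, Go g → ∫⁻ x, ‖g x‖ₑ ^ q ≠ ⊤ →
  dimH {l : ℝ | l ∈ Icc (1 : ℝ) 2 ∧ ∑' k, A g q k l = ⊤} ≤ ENNReal.ofReal ((4 - q) / (q - 2))

end Pool.Agent.J4.H87.AD
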