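import Pool.Agent.J4.H87.AD.Defs2

/-!
# Project AD: assembly
-/

set_option autoImplicit false

namespace Pool.Agent.J4.H87.AD

open MeasureTheory Complex Set Filter Topology
open scoped ENNReal NNReal RealInnerProductSpace ComplexConjugate
open Pool.Agent.J4.H73.EX (E en Ga)

theorem Phi_cont : Continuous Phi := by
  unfold Phi
  fun_prop

theorem ker_meas : Measurable fun p : E 3 × E 2 => Complex.exp (-((⟪Phi p.2, p.1⟫ : ℝ) : ℂ) * I) := by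
  have : Continuous fun p : E 3 × E 2 => Complex.exp (-((⟪Phi p.2, p.1⟫ : ℝ) : ℂ) * I) := by
    have h1 := Phi_cont
    fun_prop
  exact this.measurable

theorem ext_meas (g : E 2 → ℂ) (hg : Measurable g) : Measurable (ext g) := by
  unfold ext
  have : StronglyMeasurable (Function.uncurry fun (ξ : E 3) (x : E 2) =>
      Complex.exp (-((⟪Phi x, ξ⟫ : ℝ) : ℂ) * I) * g x) :=
    (ker_meas.mul (hg.comp measurable_snd)).stronglyMeasurable
  exact this.integral_prod_right.measurable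

theorem Dil_meas (e : E 2) (l : ℝ) : Measurable (Dil e l) := by
  unfold Dil
  fun_prop

theorem D1_meas (l : ℝ) : Measurable (D1 l) := by
  unfold D1
  have : Continuous fun x : E 2 => (!₂[x 0, l * x 1] : E 2) := by fun_prop
  exact this.measurable

theorem Go_of {q : ℝ} (hq : 1 ≤ q) {f : E 2 → ℂ} (hm : Measurable f)
    (hz : ∀ x, x ∉ Metric.ball (0 : E 2) (1 / 2) → f x = 0)
    (hf : ∫⁻ x, ‖f x‖ₑ ^ q ≠ ⊤) (ρ : E 2 ≃ₗᵢ[ℝ] E 2) :
    Go (fun x => f (ρ.symm x)) ∧ ∫⁻ x, ‖f (ρ.symm x)‖ₑ ^ q = ∫⁻ x, ‖f x‖ₑ ^ q := by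
  have hq0 : 0 < q := by linarith
  have hmem : MemLp f (ENNReal.ofReal q) volume := by
    refine ⟨hm.aestronglyMeasurable, ?_⟩
    rw [eLpNorm_lt_top_iff_lintegral_rpow_enorm_lt_top (by simpa using hq0) ENNReal.ofReal_ne_top,
      ENNReal.toReal_ofReal hq0.le]
    exact lt_top_iff_ne_top.2 hf
  have hint : Integrable f := by
    have h1 : MemLp f (ENNReal.ofReal q) (volume.restrict (Metric.ball (0 : E 2) (1 / 2))) :=
      hmem.restrict _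
    have : IsFiniteMeasure (volume.restrict (Metric.ball (0 : E 2) (1 / 2))) :=
      ⟨by rw [Measure.restrict_apply_univ]; exact measure_ball_lt_top⟩
    have h2 : IntegrableOn f (Metric.ball (0 : E 2) (1 / 2)) :=
      h1.integrable (by rw [ENNReal.one_le_ofReal]; exact hq)
    rw [← integrableOn_iff_integrable_of_support_subset (s := Metric.ball (0 : E 2) (1 / 2))]
    · exact h2
    · intro x hx
      by_contra h
      exact hx (hz x h)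
  have hpres := ρ.symm.measurePreserving
  refine ⟨⟨hm.comp ρ.symm.continuous.measurable, ?_, ?_⟩, ?_⟩
  · exact hpres.integrable_comp_of_integrable hint
  · intro x hx
    apply hz
    rw [mem_ball_zero_iff, ρ.symm.norm_map]
    linarith
  · exact hpres.lintegral_comp (f := fun x => ‖f x‖ₑ ^ q) (hm.enorm.pow_const q)

/-- the reduction to the second coordinate -/
theorem red (hLINK : S_LINK) (hROT : S_ROT) (q : ℝ) (hq : 1 ≤ q) (e : E 2) (he : ‖e‖ = 1)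
    (f : E 2 → ℂ) (hm : Measurable f) (hz : ∀ x, x ∉ Metric.ball (0 : E 2) (1 / 2) → f x = 0)
    (hf : ∫⁻ x, ‖f x‖ₑ ^ q ≠ ⊤) :
    ∃ g, Go g ∧ ∫⁻ x, ‖g x‖ₑ ^ q = ∫⁻ x, ‖f x‖ₑ ^ q ∧
      ∀ l ∈ Icc (1 : ℝ) 2, ∫⁻ ξ : E 3, ‖ext (fun x => f (Dil e l x)) ξ‖ₑ ^ q ≤ ∑' k, A g q k l := by
  obtain ⟨ρ, h1, h2⟩ := hROT e he
  obtain ⟨h3, h4⟩ := Go_of hq hm hz hf ρ
  refine ⟨fun x => f (ρ.symm x), h3, h4, fun l hl => ?_⟩
  have h5 : (fun x => f (Dil e l x)) = fun x => (fun z => f (ρ.symm (D1 l z))) (ρ x) := by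
    ext x
    simp only
    rw [← h1, ρ.symm_apply_apply]
  rw [h5, h2 (fun z => f (ρ.symm (D1 l z))) q (by linarith)]
  exact hLINK _ q l h3 hq hl.1 hl.2

theorem partA_low (hCOV : S_COV) (hFRO : S_FRO) (hLINK : S_LINK) (hROT : S_ROT)
    (α q K : ℝ) (hα : 0 < α) (hα1 : α ≤ 1) (hq : 4 - α < q) (hq4 : q < 4) (hK : 0 ≤ K) :
    ∃ C : ℝ≥0, 1 ≤ C ∧ ∀ μ : Measure ℝ,
      (∀ a r : ℝ, 0 < r → r ≤ 1 → μ (Icc a (a + r)) ≤ ENNReal.ofReal (K * r ^ α)) →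
      ∀ e : E 2, ‖e‖ = 1 → ∀ f : E 2 → ℂ, Measurable f →
        (∀ x, x ∉ Metric.ball (0 : E 2) (1 / 2) → f x = 0) →
        ∫⁻ l in Icc (1 : ℝ) 2, (∫⁻ ξ : E 3, ‖ext (fun x => f (Dil e l x)) ξ‖ₑ ^ q) ∂μ ≤
          C * ∫⁻ x, ‖f x‖ₑ ^ q := by
  obtain ⟨C1, hC1, H⟩ := hCOV q (by linarith) hq4 ((q - (4 - α)) / 2) (by linarith)
  obtain ⟨C2, hC2, G⟩ := hFRO α (4 - q + (q - (4 - α)) / 2) C1 K hα hα1 (by linarith) hC1.le hK
  refine ⟨(max 1 C2).toNNReal, ?_, ?_⟩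
  · rw [← Real.toNNReal_one]
    exact Real.toNNReal_le_toNNReal (le_max_left _ _)
  intro μ hμ e he f hm hz
  by_cases hf : ∫⁻ x, ‖f x‖ₑ ^ q = ⊤
  · rw [hf, ENNReal.mul_top]
    · exact le_top
    · have : (0 : ℝ≥0) < (max 1 C2).toNNReal :=
        Real.toNNReal_pos.2 (lt_of_lt_of_le one_pos (le_max_left _ _))
      exact_mod_cast this.ne'
  obtain ⟨g, hg, hgf, hl⟩ := red hLINK hROT q (by linarith) e he f hm hz hf
  obtain ⟨c, hc1, hc2⟩ := H g hg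
  have h1 := G (fun k l => A g q k l) c μ (∫⁻ x, ‖g x‖ₑ ^ q) hc1 hc2 hμ
  calc ∫⁻ l in Icc (1 : ℝ) 2, (∫⁻ ξ : E 3, ‖ext (fun x => f (Dil e l x)) ξ‖ₑ ^ q) ∂μ
      ≤ ∫⁻ l in Icc (1 : ℝ) 2, ∑' k, A g q k l ∂μ :=
        setLIntegral_mono' measurableSet_Icc hl
    _ ≤ _ := h1
    _ ≤ _ := by
      rw [hgf]
      refine mul_le_mul_left ?_ _
      show ENNReal.ofReal C2 ≤ ENNReal.ofReal (max 1 C2)
      exact ENNReal.ofReal_le_ofReal (le_max_right _ _)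

theorem partB (hCOV : S_COV) (hDIM : S_DIM) (hLINK : S_LINK) (hROT : S_ROT)
    (q : ℝ) (hq : 3 < q) (hq4 : q < 4) (e : E 2) (he : ‖e‖ = 1) (f : E 2 → ℂ) (hm : Measurable f)
    (hz : ∀ x, x ∉ Metric.ball (0 : E 2) (1 / 2) → f x = 0)
    (hf : MemLp f (ENNReal.ofReal q) volume) :
    dimH {l : ℝ | l ∈ Icc (1 : ℝ) 2 ∧
      ¬ MemLp (ext fun x => f (Dil e l x)) (ENNReal.ofReal q) volume} ≤ ENNReal.ofReal (4 - q) := by
  have hq0 : 0 < q := by linarith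
  have hf1 : ∫⁻ x, ‖f x‖ₑ ^ q ≠ ⊤ := by
    have := hf.2
    rw [eLpNorm_lt_top_iff_lintegral_rpow_enorm_lt_top (by simpa using hq0) ENNReal.ofReal_ne_top,
      ENNReal.toReal_ofReal hq0.le] at this
    exact this.ne
  obtain ⟨g, hg, hgf, hl⟩ := red hLINK hROT q (by linarith) e he f hm hz hf1
  have hsub : {l : ℝ | l ∈ Icc (1 : ℝ) 2 ∧
      ¬ MemLp (ext fun x => f (Dil e l x)) (ENNReal.ofReal q) volume} ⊆
      {l : ℝ | l ∈ Icc (1 : ℝ) 2 ∧ ∑' k, A g q k l = ⊤} := by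
    rintro l ⟨h1, h2⟩
    refine ⟨h1, ?_⟩
    by_contra h3
    apply h2
    refine ⟨(ext_meas _ (hm.comp (Dil_meas e l))).aestronglyMeasurable, ?_⟩
    rw [eLpNorm_lt_top_iff_lintegral_rpow_enorm_lt_top (by simpa using hq0) ENNReal.ofReal_ne_top,
      ENNReal.toReal_ofReal hq0.le]
    exact lt_of_le_of_lt (hl l h1) (lt_top_iff_ne_top.2 h3)
  refine ENNReal.le_of_forall_pos_le_add fun ε hε _ => ?_
  obtain ⟨C, hC, H⟩ := hCOV q (by linarith) hq4 ε (by exact_mod_cast hε)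
  obtain ⟨c, hc1, hc2⟩ := H g hg
  have h4 := hDIM (fun k l => A g q k l) c (4 - q + ε) (C * (∫⁻ x, ‖g x‖ₑ ^ q).toReal)
    (by have := ε.coe_nonneg; linarith) (by
      intro k
      refine (hc1 k).trans (le_of_eq ?_)
      have hZ : ∫⁻ x, ‖g x‖ₑ ^ q ≠ ⊤ := by rw [hgf]; exact hf1
      conv_lhs => rw [← ENNReal.ofReal_toReal hZ]
      rw [← ENNReal.ofReal_mul (by positivity)]
      congr 1
      ring) hc2
  refine (dimH_mono hsub).trans (h4.trans (le_of_eq ?_))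
  rw [ENNReal.ofReal_add (by linarith) ε.coe_nonneg, ENNReal.ofReal_coe_nnreal]

end Pool.Agent.J4.H87.AD
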