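import Pool.Agent.J4.H87.AD.Fin
import Pool.Agent.J4.H73.EX.Coord

/-!
# Project AD: large exponents, almost every parameter
-/

set_option autoImplicit false

namespace Pool.Agent.J4.H87.AD

open MeasureTheory Complex Set Filter Topology
open scoped ENNReal NNReal RealInnerProductSpace ComplexConjugate
open Pool.Agent.J4.H73.EX (E en Ga lint_two)

theorem eL {α : Type*} [MeasurableSpace α] {μ : Measure α} (f : α → ℂ) (q : ℝ) (hq : 0 < q) :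
    eLpNorm f (ENNReal.ofReal q) μ ^ q = ∫⁻ x, ‖f x‖ₑ ^ q ∂μ := by
  rw [eLpNorm_eq_lintegral_rpow_enorm_toReal (by simpa using hq) ENNReal.ofReal_ne_top,
    ENNReal.toReal_ofReal hq.le, one_div, ← ENNReal.rpow_mul, inv_mul_cancel₀ hq.ne',
    ENNReal.rpow_one]

theorem lint_mul (l : ℝ) (hl : 1 ≤ l) (G : ℝ → ℝ≥0∞) (hG : Measurable G) :
    ∫⁻ t, G (l * t) ≤ ∫⁻ t, G t := by
  have hl0 : l ≠ 0 := by linarith
  have h1 : ∫⁻ t, G (l * t) = ∫⁻ t, G t ∂(Measure.map (fun t => l * t) volume) :=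
    (lintegral_map hG (by fun_prop)).symm
  rw [h1]
  conv_rhs => rw [← Real.smul_map_volume_mul_left hl0]
  rw [lintegral_smul_measure, abs_of_pos (by linarith)]
  refine le_trans (le_of_eq (one_smul ℝ≥0∞ _).symm) ?_
  rw [smul_eq_mul, smul_eq_mul]
  gcongr
  rw [ENNReal.one_le_ofReal]
  exact hl

theorem D1_L1 (g : E 2 → ℂ) (hg : Measurable g) (l : ℝ) (hl : 1 ≤ l) :
    ∫⁻ x, ‖g (D1 l x)‖ₑ ≤ ∫⁻ x, ‖g x‖ₑ := by
  have hc : Measurable fun p : ℝ × ℝ => (!₂[p.1, p.2] : E 2) := by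
    have : Continuous fun p : ℝ × ℝ => (!₂[p.1, p.2] : E 2) := by fun_prop
    exact this.measurable
  have h1 := lint_two (fun s t => ‖g !₂[s, l * t]‖ₑ) (by
    have : Measurable fun p : ℝ × ℝ => (p.1, l * p.2) := by fun_prop
    exact (hg.comp (hc.comp this)).enorm)
  have h2 := lint_two (fun s t => ‖g !₂[s, t]‖ₑ) ((hg.comp hc).enorm)
  have h3 : ∀ x : E 2, (!₂[x 0, x 1] : E 2) = x := by
    intro x
    ext i
    fin_cases i <;> rfl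
  simp only [h3] at h2
  calc ∫⁻ x, ‖g (D1 l x)‖ₑ = ∫⁻ s, ∫⁻ t, ‖g !₂[s, l * t]‖ₑ := h1
    _ ≤ ∫⁻ s, ∫⁻ t, ‖g !₂[s, t]‖ₑ := by
        refine lintegral_mono fun s => ?_
        refine lint_mul l hl (fun t => ‖g !₂[s, t]‖ₑ) ?_
        have : Measurable fun t : ℝ => (s, t) := by fun_prop
        exact (hg.comp (hc.comp this)).enorm
    _ = _ := h2.symm

theorem ext_sup (g : E 2 → ℂ) (ξ : E 3) : ‖ext g ξ‖ₑ ≤ ∫⁻ x, ‖g x‖ₑ := by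
  unfold ext
  refine (enorm_integral_le_lintegral_enorm _).trans ?_
  refine (setLIntegral_le_lintegral _ _).trans (le_of_eq ?_)
  refine lintegral_congr fun x => ?_
  rw [enorm_mul]
  have : ‖Complex.exp (-((⟪Phi x, ξ⟫ : ℝ) : ℂ) * I)‖ₑ = 1 := by
    rw [← ofReal_norm]
    have h1 : (-((⟪Phi x, ξ⟫ : ℝ) : ℂ) * I) = ((-⟪Phi x, ξ⟫ : ℝ) : ℂ) * I := by push_cast; ring
    rw [h1, Complex.norm_exp_ofReal_mul_I, ENNReal.ofReal_one]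
  rw [this, one_mul]

theorem high (g : E 2 → ℂ) (q0 q : ℝ) (h0 : 1 ≤ q0) (hq : q0 ≤ q) (hN : ∫⁻ x, ‖g x‖ₑ ≠ ⊤) :
    ∫⁻ ξ : E 3, ‖ext g ξ‖ₑ ^ q ≤ (∫⁻ x, ‖g x‖ₑ) ^ (q - q0) * ∫⁻ ξ : E 3, ‖ext g ξ‖ₑ ^ q0 := by
  calc ∫⁻ ξ : E 3, ‖ext g ξ‖ₑ ^ q
      ≤ ∫⁻ ξ : E 3, (∫⁻ x, ‖g x‖ₑ) ^ (q - q0) * ‖ext g ξ‖ₑ ^ q0 := by
        refine lintegral_mono fun ξ => ?_
        have h1 : ‖ext g ξ‖ₑ ^ q = ‖ext g ξ‖ₑ ^ (q - q0) * ‖ext g ξ‖ₑ ^ q0 := by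
          rw [← ENNReal.rpow_add_of_nonneg _ _ (by linarith) (by linarith)]
          congr 1
          ring
        rw [h1]
        exact mul_le_mul_left (ENNReal.rpow_le_rpow (ext_sup g ξ) (by linarith)) _
    _ = _ := by
        rw [lintegral_const_mul' _ _ (ENNReal.rpow_ne_top_of_nonneg (by linarith) hN)]

theorem vol_le : volume (Metric.closedBall (0 : E 2) (1 / 2)) ≤ 1 := by
  rw [EuclideanSpace.volume_closedBall_fin_two]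
  have h1 : ENNReal.ofReal (1 / 2) ^ 2 * ENNReal.ofReal Real.pi = ENNReal.ofReal (Real.pi / 4) := by
    rw [← ENNReal.ofReal_pow (by norm_num), ← ENNReal.ofReal_mul (by norm_num)]
    congr 1
    ring
  rw [h1, ENNReal.ofReal_le_one]
  have := Real.pi_le_four
  linarith

theorem Lmono (g : E 2 → ℂ) (hg : Go g) (p q : ℝ) (hp : 0 < p) (hpq : p ≤ q) :
    ∫⁻ x, ‖g x‖ₑ ^ p ≤ (∫⁻ x, ‖g x‖ₑ ^ q) ^ (p / q) := by
  have hq : 0 < q := by linarith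
  set μ : Measure (E 2) := volume.restrict (Metric.closedBall (0 : E 2) (1 / 2)) with hμ
  have h1 : ∀ r : ℝ, 0 < r → ∫⁻ x, ‖g x‖ₑ ^ r ∂μ = ∫⁻ x, ‖g x‖ₑ ^ r := by
    intro r hr
    rw [hμ, ← lintegral_indicator measurableSet_closedBall]
    refine lintegral_congr fun x => ?_
    by_cases hx : x ∈ Metric.closedBall (0 : E 2) (1 / 2)
    · rw [indicator_of_mem hx]
    · rw [indicator_of_notMem hx, hg.2.2 x (by simpa using hx), enorm_zero,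
        ENNReal.zero_rpow_of_pos hr]
  have h2 := eLpNorm_le_eLpNorm_mul_rpow_measure_univ (μ := μ) (f := g)
    (ENNReal.ofReal_le_ofReal hpq) hg.1.aestronglyMeasurable
  have h3 : eLpNorm g (ENNReal.ofReal p) μ ≤ eLpNorm g (ENNReal.ofReal q) μ := by
    refine h2.trans ?_
    refine (mul_le_mul_right ?_ _).trans (le_of_eq (mul_one _))
    rw [ENNReal.toReal_ofReal hp.le, ENNReal.toReal_ofReal hq.le]
    refine ENNReal.rpow_le_one ?_ ?_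
    · rw [hμ, Measure.restrict_apply_univ]
      exact vol_le
    · rw [sub_nonneg]
      exact one_div_le_one_div_of_le hp hpq
  rw [← h1 p hp, ← h1 q hq, ← eL g p hp, ← eL g q hq, ← ENNReal.rpow_mul,
    mul_div_cancel₀ _ hq.ne']
  exact ENNReal.rpow_le_rpow h3 hp.le

/-- the reduction for a larger exponent -/
theorem red2 (hLINK : S_LINK) (hROT : S_ROT) (q0 q : ℝ) (hq0 : 1 ≤ q0) (hq : q0 ≤ q) (e : E 2)
    (he : ‖e‖ = 1) (f : E 2 → ℂ) (hm : Measurable f)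
    (hz : ∀ x, x ∉ Metric.ball (0 : E 2) (1 / 2) → f x = 0)
    (hf : ∫⁻ x, ‖f x‖ₑ ^ q ≠ ⊤) :
    ∃ g, Go g ∧ ∫⁻ x, ‖g x‖ₑ ^ q = ∫⁻ x, ‖f x‖ₑ ^ q ∧
      ∀ l ∈ Icc (1 : ℝ) 2, ∫⁻ ξ : E 3, ‖ext (fun x => f (Dil e l x)) ξ‖ₑ ^ q ≤
        (∫⁻ x, ‖g x‖ₑ) ^ (q - q0) * ∑' k, A g q0 k l := by
  obtain ⟨ρ, h1, h2⟩ := hROT e he
  obtain ⟨h3, h4⟩ := Go_of (by linarith) hm hz hf ρ
  refine ⟨fun x => f (ρ.symm x), h3, h4, fun l hl => ?_⟩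
  have h5 : (fun x => f (Dil e l x)) = fun x => (fun z => f (ρ.symm (D1 l z))) (ρ x) := by
    ext x
    simp only
    rw [← h1, ρ.symm_apply_apply]
  rw [h5, h2 (fun z => f (ρ.symm (D1 l z))) q (by linarith)]
  have h6 : ∫⁻ x, ‖(fun x => f (ρ.symm x)) x‖ₑ ≠ ⊤ := h3.2.1.2.ne
  have h7 := D1_L1 (fun x => f (ρ.symm x)) h3.1 l hl.1
  refine (high _ q0 q hq0 hq (ne_top_of_le_ne_top h6 h7)).trans ?_
  exact mul_le_mul' (ENNReal.rpow_le_rpow h7 (by linarith)) (hLINK _ q0 l h3 hq0 hl.1 hl.2)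

theorem partA (hCOV : S_COV) (hFRO : S_FRO) (hLINK : S_LINK) (hROT : S_ROT)
    (α q K : ℝ) (hα : 0 < α) (hα1 : α ≤ 1) (hq : 4 - α < q) (hK : 0 ≤ K) :
    ∃ C : ℝ≥0, 1 ≤ C ∧ ∀ μ : Measure ℝ,
      (∀ a r : ℝ, 0 < r → r ≤ 1 → μ (Icc a (a + r)) ≤ ENNReal.ofReal (K * r ^ α)) →
      ∀ e : E 2, ‖e‖ = 1 → ∀ f : E 2 → ℂ, Measurable f →
        (∀ x, x ∉ Metric.ball (0 : E 2) (1 / 2) → f x = 0) →
        ∫⁻ l in Icc (1 : ℝ) 2, (∫⁻ ξ : E 3, ‖ext (fun x => f (Dil e l x)) ξ‖ₑ ^ q) ∂μ ≤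
          C * ∫⁻ x, ‖f x‖ₑ ^ q := by
  rcases lt_or_ge q 4 with hq4 | hq4
  · exact partA_low hCOV hFRO hLINK hROT α q K hα hα1 hq hq4 hK
  set q0 : ℝ := 4 - α / 2 with hq0
  obtain ⟨C1, hC1, H⟩ := hCOV q0 (by linarith) (by linarith) (α / 4) (by linarith)
  obtain ⟨C2, hC2, G⟩ := hFRO α (4 - q0 + α / 4) C1 K hα hα1 (by linarith) hC1.le hK
  refine ⟨(max 1 C2).toNNReal, ?_, ?_⟩
  · rw [← Real.toNNReal_one]
    exact Real.toNNReal_le_toNNReal (le_max_left _ _)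
  intro μ hμ e he f hm hz
  by_cases hf : ∫⁻ x, ‖f x‖ₑ ^ q = ⊤
  · rw [hf, ENNReal.mul_top]
    · exact le_top
    · have : (0 : ℝ≥0) < (max 1 C2).toNNReal :=
        Real.toNNReal_pos.2 (lt_of_lt_of_le one_pos (le_max_left _ _))
      exact_mod_cast this.ne'
  obtain ⟨g, hg, hgf, hl⟩ := red2 hLINK hROT q0 q (by linarith) (by linarith) e he f hm hz hf
  obtain ⟨c, hc1, hc2⟩ := H g hg
  have h1 := G (fun k l => A g q0 k l) c μ (∫⁻ x, ‖g x‖ₑ ^ q0) hc1 hc2 hμ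
  have h8 : ∫⁻ x, ‖g x‖ₑ ≤ (∫⁻ x, ‖g x‖ₑ ^ q) ^ (1 / q) := by
    have := Lmono g hg 1 q one_pos (by linarith)
    simpa only [ENNReal.rpow_one] using this
  have h9 := Lmono g hg q0 q (by linarith) (by linarith)
  have hfin : (∫⁻ x, ‖g x‖ₑ) ^ (q - q0) ≠ ⊤ :=
    ENNReal.rpow_ne_top_of_nonneg (by linarith) hg.2.1.2.ne
  calc ∫⁻ l in Icc (1 : ℝ) 2, (∫⁻ ξ : E 3, ‖ext (fun x => f (Dil e l x)) ξ‖ₑ ^ q) ∂μ
      ≤ ∫⁻ l in Icc (1 : ℝ) 2, (∫⁻ x, ‖g x‖ₑ) ^ (q - q0) * ∑' k, A g q0 k l ∂μ :=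
        setLIntegral_mono' measurableSet_Icc hl
    _ = (∫⁻ x, ‖g x‖ₑ) ^ (q - q0) * ∫⁻ l in Icc (1 : ℝ) 2, ∑' k, A g q0 k l ∂μ :=
        lintegral_const_mul' _ _ hfin
    _ ≤ ((∫⁻ x, ‖g x‖ₑ ^ q) ^ (1 / q)) ^ (q - q0) *
        (ENNReal.ofReal C2 * (∫⁻ x, ‖g x‖ₑ ^ q) ^ (q0 / q)) :=
        mul_le_mul' (ENNReal.rpow_le_rpow h8 (by linarith)) (h1.trans (mul_le_mul_right h9 _))
    _ = ENNReal.ofReal C2 * ∫⁻ x, ‖g x‖ₑ ^ q := by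
        rw [← ENNReal.rpow_mul, mul_left_comm, ← ENNReal.rpow_add_of_nonneg]
        · congr 1
          rw [show 1 / q * (q - q0) + q0 / q = 1 by field_simp; ring, ENNReal.rpow_one]
        · have h10 : 0 ≤ q - q0 := by linarith
          have h11 : 0 ≤ 1 / q := by positivity
          exact mul_nonneg h11 h10
        · exact div_nonneg (by linarith) (by linarith)
    _ ≤ _ := by
      rw [hgf]
      refine mul_le_mul_left ?_ _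
      show ENNReal.ofReal C2 ≤ ENNReal.ofReal (max 1 C2)
      exact ENNReal.ofReal_le_ofReal (le_max_right _ _)

end Pool.Agent.J4.H87.AD
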