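import Pool.Agent.J4.H87.AD.Fin2

/-!
# Project AD: almost every parameter
-/

set_option autoImplicit false

namespace Pool.Agent.J4.H87.AD

open MeasureTheory Complex Set Filter Topology
open scoped ENNReal NNReal RealInnerProductSpace ComplexConjugate
open Pool.Agent.J4.H73.EX (E en Ga lint_two)

theorem Dil_single (l : ℝ) (x : E 2) : Dil (EuclideanSpace.single (1 : Fin 2) (1 : ℝ)) l x = D1 l x := by
  unfold Dil D1
  ext i
  fin_cases i
  · simp [EuclideanSpace.inner_single_left]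
  · simp [EuclideanSpace.inner_single_left]
    ring

theorem D1_joint : Measurable fun p : ℝ × E 2 => D1 p.1 p.2 := by
  unfold D1
  have : Continuous fun p : ℝ × E 2 => (!₂[p.2 0, p.1 * p.2 1] : E 2) := by fun_prop
  exact this.measurable

theorem ext_joint (g : E 2 → ℂ) (hg : Measurable g) :
    Measurable fun p : ℝ × E 3 => ext (fun x => g (D1 p.1 x)) p.2 := by
  unfold ext
  have h1 : Measurable fun z : (ℝ × E 3) × E 2 => (z.1.2, z.2) := by fun_prop
  have h2 : Measurable fun z : (ℝ × E 3) × E 2 => (z.1.1, z.2) := by fun_prop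
  have : StronglyMeasurable (Function.uncurry fun (p : ℝ × E 3) (x : E 2) =>
      Complex.exp (-((⟪Phi x, p.2⟫ : ℝ) : ℂ) * I) * g (D1 p.1 x)) :=
    ((ker_meas.comp h1).mul (hg.comp (D1_joint.comp h2))).stronglyMeasurable
  exact this.integral_prod_right.measurable

theorem ae_param (hCOV : S_COV) (hFRO : S_FRO) (hLINK : S_LINK) (hROT : S_ROT) (q : ℝ) (hq : 3 < q)
    (g : E 2 → ℂ) (hg : Measurable g) (hz : ∀ x, x ∉ Metric.ball (0 : E 2) (1 / 2) → g x = 0)
    (hgq : MemLp g (ENNReal.ofReal q) volume) :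
    ∀ᵐ l ∂(volume.restrict (Icc (1 : ℝ) 2)),
      MemLp (ext fun x => g (D1 l x)) (ENNReal.ofReal q) volume := by
  have hq0 : 0 < q := by linarith
  obtain ⟨C, _, H⟩ := partA hCOV hFRO hLINK hROT 1 q 1 one_pos le_rfl (by linarith) zero_le_one
  have h1 := H volume (by
    intro a r hr _
    rw [Real.volume_Icc, Real.rpow_one, one_mul, add_sub_cancel_left])
    (EuclideanSpace.single (1 : Fin 2) (1 : ℝ)) (by simp) g hg hz
  simp only [Dil_single] at h1
  have h2 : (C : ℝ≥0∞) * ∫⁻ x, ‖g x‖ₑ ^ q < ⊤ := by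
    refine ENNReal.mul_lt_top ENNReal.coe_lt_top ?_
    have := hgq.2
    rwa [eLpNorm_lt_top_iff_lintegral_rpow_enorm_lt_top (by simpa using hq0) ENNReal.ofReal_ne_top,
      ENNReal.toReal_ofReal hq0.le] at this
  have h3 : Measurable fun l : ℝ => ∫⁻ ξ : E 3, ‖ext (fun x => g (D1 l x)) ξ‖ₑ ^ q :=
    ((ext_joint g hg).enorm.pow_const q).lintegral_prod_right'
  have h4 := ae_lt_top h3 (h1.trans_lt h2).ne
  filter_upwards [h4] with l hl
  refine ⟨(ext_meas _ (hg.comp (D1_meas l))).aestronglyMeasurable, ?_⟩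
  rw [eLpNorm_lt_top_iff_lintegral_rpow_enorm_lt_top (by simpa using hq0) ENNReal.ofReal_ne_top,
    ENNReal.toReal_ofReal hq0.le]
  exact hl

end Pool.Agent.J4.H87.AD
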