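import Pool.Agent.J4.H87.AD.Fin3

/-!
# Project AD: the operator over the plane
-/

set_option autoImplicit false

namespace Pool.Agent.J4.H87.AD

open MeasureTheory Complex Set Filter Topology
open scoped ENNReal NNReal RealInnerProductSpace ComplexConjugate
open Pool.Agent.J4.H73.EX (E en Ga lint_two)

theorem extR_eq (h : E 2 → ℂ) (hz : ∀ x, x ∉ Metric.ball (0 : E 2) (1 / 2) → h x = 0) :
    extR h = ext h := by
  ext ξ
  unfold extR ext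
  rw [← integral_indicator measurableSet_ball]
  congr 1
  ext x
  by_cases hx : x ∈ Metric.ball (0 : E 2) (1 / 2)
  · rw [indicator_of_mem hx]
  · rw [indicator_of_notMem hx, hz x hx, mul_zero]

theorem Dil_norm (e : E 2) (he : ‖e‖ = 1) (l : ℝ) (hl : 1 ≤ l) (x : E 2) : ‖x‖ ≤ ‖Dil e l x‖ := by
  have h1 : ‖x‖ ^ 2 ≤ ‖Dil e l x‖ ^ 2 := by
    unfold Dil
    rw [@norm_add_sq_real, inner_smul_right, norm_smul, he, mul_one, Real.norm_eq_abs, sq_abs,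
      real_inner_comm e x]
    nlinarith [sq_nonneg ⟪e, x⟫, mul_nonneg (sub_nonneg.2 hl) (sq_nonneg ⟪e, x⟫),
      sq_nonneg ((l - 1) * ⟪e, x⟫)]
  exact (sq_le_sq₀ (norm_nonneg _) (norm_nonneg _)).1 h1

theorem Dil_zero (e : E 2) (he : ‖e‖ = 1) (l : ℝ) (hl : 1 ≤ l) (f : E 2 → ℂ)
    (hz : ∀ x, x ∉ Metric.ball (0 : E 2) (1 / 2) → f x = 0) :
    extR (fun x => f (Dil e l x)) = ext fun x => f (Dil e l x) := by
  refine extR_eq _ fun x hx => hz _ ?_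
  rw [mem_ball_zero_iff, not_lt] at hx ⊢
  exact hx.trans (Dil_norm e he l hl x)

theorem mainA (hCOV : S_COV) (hFRO : S_FRO) (hLINK : S_LINK) (hROT : S_ROT)
    (α q K : ℝ) (hα : 0 < α) (hα1 : α ≤ 1) (hq : 4 - α < q) (hK : 0 ≤ K) :
    ∃ C : ℝ≥0, ∀ μ : Measure ℝ,
      (∀ a r : ℝ, 0 < r → r ≤ 1 → μ (Icc a (a + r)) ≤ ENNReal.ofReal (K * r ^ α)) →
      ∀ e : E 2, ‖e‖ = 1 → ∀ f : E 2 → ℂ, Measurable f →
        (∀ x, x ∉ Metric.ball (0 : E 2) (1 / 2) → f x = 0) →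
        ∫⁻ l in Icc (1 : ℝ) 2, eLpNorm (extR fun x => f (Dil e l x)) (ENNReal.ofReal q) volume ^ q ∂μ ≤
          C * eLpNorm f (ENNReal.ofReal q) volume ^ q := by
  obtain ⟨C, _, H⟩ := partA hCOV hFRO hLINK hROT α q K hα hα1 hq hK
  refine ⟨C, fun μ hμ e he f hm hz => ?_⟩
  have h1 := H μ hμ e he f hm hz
  rw [eL f q (by linarith)]
  refine le_trans (setLIntegral_mono' measurableSet_Icc fun l hl => ?_) h1
  rw [Dil_zero e he l hl.1 f hz, eL _ q (by linarith)]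

theorem mainB (hCOV : S_COV) (hDIM : S_DIM) (hLINK : S_LINK) (hROT : S_ROT)
    (q : ℝ) (hq : 3 < q) (hq4 : q < 4) (e : E 2) (he : ‖e‖ = 1) (f : E 2 → ℂ) (hm : Measurable f)
    (hz : ∀ x, x ∉ Metric.ball (0 : E 2) (1 / 2) → f x = 0)
    (hf : MemLp f (ENNReal.ofReal q) volume) :
    dimH {l : ℝ | l ∈ Icc (1 : ℝ) 2 ∧
      ¬ MemLp (extR fun x => f (Dil e l x)) (ENNReal.ofReal q) volume} ≤ ENNReal.ofReal (4 - q) := by
  refine le_trans (dimH_mono ?_) (partB hCOV hDIM hLINK hROT q hq hq4 e he f hm hz hf)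
  rintro l ⟨h1, h2⟩
  refine ⟨h1, ?_⟩
  rwa [Dil_zero e he l h1.1 f hz] at h2

end Pool.Agent.J4.H87.AD
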