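import Pool.Agent.J4.H87.AD.Defs3
import Pool.Agent.J4.H87.AD.Fin4

/-!
# Project AD: the final form of A and B
-/

set_option autoImplicit false

namespace Pool.Agent.J4.H87.AD

open MeasureTheory Complex Set Filter Topology
open scoped ENNReal NNReal RealInnerProductSpace ComplexConjugate
open Pool.Agent.J4.H73.EX (E en Ga lint_two)

theorem zA (hFRO : S_FRO2) (hLINK : S_LINK) (hROT : S_ROT)
    (α q K : ℝ) (hα : 0 < α) (hα1 : α ≤ 1) (hq : 2 + 2 / (1 + α) < q) (hK : 0 ≤ K) :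
    ∃ C : ℝ≥0, ∀ μ : Measure ℝ,
      (∀ a r : ℝ, 0 < r → r ≤ 1 → μ (Icc a (a + r)) ≤ ENNReal.ofReal (K * r ^ α)) →
      ∀ e : E 2, ‖e‖ = 1 → ∀ f : E 2 → ℂ, Measurable f →
        (∀ x, x ∉ Metric.ball (0 : E 2) (1 / 2) → f x = 0) →
        ∫⁻ l in Icc (1 : ℝ) 2, eLpNorm (extR fun x => f (Dil e l x)) (ENNReal.ofReal q) volume ^ q ∂μ ≤
          C * eLpNorm f (ENNReal.ofReal q) volume ^ q := by
  have hα0 : 0 < 2 / (1 + α) := by positivity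
  have hα2 : 2 / (1 + α) < 2 := by
    rw [div_lt_iff₀ (by linarith)]
    linarith
  have hq2 : 2 < q := by linarith
  obtain ⟨q0, h0, h04, h0q⟩ : ∃ q0 : ℝ, 2 + 2 / (1 + α) < q0 ∧ q0 < 4 ∧ q0 ≤ q := by
    rcases lt_or_ge q 4 with h | h
    · exact ⟨q, hq, h, le_rfl⟩
    · exact ⟨3 + 1 / 2 * (2 / (1 + α)), by linarith, by linarith, by linarith⟩
  obtain ⟨C2, hC2, G⟩ := hFRO α q0 K hα hα1 h0 h04 hK
  refine ⟨(max 1 C2).toNNReal, ?_⟩
  intro μ hμ e he f hm hz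
  have hgoal : ∫⁻ l in Icc (1 : ℝ) 2, (∫⁻ ξ : E 3, ‖ext (fun x => f (Dil e l x)) ξ‖ₑ ^ q) ∂μ ≤
      ((max 1 C2).toNNReal : ℝ≥0∞) * ∫⁻ x, ‖f x‖ₑ ^ q := by
    by_cases hf : ∫⁻ x, ‖f x‖ₑ ^ q = ⊤
    · rw [hf, ENNReal.mul_top]
      · exact le_top
      · have : (0 : ℝ≥0) < (max 1 C2).toNNReal :=
          Real.toNNReal_pos.2 (lt_of_lt_of_le one_pos (le_max_left _ _))
        exact_mod_cast this.ne'
    obtain ⟨g, hg, hgf, hl⟩ := red2 hLINK hROT q0 q (by linarith) h0q e he f hm hz hf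
    have h1 := G μ hμ g hg
    have h8 : ∫⁻ x, ‖g x‖ₑ ≤ (∫⁻ x, ‖g x‖ₑ ^ q) ^ (1 / q) := by
      have := Lmono g hg 1 q one_pos (by linarith)
      simpa only [ENNReal.rpow_one] using this
    have h9 := Lmono g hg q0 q (by linarith) h0q
    have hfin : (∫⁻ x, ‖g x‖ₑ) ^ (q - q0) ≠ ⊤ :=
      ENNReal.rpow_ne_top_of_nonneg (by linarith) hg.2.1.2.ne
    calc ∫⁻ l in Icc (1 : ℝ) 2, (∫⁻ ξ : E 3, ‖ext (fun x => f (Dil e l x)) ξ‖ₑ ^ q) ∂μ
        ≤ ∫⁻ l in Icc (1 : ℝ) 2, (∫⁻ x, ‖g x‖ₑ) ^ (q - q0) * ∑' k, A g q0 k l ∂μ :=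
          setLIntegral_mono' measurableSet_Icc hl
      _ = (∫⁻ x, ‖g x‖ₑ) ^ (q - q0) * ∫⁻ l in Icc (1 : ℝ) 2, ∑' k, A g q0 k l ∂μ :=
          lintegral_const_mul' _ _ hfin
      _ ≤ ((∫⁻ x, ‖g x‖ₑ ^ q) ^ (1 / q)) ^ (q - q0) *
          (ENNReal.ofReal C2 * (∫⁻ x, ‖g x‖ₑ ^ q) ^ (q0 / q)) :=
          mul_le_mul' (ENNReal.rpow_le_rpow h8 (by linarith)) (h1.trans (mul_le_mul_right h9 _))
      _ = ENNReal.ofReal C2 * ∫⁻ x, ‖g x‖ₑ ^ q := by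
          rw [← ENNReal.rpow_mul, mul_left_comm, ← ENNReal.rpow_add_of_nonneg]
          · congr 1
            rw [show 1 / q * (q - q0) + q0 / q = 1 by field_simp; ring, ENNReal.rpow_one]
          · have h10 : 0 ≤ q - q0 := by linarith
            have h11 : 0 ≤ 1 / q := by positivity
            exact mul_nonneg h11 h10
          · exact div_nonneg (by linarith) (by linarith)
      _ ≤ _ := by
        rw [hgf]
        refine mul_le_mul_left ?_ _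
        show ENNReal.ofReal C2 ≤ ENNReal.ofReal (max 1 C2)
        exact ENNReal.ofReal_le_ofReal (le_max_right _ _)
  rw [eL f q (by linarith)]
  refine le_trans (setLIntegral_mono' measurableSet_Icc fun l hl => ?_) hgoal
  rw [Dil_zero e he l hl.1 f hz, eL _ q (by linarith)]

theorem zB (hDIM : S_DIM2) (hLINK : S_LINK) (hROT : S_ROT)
    (q : ℝ) (hq : 3 < q) (hq4 : q < 4) (e : E 2) (he : ‖e‖ = 1) (f : E 2 → ℂ) (hm : Measurable f)
    (hz : ∀ x, x ∉ Metric.ball (0 : E 2) (1 / 2) → f x = 0)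
    (hf : MemLp f (ENNReal.ofReal q) volume) :
    dimH {l : ℝ | l ∈ Icc (1 : ℝ) 2 ∧
      ¬ MemLp (extR fun x => f (Dil e l x)) (ENNReal.ofReal q) volume} ≤
        ENNReal.ofReal ((4 - q) / (q - 2)) := by
  have hq0 : 0 < q := by linarith
  have hf1 : ∫⁻ x, ‖f x‖ₑ ^ q ≠ ⊤ := by
    have := hf.2
    rw [eLpNorm_lt_top_iff_lintegral_rpow_enorm_lt_top (by simpa using hq0) ENNReal.ofReal_ne_top,
      ENNReal.toReal_ofReal hq0.le] at this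
    exact this.ne
  obtain ⟨g, hg, hgf, hl⟩ := red hLINK hROT q (by linarith) e he f hm hz hf1
  refine le_trans (dimH_mono ?_) (hDIM q hq hq4 g hg (by rw [hgf]; exact hf1))
  rintro l ⟨h1, h2⟩
  refine ⟨h1, ?_⟩
  rw [Dil_zero e he l h1.1 f hz] at h2
  by_contra h3
  apply h2
  refine ⟨(ext_meas _ (hm.comp (Dil_meas e l))).aestronglyMeasurable, ?_⟩
  rw [eLpNorm_lt_top_iff_lintegral_rpow_enorm_lt_top (by simpa using hq0) ENNReal.ofReal_ne_top,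
    ENNReal.toReal_ofReal hq0.le]
  exact lt_of_le_of_lt (hl l h1) (lt_top_iff_ne_top.2 h3)

end Pool.Agent.J4.H87.AD
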