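import Pool.Agent.J4.H87.AD.Defs

set_option autoImplicit false

open MeasureTheory Set
open scoped ENNReal

namespace Pool.Agent.J4.H87.AD

namespace FRO

/-- every point of `[1,2]` is in one of the intervals of length `2^(-k)` -/
theorem cover (k : ℕ) {l : ℝ} (hl : l ∈ Icc (1 : ℝ) 2) :
    ∃ j ∈ Finset.range (2 ^ k), l ∈ Icc (1 + (j : ℝ) / 2 ^ k) (1 + ((j : ℝ) + 1) / 2 ^ k) := by
  have hp : (0 : ℝ) < 2 ^ k := by positivity
  have h0 : 0 ≤ (l - 1) * 2 ^ k := mul_nonneg (by linarith [hl.1]) hp.le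
  rcases lt_or_ge ⌊(l - 1) * 2 ^ k⌋₊ (2 ^ k) with h | h
  · refine ⟨⌊(l - 1) * 2 ^ k⌋₊, Finset.mem_range.mpr h, ?_, ?_⟩
    · have h1 := Nat.floor_le h0
      have h2 : (⌊(l - 1) * 2 ^ k⌋₊ : ℝ) / 2 ^ k ≤ l - 1 := by
        rw [div_le_iff₀ hp]; exact h1
      linarith
    · have h1 := Nat.lt_floor_add_one ((l - 1) * 2 ^ k)
      have h2 : l - 1 ≤ ((⌊(l - 1) * 2 ^ k⌋₊ : ℝ) + 1) / 2 ^ k := by
        rw [le_div_iff₀ hp]; exact h1.le
      linarith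
  · have h1 := Nat.floor_le h0
    have h2 : ((2 ^ k : ℕ) : ℝ) ≤ (l - 1) * 2 ^ k := le_trans (by exact_mod_cast h) h1
    push_cast at h2
    have h3 : l = 2 := by
      have h4 : 1 ≤ l - 1 := by
        by_contra h5
        push Not at h5
        have : (l - 1) * 2 ^ k < 1 * 2 ^ k := mul_lt_mul_of_pos_right h5 hp
        linarith
      linarith [hl.2]
    have hk : 1 ≤ 2 ^ k := Nat.one_le_two_pow
    refine ⟨2 ^ k - 1, Finset.mem_range.mpr (by omega), ?_, ?_⟩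
    · rw [h3, Nat.cast_sub hk]
      push_cast
      have : ((2 : ℝ) ^ k - 1) / 2 ^ k ≤ 1 := by
        rw [div_le_one hp]; linarith
      linarith
    · rw [h3, Nat.cast_sub hk]
      push_cast
      have : ((2 : ℝ) ^ k - 1 + 1) / 2 ^ k = 1 := by
        rw [sub_add_cancel, div_self hp.ne']
      linarith

end FRO

theorem t_FRO : S_FRO := by
  intro α β C K hα hα1 hβ hC hK
  obtain ⟨ρ, hρ⟩ : ∃ ρ : ℝ, ρ = (2 : ℝ) ^ (β - α) := ⟨_, rfl⟩
  have hρ0 : 0 < ρ := by rw [hρ]; exact Real.rpow_pos_of_pos two_pos _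
  have hρ1 : ρ < 1 := by
    rw [hρ]
    exact Real.rpow_lt_one_of_one_lt_of_neg one_lt_two (by linarith)
  have hd : 0 < 1 - ρ := by linarith
  have hq : 0 ≤ C * K / (1 - ρ) := div_nonneg (mul_nonneg hC hK) hd.le
  refine ⟨C * K / (1 - ρ) + 1, by linarith, ?_⟩
  intro a c μ Z h1 h3 h4
  have key : ∀ l ∈ Icc (1 : ℝ) 2, ∑' k, a k l ≤ ∑' k : ℕ, ∑ j ∈ Finset.range (2 ^ k),
      (Icc (1 + (j : ℝ) / 2 ^ k) (1 + ((j : ℝ) + 1) / 2 ^ k)).indicator (fun _ => c k j) l := by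
    intro l hl
    refine ENNReal.tsum_le_tsum fun k => ?_
    obtain ⟨j, hj, hlj⟩ := FRO.cover k hl
    calc a k l ≤ c k j := h3 k j (Finset.mem_range.mp hj) l hlj
      _ = (Icc (1 + (j : ℝ) / 2 ^ k) (1 + ((j : ℝ) + 1) / 2 ^ k)).indicator (fun _ => c k j) l := by
        rw [indicator_of_mem hlj]
      _ ≤ _ := Finset.single_le_sum (f := fun j : ℕ =>
        (Icc (1 + (j : ℝ) / 2 ^ k) (1 + ((j : ℝ) + 1) / 2 ^ k)).indicator (fun _ => c k j) l)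
        (fun _ _ => bot_le) hj
  have hms : ∀ k j : ℕ, Measurable
      ((Icc (1 + (j : ℝ) / 2 ^ k) (1 + ((j : ℝ) + 1) / 2 ^ k)).indicator (fun _ => c k j)) :=
    fun k j => measurable_const.indicator measurableSet_Icc
  have hmu : ∀ k j : ℕ, μ.restrict (Icc 1 2) (Icc (1 + (j : ℝ) / 2 ^ k) (1 + ((j : ℝ) + 1) / 2 ^ k)) ≤
      ENNReal.ofReal (K * ((2 ^ k : ℝ)⁻¹) ^ α) := by
    intro k j
    refine (Measure.restrict_apply_le _ _).trans ?_
    have hp : (0 : ℝ) < (2 ^ k : ℝ)⁻¹ := by positivity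
    have h5 := h4 (1 + (j : ℝ) / 2 ^ k) (2 ^ k : ℝ)⁻¹ hp
      (inv_le_one_of_one_le₀ (one_le_pow₀ one_le_two))
    have e : 1 + (j : ℝ) / 2 ^ k + (2 ^ k : ℝ)⁻¹ = 1 + ((j : ℝ) + 1) / 2 ^ k := by
      rw [add_div, one_div]; ring
    rwa [e] at h5
  have hterm : ∀ k : ℕ, ENNReal.ofReal (C * (2 : ℝ) ^ (k * β)) * Z *
      ENNReal.ofReal (K * ((2 ^ k : ℝ)⁻¹) ^ α) = ENNReal.ofReal (C * K * ρ ^ k) * Z := by
    intro k
    rw [mul_right_comm, ← ENNReal.ofReal_mul (mul_nonneg hC (Real.rpow_nonneg two_pos.le _))]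
    congr 2
    have e1 : ((2 ^ k : ℝ)⁻¹) ^ α = (2 : ℝ) ^ (-((k : ℝ) * α)) := by
      rw [← Real.rpow_natCast, ← Real.rpow_neg two_pos.le, ← Real.rpow_mul two_pos.le]
      congr 1
      ring
    have e2 : ρ ^ k = (2 : ℝ) ^ ((k : ℝ) * β) * (2 : ℝ) ^ (-((k : ℝ) * α)) := by
      rw [hρ, ← Real.rpow_natCast, ← Real.rpow_mul two_pos.le, ← Real.rpow_add two_pos]
      congr 1
      ring
    rw [e1, e2]
    ring
  calc ∫⁻ l in Icc (1 : ℝ) 2, ∑' k, a k l ∂μ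
      ≤ ∫⁻ l in Icc (1 : ℝ) 2, ∑' k : ℕ, ∑ j ∈ Finset.range (2 ^ k),
        (Icc (1 + (j : ℝ) / 2 ^ k) (1 + ((j : ℝ) + 1) / 2 ^ k)).indicator (fun _ => c k j) l ∂μ :=
        setLIntegral_mono' measurableSet_Icc key
    _ = ∑' k : ℕ, ∫⁻ l in Icc (1 : ℝ) 2, ∑ j ∈ Finset.range (2 ^ k),
        (Icc (1 + (j : ℝ) / 2 ^ k) (1 + ((j : ℝ) + 1) / 2 ^ k)).indicator (fun _ => c k j) l ∂μ :=
        lintegral_tsum fun k => (Finset.measurable_fun_sum _ fun j _ => hms k j).aemeasurable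
    _ = ∑' k : ℕ, ∑ j ∈ Finset.range (2 ^ k), c k j *
        μ.restrict (Icc 1 2) (Icc (1 + (j : ℝ) / 2 ^ k) (1 + ((j : ℝ) + 1) / 2 ^ k)) := by
        congr 1
        funext k
        rw [lintegral_finsetSum _ fun j _ => hms k j]
        refine Finset.sum_congr rfl fun j _ => ?_
        rw [lintegral_indicator_const measurableSet_Icc]
    _ ≤ ∑' k : ℕ, ∑ j ∈ Finset.range (2 ^ k), c k j *
        ENNReal.ofReal (K * ((2 ^ k : ℝ)⁻¹) ^ α) :=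
        ENNReal.tsum_le_tsum fun k => Finset.sum_le_sum fun j _ => mul_le_mul_right (hmu k j) _
    _ = ∑' k : ℕ, (∑ j ∈ Finset.range (2 ^ k), c k j) *
        ENNReal.ofReal (K * ((2 ^ k : ℝ)⁻¹) ^ α) := by
        congr 1
        funext k
        rw [Finset.sum_mul]
    _ ≤ ∑' k : ℕ, ENNReal.ofReal (C * (2 : ℝ) ^ (k * β)) * Z *
        ENNReal.ofReal (K * ((2 ^ k : ℝ)⁻¹) ^ α) :=
        ENNReal.tsum_le_tsum fun k => mul_le_mul_left (h1 k) _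
    _ = ∑' k : ℕ, ENNReal.ofReal (C * K * ρ ^ k) * Z := by
        congr 1
        funext k
        exact hterm k
    _ = ENNReal.ofReal (C * K / (1 - ρ)) * Z := by
        rw [ENNReal.tsum_mul_right, ← ENNReal.ofReal_tsum_of_nonneg
          (fun k => mul_nonneg (mul_nonneg hC hK) (pow_nonneg hρ0.le k))
          ((summable_geometric_of_lt_one hρ0.le hρ1).mul_left _), tsum_mul_left,
          tsum_geometric_of_lt_one hρ0.le hρ1, div_eq_mul_inv]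
    _ ≤ ENNReal.ofReal (C * K / (1 - ρ) + 1) * Z :=
        mul_le_mul_left (ENNReal.ofReal_le_ofReal (by linarith)) _

end Pool.Agent.J4.H87.AD
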