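import Pool.Agent.J4.H87.AD.Defs
import Pool.Agent.H438R2.RZ.M1

/-! Project AD: the `L^q` inequality by interpolation. -/

set_option autoImplicit false

namespace Pool.Agent.J4.H87.AD

open MeasureTheory Complex Set Filter Topology
open scoped ENNReal NNReal RealInnerProductSpace ComplexConjugate
open Pool.Agent.J4.H73.EX (E en Ga en_bdd)

namespace LQ

theorem Y_add (g₁ g₂ : E 2 → ℂ) (h₁ : Integrable g₁) (h₂ : Integrable g₂) (t s : ℝ) (y : E 2) :
    Y (fun x => g₁ x + g₂ x) t s y = Y g₁ t s y + Y g₂ t s y := by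
  unfold Y
  rw [← integral_add (en_bdd (by fun_prop) h₁) (en_bdd (by fun_prop) h₂)]
  refine integral_congr_ae (Eventually.of_forall fun x => ?_)
  simp only
  ring

theorem Go_ind {h : E 2 → ℂ} (hg : Go h) (S : Set (E 2)) (hS : MeasurableSet S) :
    Go (S.indicator h) := by
  obtain ⟨hm, hi, hs⟩ := hg
  refine ⟨hm.indicator hS, hi.indicator hS, fun x hx => ?_⟩
  by_cases hxS : x ∈ S
  · rw [indicator_of_mem hxS]; exact hs x hx
  · rw [indicator_of_notMem hxS]

theorem pow_ind (S : Set (E 2)) (h : E 2 → ℂ) (n : ℕ) (hn : n ≠ 0) (hS : MeasurableSet S) :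
    ∫⁻ x, ‖S.indicator h x‖ₑ ^ n = ∫⁻ x in S, ENNReal.ofReal ‖h x‖ ^ n := by
  rw [← lintegral_indicator hS]
  refine lintegral_congr fun x => ?_
  by_cases hx : x ∈ S
  · rw [indicator_of_mem hx, indicator_of_mem hx, ofReal_norm]
  · rw [indicator_of_notMem hx, indicator_of_notMem hx, enorm_zero, zero_pow hn]

theorem lint3 (μ : Measure ℝ) [SFinite μ] (F : (ℝ × ℝ) × E 2 → ℝ≥0∞) (hF : Measurable F) :
    ∫⁻ z, F z ∂((μ.prod μ).prod volume) =
      ∫⁻ t, ∫⁻ s, (∫⁻ y : E 2, F ((t, s), y)) ∂μ ∂μ := by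
  rw [lintegral_prod _ hF.aemeasurable, lintegral_prod _ (hF.lintegral_prod_right').aemeasurable]

end LQ

open LQ in
theorem t_LQ (hL2 : S_L2) (hM : S_MEAS) (hL4 : S_L4) : S_LQ := by
  intro q hq hq4 ε hε
  obtain ⟨C0, hC0, H⟩ := H438R2.RZ.marc24 q hq hq4
  have hpi := Real.pi_pos
  have hq2 : 0 < q - 2 := by linarith
  obtain ⟨κ, hκ0, hκ1, hκε⟩ : ∃ κ : ℝ, 0 < κ ∧ κ < 1 ∧ κ * (q - 2) ≤ ε := by
    refine ⟨min (ε / (q - 2)) (1 / 2), lt_min (by positivity) (by norm_num),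
      (min_le_right _ _).trans_lt (by norm_num), ?_⟩
    calc min (ε / (q - 2)) (1 / 2) * (q - 2) ≤ ε / (q - 2) * (q - 2) := by
          gcongr
          exact min_le_left _ _
      _ = ε := by field_simp
  obtain ⟨C4, hC4, h4⟩ := hL4 κ hκ0 hκ1
  refine ⟨C0 * ((2 * Real.pi) ^ 2 * 4) ^ ((4 - q) / 2) * C4 ^ ((q - 2) / 2), by positivity, ?_⟩
  intro T hT g hg
  have hT0 : 0 < T := by linarith
  have hXm : ∀ k : E 2 → ℂ, Go k → Measurable fun z : (ℝ × ℝ) × E 2 => Y k z.1.1 z.1.2 z.2 :=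
    fun k hk => hM k hk.2.1.aestronglyMeasurable
  have hm := hg.1
  have key := H (X := E 2) (Y := (ℝ × ℝ) × E 2) volume
    (((volume.restrict (Icc (-T) T)).prod (volume.restrict (Icc (-T) T))).prod volume)
    (fun z => ‖Y g z.1.1 z.1.2 z.2‖) (fun x => ‖g x‖) (hXm g hg).norm hm.norm
    (fun z => norm_nonneg _) (fun x => norm_nonneg _) ((2 * Real.pi) ^ 2 * (2 * T) ^ 2)
    (C4 * T ^ (2 * κ)) (by positivity) (by positivity) (by
      intro t ht
      have hS1 : MeasurableSet {x : E 2 | t < ‖g x‖} := measurableSet_lt measurable_const hm.norm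
      have hS2 : MeasurableSet {x : E 2 | ‖g x‖ ≤ t} := measurableSet_le hm.norm measurable_const
      set h1 : E 2 → ℂ := {x : E 2 | t < ‖g x‖}.indicator g with hh1
      set h2 : E 2 → ℂ := {x : E 2 | ‖g x‖ ≤ t}.indicator g with hh2
      have g1 : Go h1 := Go_ind hg _ hS1
      have g2 : Go h2 := Go_ind hg _ hS2
      refine ⟨fun z => ‖Y h1 z.1.1 z.1.2 z.2‖ₑ, fun z => ‖Y h2 z.1.1 z.1.2 z.2‖ₑ,
        (hXm h1 g1).enorm, (hXm h2 g2).enorm, ?_, ?_, ?_⟩
      · refine Eventually.of_forall fun z => ?_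
        have e1 : g = fun x => h1 x + h2 x := by
          ext x
          rw [hh1, hh2]
          by_cases hx : t < ‖g x‖
          · rw [indicator_of_mem (show x ∈ {x : E 2 | t < ‖g x‖} from hx),
              indicator_of_notMem (show x ∉ {x : E 2 | ‖g x‖ ≤ t} from fun h' => not_le.2 hx h'),
              add_zero]
          · rw [indicator_of_notMem (show x ∉ {x : E 2 | t < ‖g x‖} from hx),
              indicator_of_mem (show x ∈ {x : E 2 | ‖g x‖ ≤ t} from not_lt.1 hx), zero_add]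
        have e2 : Y g z.1.1 z.1.2 z.2 = Y h1 z.1.1 z.1.2 z.2 + Y h2 z.1.1 z.1.2 z.2 := by
          conv_lhs => rw [e1]
          exact Y_add _ _ g1.2.1 g2.2.1 _ _ _
        rw [ofReal_norm, e2]
        exact enorm_add_le _ _
      · rw [lint3 _ _ ((hXm h1 g1).enorm.pow_const 2)]
        calc ∫⁻ t in Icc (-T) T, ∫⁻ s in Icc (-T) T, ∫⁻ y, ‖Y h1 t s y‖ₑ ^ 2
            ≤ ∫⁻ t in Icc (-T) T, ∫⁻ s in Icc (-T) T,
                ENNReal.ofReal ((2 * Real.pi) ^ 2) * ∫⁻ x, ‖h1 x‖ₑ ^ 2 := by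
              refine lintegral_mono fun t => lintegral_mono fun s => ?_
              exact hL2 _ g1.2.1 t s
          _ = ENNReal.ofReal ((2 * Real.pi) ^ 2) * (∫⁻ x, ‖h1 x‖ₑ ^ 2) *
                (ENNReal.ofReal (2 * T)) ^ 2 := by
              rw [setLIntegral_const, setLIntegral_const, Real.volume_Icc]
              rw [show T - -T = 2 * T by ring]
              ring
          _ = ENNReal.ofReal ((2 * Real.pi) ^ 2 * (2 * T) ^ 2) *
                ∫⁻ x in {x | t < ‖g x‖}, ENNReal.ofReal ‖g x‖ ^ 2 := by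
              rw [hh1, pow_ind _ g 2 (by norm_num) hS1,
                ENNReal.ofReal_mul (p := (2 * Real.pi) ^ 2) (by positivity),
                ENNReal.ofReal_pow (p := 2 * T) (by positivity)]
              ring
      · rw [lint3 _ _ ((hXm h2 g2).enorm.pow_const 4), ← pow_ind _ g 4 (by norm_num) hS2]
        exact h4 T hT h2 g2)
  simp only [ofReal_norm] at key
  rw [lint3 _ _ ((hXm g hg).enorm.pow_const q)] at key
  refine key.trans (mul_le_mul' (ENNReal.ofReal_le_ofReal ?_) le_rfl)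
  rw [Real.mul_rpow (x := C4) (by positivity) (by positivity)]
  have e1 : ((2 * Real.pi) ^ 2 * (2 * T) ^ 2) ^ ((4 - q) / 2) =
      ((2 * Real.pi) ^ 2 * 4) ^ ((4 - q) / 2) * T ^ (4 - q) := by
    rw [show (2 * Real.pi) ^ 2 * (2 * T) ^ 2 = ((2 * Real.pi) ^ 2 * 4) * T ^ 2 by ring,
      Real.mul_rpow (by positivity) (by positivity), ← Real.rpow_natCast T 2, ← Real.rpow_mul hT0.le]
    congr 2
    push_cast
    ring
  have e2 : (T ^ (2 * κ)) ^ ((q - 2) / 2) = T ^ (κ * (q - 2)) := by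
    rw [← Real.rpow_mul hT0.le]
    congr 1
    ring
  rw [e1, e2]
  calc C0 * (((2 * Real.pi) ^ 2 * 4) ^ ((4 - q) / 2) * T ^ (4 - q)) *
        (C4 ^ ((q - 2) / 2) * T ^ (κ * (q - 2)))
      = C0 * ((2 * Real.pi) ^ 2 * 4) ^ ((4 - q) / 2) * C4 ^ ((q - 2) / 2) *
        (T ^ (4 - q) * T ^ (κ * (q - 2))) := by ring
    _ = C0 * ((2 * Real.pi) ^ 2 * 4) ^ ((4 - q) / 2) * C4 ^ ((q - 2) / 2) *
        T ^ (4 - q + κ * (q - 2)) := by rw [Real.rpow_add hT0]
    _ ≤ _ := by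
        gcongr

end Pool.Agent.J4.H87.AD
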