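import Pool.Agent.J4.H87.AD.Gen1
import Pool.Agent.J4.H87.AD.T_LQ
import Pool.Agent.J4.H87.AD.T_FRO

/-!
# Project AD: one shell of times and a general measure on the parameters
-/

set_option autoImplicit false

namespace Pool.Agent.J4.H87.AD

open MeasureTheory Complex Set Filter Topology
open scoped ENNReal NNReal RealInnerProductSpace ComplexConjugate
open Pool.Agent.J4.H73.EX (E en Ga en_bdd)
open COV (shell_meas)

theorem time_meas : Measurable fun z : (ℝ × ℝ) × E 2 => ((z.1.2, z.1.2 / z.1.1 ^ 2), z.2) := by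
  have h2 : Measurable fun z : (ℝ × ℝ) × E 2 => z.1.2 := measurable_fst.snd
  have h3 : Measurable fun z : (ℝ × ℝ) × E 2 => z.1.1 ^ 2 := (measurable_fst.fst).pow_const 2
  exact (h2.prodMk (h2.div h3)).prodMk measurable_snd

theorem Y_meas3 (hM : S_MEAS) (g : E 2 → ℂ) (hg : Go g) :
    Measurable fun z : (ℝ × ℝ) × E 2 => Y g z.1.2 (z.1.2 / z.1.1 ^ 2) z.2 := by
  have h0 := hM g hg.2.1.aestronglyMeasurable
  generalize hY : (fun p : (ℝ × ℝ) × E 2 => Y g p.1.1 p.1.2 p.2) = F at h0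
  have h1 : (fun z : (ℝ × ℝ) × E 2 => Y g z.1.2 (z.1.2 / z.1.1 ^ 2) z.2) =
      fun z => F ((z.1.2, z.1.2 / z.1.1 ^ 2), z.2) := by
    rw [← hY]
  rw [h1]
  exact h0.comp time_meas

theorem t_AM (hM : S_MEAS) : S_AM := by
  intro g q k hg
  unfold A
  have h1 := (Y_meas3 hM g hg).enorm.pow_const q
  have h2 : Measurable fun p : ℝ × ℝ => ∫⁻ y : E 2, ‖Y g p.2 (p.2 / p.1 ^ 2) y‖ₑ ^ q :=
    h1.lintegral_prod_right'
  exact h2.lintegral_prod_right'

theorem shell_vol (k : ℕ) : volume (shell k) ≤ ENNReal.ofReal (2 * 2 ^ k) := by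
  have h1 : shell k ⊆ Icc (-(2 : ℝ) ^ k) (2 ^ k) := fun t ht => by
    have := COV.shell_abs ht
    rw [abs_le] at this
    exact this
  refine (measure_mono h1).trans ?_
  rw [Real.volume_Icc]
  apply ENNReal.ofReal_le_ofReal
  linarith

theorem lint3' (μ ν : Measure ℝ) [SFinite μ] [SFinite ν] (F : (ℝ × ℝ) × E 2 → ℝ≥0∞)
    (hF : Measurable F) : ∫⁻ z, F z ∂((μ.prod ν).prod volume) =
      ∫⁻ t, (∫⁻ s, (∫⁻ y : E 2, F ((t, s), y)) ∂ν) ∂μ := by
  rw [lintegral_prod _ hF.aemeasurable, lintegral_prod _ (hF.lintegral_prod_right').aemeasurable]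

/-- the `L⁴` part -/
theorem four (hC4 : P_COV 4) (ε : ℝ) (hε : 0 < ε) : ∃ C : ℝ, 0 < C ∧ ∀ g, Go g →
    ∀ (k : ℕ) (μ : Measure ℝ) (r : ℝ), 0 < r →
      (∀ j : ℕ, j < 2 ^ k →
        μ (Icc (1 + (j : ℝ) / 2 ^ k) (1 + ((j : ℝ) + 1) / 2 ^ k)) ≤ ENNReal.ofReal r) →
      ∫⁻ l in Icc (1 : ℝ) 2, A g 4 k l ∂μ ≤
        ENNReal.ofReal (C * (r * (2 : ℝ) ^ (k * ε))) * ∫⁻ x, ‖g x‖ₑ ^ (4 : ℝ) := by
  obtain ⟨C, hC, H⟩ := hC4 ε hε
  refine ⟨C, hC, fun g hg k μ r hr hμ => ?_⟩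
  obtain ⟨c, hc1, hc2⟩ := H g hg
  set J : ℕ → Set ℝ := fun j => Icc (1 + (j : ℝ) / 2 ^ k) (1 + ((j : ℝ) + 1) / 2 ^ k) with hJ
  calc ∫⁻ l in Icc (1 : ℝ) 2, A g 4 k l ∂μ
      ≤ ∫⁻ l in Icc (1 : ℝ) 2, ∑ j ∈ Finset.range (2 ^ k), (J j).indicator (fun _ => c k j) l ∂μ := by
        refine setLIntegral_mono' measurableSet_Icc fun l hl => ?_
        obtain ⟨j, hj', hjl⟩ := FRO.cover k hl
        have hj := Finset.mem_range.1 hj'
        refine (hc2 k j hj l hjl).trans ?_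
        refine le_trans ?_ (Finset.single_le_sum
          (f := fun j => (J j).indicator (fun _ => c k j) l) (fun i _ => zero_le)
          (Finset.mem_range.2 hj))
        rw [indicator_of_mem (show l ∈ J j from hjl)]
    _ ≤ ∫⁻ l, ∑ j ∈ Finset.range (2 ^ k), (J j).indicator (fun _ => c k j) l ∂μ :=
        setLIntegral_le_lintegral _ _
    _ = ∑ j ∈ Finset.range (2 ^ k), c k j * μ (J j) := by
        rw [lintegral_finsetSum _ fun j _ => measurable_const.indicator measurableSet_Icc]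
        refine Finset.sum_congr rfl fun j _ => ?_
        rw [lintegral_indicator_const measurableSet_Icc]
    _ ≤ ∑ j ∈ Finset.range (2 ^ k), c k j * ENNReal.ofReal r := by
        refine Finset.sum_le_sum fun j hj => ?_
        exact mul_le_mul_right (hμ j (Finset.mem_range.1 hj)) _
    _ = (∑ j ∈ Finset.range (2 ^ k), c k j) * ENNReal.ofReal r := by rw [Finset.sum_mul]
    _ ≤ ENNReal.ofReal (C * (2 : ℝ) ^ (k * (4 - 4 + ε))) * (∫⁻ x, ‖g x‖ₑ ^ (4 : ℝ)) *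
        ENNReal.ofReal r := mul_le_mul_left (hc1 k) _
    _ = _ := by
        rw [sub_self, zero_add, mul_right_comm, ← ENNReal.ofReal_mul (by positivity)]
        congr 2
        ring

open LQ in
theorem t_GEN (hL2 : S_L2) (hM : S_MEAS) (hC4 : P_COV 4) : S_GEN := by
  intro q hq hq4 ε hε
  obtain ⟨C0, hC0, H⟩ := H438R2.RZ.marc24 q hq hq4
  have hpi := Real.pi_pos
  obtain ⟨C4, hC4p, h4⟩ := four hC4 ε hε
  refine ⟨C0 * ((2 * Real.pi) ^ 2 * 2) ^ ((4 - q) / 2) * C4 ^ ((q - 2) / 2), by positivity, ?_⟩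
  intro g hg k μ m r hm0 hr0 hμm hμr
  have hfin : IsFiniteMeasure (μ.restrict (Icc (1 : ℝ) 2)) :=
    ⟨by rw [Measure.restrict_apply_univ]; exact hμm.trans_lt ENNReal.ofReal_lt_top⟩
  have hXm : ∀ h : E 2 → ℂ, Go h → Measurable fun z : (ℝ × ℝ) × E 2 =>
      Y h z.1.2 (z.1.2 / z.1.1 ^ 2) z.2 := fun h hh => Y_meas3 hM h hh
  have hm := hg.1
  have key := H (X := E 2) (Y := (ℝ × ℝ) × E 2) volume
    (((μ.restrict (Icc (1 : ℝ) 2)).prod (volume.restrict (shell k))).prod volume)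
    (fun z => ‖Y g z.1.2 (z.1.2 / z.1.1 ^ 2) z.2‖) (fun x => ‖g x‖) (hXm g hg).norm hm.norm
    (fun z => norm_nonneg _) (fun x => norm_nonneg _) ((2 * Real.pi) ^ 2 * (2 * 2 ^ k) * m)
    (C4 * (r * (2 : ℝ) ^ (k * ε))) (by positivity) (by positivity) (by
      intro t ht
      have hS1 : MeasurableSet {x : E 2 | t < ‖g x‖} := measurableSet_lt measurable_const hm.norm
      have hS2 : MeasurableSet {x : E 2 | ‖g x‖ ≤ t} := measurableSet_le hm.norm measurable_const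
      set h1 : E 2 → ℂ := {x : E 2 | t < ‖g x‖}.indicator g with hh1
      set h2 : E 2 → ℂ := {x : E 2 | ‖g x‖ ≤ t}.indicator g with hh2
      have g1 : Go h1 := Go_ind hg _ hS1
      have g2 : Go h2 := Go_ind hg _ hS2
      refine ⟨fun z => ‖Y h1 z.1.2 (z.1.2 / z.1.1 ^ 2) z.2‖ₑ,
        fun z => ‖Y h2 z.1.2 (z.1.2 / z.1.1 ^ 2) z.2‖ₑ,
        (hXm h1 g1).enorm, (hXm h2 g2).enorm, ?_, ?_, ?_⟩
      · refine Eventually.of_forall fun z => ?_
        have e1 : g = fun x => h1 x + h2 x := by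
          ext x
          rw [hh1, hh2]
          by_cases hx : t < ‖g x‖
          · rw [indicator_of_mem (show x ∈ {x : E 2 | t < ‖g x‖} from hx),
              indicator_of_notMem (show x ∉ {x : E 2 | ‖g x‖ ≤ t} from fun h' => not_le.2 hx h'),
              add_zero]
          · rw [indicator_of_notMem (show x ∉ {x : E 2 | t < ‖g x‖} from hx),
              indicator_of_mem (show x ∈ {x : E 2 | ‖g x‖ ≤ t} from not_lt.1 hx), zero_add]
        have e2 : Y g z.1.2 (z.1.2 / z.1.1 ^ 2) z.2 = Y h1 z.1.2 (z.1.2 / z.1.1 ^ 2) z.2 +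
            Y h2 z.1.2 (z.1.2 / z.1.1 ^ 2) z.2 := by
          conv_lhs => rw [e1]
          exact Y_add _ _ g1.2.1 g2.2.1 _ _ _
        rw [ofReal_norm, e2]
        exact enorm_add_le _ _
      · rw [lint3' _ _ _ ((hXm h1 g1).enorm.pow_const 2)]
        calc ∫⁻ l in Icc (1 : ℝ) 2, (∫⁻ t in shell k, ∫⁻ y, ‖Y h1 t (t / l ^ 2) y‖ₑ ^ 2) ∂μ
            ≤ ∫⁻ l in Icc (1 : ℝ) 2, (∫⁻ t in shell k,
                ENNReal.ofReal ((2 * Real.pi) ^ 2) * ∫⁻ x, ‖h1 x‖ₑ ^ 2) ∂μ := by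
              refine lintegral_mono fun l => lintegral_mono fun s => ?_
              exact hL2 _ g1.2.1 s _
          _ = ENNReal.ofReal ((2 * Real.pi) ^ 2) * (∫⁻ x, ‖h1 x‖ₑ ^ 2) *
                (volume (shell k) * μ (Icc (1 : ℝ) 2)) := by
              rw [setLIntegral_const, setLIntegral_const]
              ring
          _ ≤ ENNReal.ofReal ((2 * Real.pi) ^ 2) * (∫⁻ x, ‖h1 x‖ₑ ^ 2) *
                (ENNReal.ofReal (2 * 2 ^ k) * ENNReal.ofReal m) :=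
              mul_le_mul_right (mul_le_mul' (shell_vol k) hμm) _
          _ = ENNReal.ofReal ((2 * Real.pi) ^ 2 * (2 * 2 ^ k) * m) *
                ∫⁻ x in {x | t < ‖g x‖}, ENNReal.ofReal ‖g x‖ ^ 2 := by
              rw [hh1, pow_ind _ g 2 (by norm_num) hS1,
                ENNReal.ofReal_mul (p := (2 * Real.pi) ^ 2 * (2 * 2 ^ k)) (by positivity),
                ENNReal.ofReal_mul (p := (2 * Real.pi) ^ 2) (by positivity)]
              ring
      · rw [lint3' _ _ _ ((hXm h2 g2).enorm.pow_const 4), ← pow_ind _ g 4 (by norm_num) hS2]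
        have h5 := h4 h2 g2 k μ r hr0 hμr
        have e4 : ∀ z : ℂ, ‖z‖ₑ ^ (4 : ℝ) = ‖z‖ₑ ^ 4 := fun z => by
          rw [show (4 : ℝ) = ((4 : ℕ) : ℝ) by norm_num, ENNReal.rpow_natCast]
        unfold A at h5
        simp_rw [e4] at h5
        exact h5)
  simp only [ofReal_norm] at key
  rw [lint3' _ _ _ ((hXm g hg).enorm.pow_const q)] at key
  refine key.trans (le_of_eq ?_)
  congr 2
  rw [show (2 * Real.pi) ^ 2 * (2 * 2 ^ k) * m = ((2 * Real.pi) ^ 2 * 2) * (m * 2 ^ k) by ring,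
    Real.mul_rpow (by positivity) (by positivity), Real.mul_rpow (x := C4) (by positivity)
      (by positivity)]
  ring

end Pool.Agent.J4.H87.AD
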