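import Pool.Agent.J4.H87.AD.Defs

/-! # Project AD, piece COV: coverings by intervals of dilations -/

set_option autoImplicit false

namespace Pool.Agent.J4.H87.AD

open MeasureTheory Complex Set Filter Topology
open scoped ENNReal NNReal RealInnerProductSpace ComplexConjugate
open Pool.Agent.J4.H73.EX (E en Ga)

namespace COV

theorem sum_lintegral_le {α ι : Type*} [MeasurableSpace α] (μ : Measure α) (s : Finset ι)
    (f : ι → α → ℝ≥0∞) : ∑ j ∈ s, ∫⁻ x, f j x ∂μ ≤ ∫⁻ x, ∑ j ∈ s, f j x ∂μ := by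
  classical
  induction s using Finset.induction_on with
  | empty => simp
  | insert a s ha ih =>
    rw [Finset.sum_insert ha]
    simp_rw [Finset.sum_insert ha]
    exact (add_le_add le_rfl ih).trans (le_lintegral_add _ _)

theorem shell_abs {k : ℕ} {t : ℝ} (h : t ∈ shell k) : |t| ≤ 2 ^ k := by
  cases k with
  | zero => simpa [shell] using h
  | succ k => exact h.2

theorem shell_meas (k : ℕ) : MeasurableSet (shell k) := by
  cases k with
  | zero =>
    exact measurableSet_le (continuous_abs (G := ℝ)).measurable measurable_const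
  | succ k =>
    exact (measurableSet_lt measurable_const (continuous_abs (G := ℝ)).measurable).inter
      (measurableSet_le (continuous_abs (G := ℝ)).measurable measurable_const)

/-- the left ends of the intervals -/
noncomputable def aa (k j : ℕ) : ℝ := 1 + (j : ℝ) / 2 ^ k

theorem aa_one (k j : ℕ) : 1 ≤ aa k j := by
  unfold aa
  have : (0 : ℝ) ≤ (j : ℝ) / 2 ^ k := by positivity
  linarith

theorem aa_two {k j : ℕ} (h : j < 2 ^ k) : aa k j ≤ 2 := by
  unfold aa
  have h1 : (j : ℝ) ≤ 2 ^ k := by exact_mod_cast h.le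
  have h2 : (j : ℝ) / 2 ^ k ≤ 1 := by
    rw [div_le_one (by positivity)]
    exact h1
  linarith

theorem close {a b t s : ℝ} (hb1 : 1 ≤ b) (hab : b ≤ a) (ha2 : a ≤ 2)
    (h1 : s ∈ Icc (t / a ^ 2) (t / a ^ 2 + 1)) (h2 : s ∈ Icc (t / b ^ 2) (t / b ^ 2 + 1)) :
    |t| * (a - b) ≤ 4 := by
  have ha1 : 1 ≤ a := hb1.trans hab
  have hb2 : b ≤ 2 := hab.trans ha2
  have ha0 : 0 < a := by linarith
  have hb0 : 0 < b := by linarith
  have h3 : |t / b ^ 2 - t / a ^ 2| ≤ 1 := by
    rw [abs_le]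
    constructor <;> linarith [h1.1, h1.2, h2.1, h2.2]
  have h4 : t / b ^ 2 - t / a ^ 2 = t * ((a - b) * (a + b)) / (a ^ 2 * b ^ 2) := by
    field_simp
    ring
  have h5 : 0 ≤ (a - b) * (a + b) := mul_nonneg (by linarith) (by linarith)
  have h6 : (0 : ℝ) < a ^ 2 * b ^ 2 := by positivity
  rw [h4, abs_div, abs_mul, abs_of_nonneg h5, abs_of_pos h6, div_le_one h6] at h3
  have h7 : a ^ 2 * b ^ 2 ≤ 4 * (a + b) := by
    have e1 : a ^ 2 ≤ 2 * a := by nlinarith
    have e2 : b ^ 2 ≤ 2 * b := by nlinarith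
    have e3 : a ^ 2 * b ^ 2 ≤ (2 * a) * (2 * b) :=
      mul_le_mul e1 e2 (by positivity) (by positivity)
    nlinarith [mul_nonneg ha0.le (sub_nonneg.mpr hb2), mul_nonneg hb0.le (sub_nonneg.mpr ha2)]
  have h8 : |t| * (a - b) * (a + b) ≤ 4 * (a + b) := by
    calc |t| * (a - b) * (a + b) = |t| * ((a - b) * (a + b)) := by ring
      _ ≤ a ^ 2 * b ^ 2 := h3
      _ ≤ 4 * (a + b) := h7
  exact le_of_mul_le_mul_right h8 (by linarith)

theorem count (k : ℕ) (t s : ℝ) (ht : t ∈ shell k) :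
    ((Finset.range (2 ^ k)).filter fun j =>
      s ∈ Icc (t / aa k j ^ 2) (t / aa k j ^ 2 + 1)).card ≤ 9 := by
  classical
  set A := (Finset.range (2 ^ k)).filter fun j =>
      s ∈ Icc (t / aa k j ^ 2) (t / aa k j ^ 2 + 1) with hA
  rcases A.eq_empty_or_nonempty with h0 | hne
  · rw [h0]
    simp
  · have hsub : A ⊆ Finset.Icc (A.min' hne) (A.min' hne + 8) := by
      intro j hj
      rw [Finset.mem_Icc]
      refine ⟨A.min'_le j hj, ?_⟩
      have hm := A.min'_mem hne
      set m := A.min' hne with hmdef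
      have hmj : m ≤ j := A.min'_le j hj
      rw [hA, Finset.mem_filter, Finset.mem_range] at hj hm
      cases k with
      | zero =>
        have : j < 1 := by simpa using hj.1
        omega
      | succ k =>
        have hab : aa (k + 1) m ≤ aa (k + 1) j := by
          unfold aa
          have : (m : ℝ) ≤ j := by exact_mod_cast hmj
          gcongr
        have h1 := close (aa_one (k + 1) m) hab (aa_two hj.1) hj.2 hm.2
        have h2 : aa (k + 1) j - aa (k + 1) m = ((j : ℝ) - m) / 2 ^ (k + 1) := by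
          unfold aa
          ring
        have h3 : (2 : ℝ) ^ k < |t| := ht.1
        have h4 : (0 : ℝ) < 2 ^ k := by positivity
        have h5 : (0 : ℝ) ≤ (j : ℝ) - m := by
          have : (m : ℝ) ≤ j := by exact_mod_cast hmj
          linarith
        rw [h2] at h1
        have h6 : (2 : ℝ) ^ k * (((j : ℝ) - m) / 2 ^ (k + 1)) ≤ 4 :=
          (mul_le_mul_of_nonneg_right h3.le (by positivity)).trans h1
        have h7 : (2 : ℝ) ^ k * (((j : ℝ) - m) / 2 ^ (k + 1)) = ((j : ℝ) - m) / 2 := by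
          rw [pow_succ]
          field_simp
        rw [h7] at h6
        have h8 : (j : ℝ) ≤ ((m + 8 : ℕ) : ℝ) := by
          push_cast
          linarith
        exact_mod_cast h8
    refine (Finset.card_le_card hsub).trans ?_
    rw [Nat.card_Icc]
    omega

theorem near {k j : ℕ} {t l s : ℝ} (ht : |t| ≤ 2 ^ k)
    (hl : l ∈ Icc (1 + (j : ℝ) / 2 ^ k) (1 + ((j : ℝ) + 1) / 2 ^ k))
    (hs : s ∈ Icc (t / aa k j ^ 2) (t / aa k j ^ 2 + 1)) : |t / l ^ 2 - s| ≤ 3 := by
  have ha1 := aa_one k j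
  set a := aa k j with ha
  have hal : a ≤ l := hl.1
  have hl1 : 1 ≤ l := ha1.trans hal
  have hla : l - a ≤ 1 / 2 ^ k := by
    have h1 := hl.2
    have h2 : a = 1 + (j : ℝ) / 2 ^ k := ha
    rw [h2]
    have h3 : (1 : ℝ) + ((j : ℝ) + 1) / 2 ^ k = 1 + (j : ℝ) / 2 ^ k + 1 / 2 ^ k := by ring
    linarith
  have h4 : t / a ^ 2 - t / l ^ 2 = t * ((l - a) * (l + a)) / (l ^ 2 * a ^ 2) := by
    field_simp
    ring
  have h5 : 0 ≤ (l - a) * (l + a) := mul_nonneg (by linarith) (by linarith)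
  have h6 : (0 : ℝ) < l ^ 2 * a ^ 2 := by positivity
  have h7 : |t / a ^ 2 - t / l ^ 2| ≤ 2 := by
    rw [h4, abs_div, abs_mul, abs_of_nonneg h5, abs_of_pos h6, div_le_iff₀ h6]
    have e1 : |t| * (l - a) ≤ 1 := by
      calc |t| * (l - a) ≤ 2 ^ k * (1 / 2 ^ k) :=
            mul_le_mul ht hla (by linarith) (by positivity)
        _ = 1 := by field_simp
    have e2 : l + a ≤ 2 * l := by linarith
    have e3 : 2 * l ≤ 2 * (l ^ 2 * a ^ 2) := by
      have e4 : (1 : ℝ) ≤ a ^ 2 := by nlinarith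
      have e5 : l ≤ l ^ 2 := by nlinarith
      nlinarith [mul_nonneg (sq_nonneg l) (sub_nonneg.mpr e4)]
    calc |t| * ((l - a) * (l + a)) = (|t| * (l - a)) * (l + a) := by ring
      _ ≤ 1 * (l + a) := mul_le_mul_of_nonneg_right e1 (by linarith)
      _ ≤ 2 * (l ^ 2 * a ^ 2) := by linarith
  rw [abs_le] at h7 ⊢
  constructor <;> linarith [hs.1, hs.2, h7.1, h7.2]

end COV

open COV

theorem t_COV (h : S_SUP) : S_COV := by
  classical
  intro q hq2 hq4 ε hε
  obtain ⟨C, hC, hM⟩ := h q hq2 hq4 ε hε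
  refine ⟨9 * (C * 2 ^ (4 - q + ε)), by positivity, ?_⟩
  intro g hg
  obtain ⟨M, -, hMY, hMI⟩ := hM g hg
  refine ⟨fun k j => ∫⁻ t in shell k, ∫⁻ s in Icc (t / aa k j ^ 2) (t / aa k j ^ 2 + 1),
    ∫⁻ y, M t s y, ?_, ?_⟩
  · intro k
    set T : ℝ := 2 ^ (k + 1) with hT
    have hT1 : 1 ≤ T := one_le_pow₀ one_le_two
    have hkT : (2 : ℝ) ^ k + 1 ≤ T := by
      have : (1 : ℝ) ≤ 2 ^ k := one_le_pow₀ one_le_two
      rw [hT, pow_succ]
      linarith
    have hstep : ∀ t ∈ shell k,
        ∑ j ∈ Finset.range (2 ^ k), ∫⁻ s in Icc (t / aa k j ^ 2) (t / aa k j ^ 2 + 1),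
          ∫⁻ y, M t s y ≤ 9 * ∫⁻ s in Icc (-T) T, ∫⁻ y, M t s y := by
      intro t ht
      simp_rw [← lintegral_indicator measurableSet_Icc]
      refine (sum_lintegral_le _ _ _).trans ?_
      rw [← lintegral_const_mul' _ _ (by norm_num)]
      refine lintegral_mono fun s => ?_
      have e1 : ∀ j, (Icc (t / aa k j ^ 2) (t / aa k j ^ 2 + 1)).indicator
          (fun s => ∫⁻ y, M t s y) s =
          if s ∈ Icc (t / aa k j ^ 2) (t / aa k j ^ 2 + 1) then ∫⁻ y, M t s y else 0 := by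
        intro j
        rw [indicator_apply]
      simp_rw [e1]
      rw [← Finset.sum_filter, Finset.sum_const, nsmul_eq_mul]
      by_cases hs : s ∈ Icc (-T) T
      · rw [indicator_of_mem hs]
        refine mul_le_mul_left ?_ _
        exact_mod_cast count k t s ht
      · have h0 : ((Finset.range (2 ^ k)).filter fun j =>
            s ∈ Icc (t / aa k j ^ 2) (t / aa k j ^ 2 + 1)) = ∅ := by
          rw [Finset.filter_eq_empty_iff]
          intro j _ hj
          apply hs
          have h2 := shell_abs ht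
          have h3 : |t / aa k j ^ 2| ≤ 2 ^ k := by
            rw [abs_div, abs_of_pos (by have := aa_one k j; positivity : (0 : ℝ) < aa k j ^ 2)]
            refine (div_le_self (abs_nonneg _) ?_).trans h2
            exact one_le_pow₀ (aa_one k j)
          rw [abs_le] at h3
          constructor <;> linarith [hj.1, hj.2, h3.1, h3.2]
        rw [h0]
        simp
    calc ∑ j ∈ Finset.range (2 ^ k), ∫⁻ t in shell k,
          ∫⁻ s in Icc (t / aa k j ^ 2) (t / aa k j ^ 2 + 1), ∫⁻ y, M t s y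
        ≤ ∫⁻ t in shell k, ∑ j ∈ Finset.range (2 ^ k),
          ∫⁻ s in Icc (t / aa k j ^ 2) (t / aa k j ^ 2 + 1), ∫⁻ y, M t s y :=
          sum_lintegral_le _ _ _
      _ ≤ ∫⁻ t in shell k, 9 * ∫⁻ s in Icc (-T) T, ∫⁻ y, M t s y :=
          setLIntegral_mono' (shell_meas k) hstep
      _ = 9 * ∫⁻ t in shell k, ∫⁻ s in Icc (-T) T, ∫⁻ y, M t s y :=
          lintegral_const_mul' _ _ (by norm_num)
      _ ≤ 9 * ∫⁻ t in Icc (-T) T, ∫⁻ s in Icc (-T) T, ∫⁻ y, M t s y := by
          refine mul_le_mul_right (lintegral_mono_set fun t ht => ?_) _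
          have h2 := shell_abs ht
          rw [abs_le] at h2
          constructor <;> linarith [h2.1, h2.2]
      _ ≤ 9 * (ENNReal.ofReal (C * T ^ (4 - q + ε)) * ∫⁻ x, ‖g x‖ₑ ^ q) :=
          mul_le_mul_right (hMI T hT1) _
      _ = ENNReal.ofReal (9 * (C * 2 ^ (4 - q + ε)) * (2 : ℝ) ^ (k * (4 - q + ε))) *
          ∫⁻ x, ‖g x‖ₑ ^ q := by
          rw [← mul_assoc]
          congr 1
          have e1 : T ^ (4 - q + ε) = 2 ^ (4 - q + ε) * (2 : ℝ) ^ (k * (4 - q + ε)) := by
            rw [hT, ← Real.rpow_natCast, ← Real.rpow_mul (by norm_num),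
              ← Real.rpow_add (by norm_num)]
            congr 1
            push_cast
            ring
          rw [e1, show (9 : ℝ≥0∞) = ENNReal.ofReal 9 by norm_num,
            ← ENNReal.ofReal_mul (by norm_num)]
          congr 1
          ring
  · intro k j _ l hl
    unfold A
    refine setLIntegral_mono' (shell_meas k) fun t ht => ?_
    calc ∫⁻ y : E 2, ‖Y g t (t / l ^ 2) y‖ₑ ^ q
        = ∫⁻ _s in Icc (t / aa k j ^ 2) (t / aa k j ^ 2 + 1),
            ∫⁻ y : E 2, ‖Y g t (t / l ^ 2) y‖ₑ ^ q := by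
          rw [setLIntegral_const, Real.volume_Icc]
          simp
      _ ≤ ∫⁻ s in Icc (t / aa k j ^ 2) (t / aa k j ^ 2 + 1), ∫⁻ y, M t s y := by
          refine setLIntegral_mono' measurableSet_Icc fun s hs => ?_
          exact lintegral_mono fun y => hMY t _ s y (near (shell_abs ht) hl hs)

end Pool.Agent.J4.H87.AD
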