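import Pool.Agent.J4.H87.AD.Defs

/-!
# The dimension of the exceptional set (by helper82)
-/

set_option autoImplicit false

namespace Pool.Agent.J4.H87.AD.Two

open MeasureTheory Set Filter Topology
open scoped ENNReal NNReal

theorem exists_interval (k : ℕ) {l : ℝ} (hl : l ∈ Icc (1 : ℝ) 2) :
    ∃ j : ℕ, j < 2 ^ k ∧ l ∈ Icc (1 + (j : ℝ) / 2 ^ k) (1 + ((j : ℝ) + 1) / 2 ^ k) := by
  have h2 : (0 : ℝ) < 2 ^ k := by positivity
  rcases lt_or_eq_of_le hl.2 with h | h
  · refine ⟨⌊(l - 1) * 2 ^ k⌋₊, ?_, ?_, ?_⟩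
    · rw [Nat.floor_lt (mul_nonneg (by linarith [hl.1]) h2.le)]
      push_cast
      have : l - 1 < 1 := by linarith
      nlinarith
    · have h3 := Nat.floor_le (mul_nonneg (by linarith [hl.1] : (0 : ℝ) ≤ l - 1) h2.le)
      have h4 : (⌊(l - 1) * 2 ^ k⌋₊ : ℝ) / 2 ^ k ≤ l - 1 := by
        rw [div_le_iff₀ h2]
        exact h3
      linarith
    · have h3 := Nat.lt_floor_add_one ((l - 1) * 2 ^ k)
      have h4 : l - 1 ≤ ((⌊(l - 1) * 2 ^ k⌋₊ : ℝ) + 1) / 2 ^ k := by
        rw [le_div_iff₀ h2]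
        exact h3.le
      linarith
  · have h1 : 1 ≤ 2 ^ k := Nat.one_le_two_pow
    refine ⟨2 ^ k - 1, by omega, ?_, ?_⟩
    · have : ((2 ^ k - 1 : ℕ) : ℝ) = 2 ^ k - 1 := by
        rw [Nat.cast_sub h1]
        push_cast
        ring
      rw [this, h]
      have h4 : ((2 : ℝ) ^ k - 1) / 2 ^ k ≤ 1 := by
        rw [div_le_one h2]
        linarith
      linarith
    · have : ((2 ^ k - 1 : ℕ) : ℝ) = 2 ^ k - 1 := by
        rw [Nat.cast_sub h1]
        push_cast
        ring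
      rw [this, h, sub_add_cancel, div_self h2.ne']
      norm_num

theorem t_DIM : S_DIM := by
  intro a c β C hβ hc ha
  refine dimH_le fun d' hd' => ?_
  by_contra hlt
  have hd : β < (d' : ℝ) := by
    by_contra h
    exact hlt (by
      rw [← ENNReal.ofReal_coe_nnreal]
      exact ENNReal.ofReal_le_ofReal (not_lt.1 h))
  set d : ℝ := (d' : ℝ) with hdd
  have hd0 : 0 < d := lt_of_le_of_lt hβ hd
  set ε : ℝ := (d - β) / 2 with hε
  have hε0 : 0 < ε := by
    rw [hε]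
    linarith
  set q : ℝ≥0∞ := ENNReal.ofReal ((2 : ℝ) ^ (-ε)) with hq
  have hq1 : q < 1 := by
    rw [hq, ENNReal.ofReal_lt_one]
    exact Real.rpow_lt_one_of_one_lt_of_neg one_lt_two (by linarith)
  have hqs : ∑' k : ℕ, q ^ k ≠ ⊤ := by
    rw [ENNReal.tsum_geometric]
    exact ENNReal.inv_ne_top.2 (tsub_pos_of_lt hq1).ne'
  -- powers
  have hqk : ∀ k : ℕ, q ^ k = ENNReal.ofReal ((2 : ℝ) ^ (-(k * ε))) := by
    intro k
    rw [hq, ← ENNReal.ofReal_pow (by positivity), ← Real.rpow_natCast, ← Real.rpow_mul (by norm_num)]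
    congr 2
    ring
  have hqu : ∀ k : ℕ, q ^ k * ENNReal.ofReal ((2 : ℝ) ^ (k * ε)) = 1 := by
    intro k
    rw [hqk, ← ENNReal.ofReal_mul (by positivity), ← Real.rpow_add (by norm_num)]
    simp
  let t : ℕ → ℕ × ℕ → Set ℝ := fun n p =>
    {l | (p.2 < 2 ^ p.1 ∧ q ^ p.1 < c p.1 p.2 ∧ n ≤ p.1) ∧
      l ∈ Icc (1 + (p.2 : ℝ) / 2 ^ p.1) (1 + ((p.2 : ℝ) + 1) / 2 ^ p.1)}
  have hpos : ∀ k : ℕ, (0 : ℝ) < 2 ^ k := fun k => by positivity
  have hdiam : ∀ n p, Metric.ediam (t n p) ≤ ENNReal.ofReal (1 / 2 ^ p.1) := by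
    intro n p
    refine (Metric.ediam_mono (t := Icc (1 + (p.2 : ℝ) / 2 ^ p.1)
      (1 + ((p.2 : ℝ) + 1) / 2 ^ p.1)) (fun l hl => hl.2)).trans (le_of_eq ?_)
    rw [Real.ediam_Icc]
    congr 1
    ring
  have hempty : ∀ n p, ¬ (p.2 < 2 ^ p.1 ∧ q ^ p.1 < c p.1 p.2 ∧ n ≤ p.1) → t n p = ∅ := by
    intro n p hp
    ext l
    simp only [t, Set.mem_ofPred_eq, mem_empty_iff_false, iff_false]
    exact fun h => hp h.1
  -- the covering
  have hcov : ∀ n, {l : ℝ | l ∈ Icc (1 : ℝ) 2 ∧ ∑' k, a k l = ⊤} ⊆ ⋃ p, t n p := by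
    rintro n l ⟨hl, htop⟩
    by_contra hno
    have h1 : ∀ k, n ≤ k → a k l ≤ q ^ k := by
      intro k hk
      obtain ⟨j, hj, hlj⟩ := exists_interval k hl
      refine (ha k j hj l hlj).trans ?_
      by_contra h
      exact hno (mem_iUnion.2 ⟨(k, j), ⟨hj, not_le.1 h, hk⟩, hlj⟩)
    have h2 : ∀ k, a k l ≠ ⊤ := by
      intro k
      obtain ⟨j, hj, hlj⟩ := exists_interval k hl
      refine ne_top_of_le_ne_top ENNReal.ofReal_ne_top ((ha k j hj l hlj).trans
        (le_trans ?_ (hc k)))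
      exact Finset.single_le_sum (f := fun j => c k j) (fun _ _ => zero_le) (Finset.mem_range.2 hj)
    have h3 : ∑' k, a k l ≤ ∑' k, ((if k < n then a k l else 0) + q ^ k) := by
      refine ENNReal.tsum_le_tsum fun k => ?_
      by_cases hk : k < n
      · rw [if_pos hk]
        exact le_self_add
      · rw [if_neg hk, zero_add]
        exact h1 k (not_lt.1 hk)
    have h3' : ∑' k, (if k < n then a k l else 0) =
        ∑ k ∈ Finset.range n, (if k < n then a k l else 0) :=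
      tsum_eq_sum (s := Finset.range n) (fun k hk => if_neg (fun h => hk (Finset.mem_range.2 h)))
    rw [ENNReal.tsum_add, h3'] at h3
    have h4 : ∑ k ∈ Finset.range n, (if k < n then a k l else 0) ≠ ⊤ := by
      refine (ENNReal.sum_lt_top.2 fun k hk => ?_).ne
      rw [if_pos (Finset.mem_range.1 hk)]
      exact (h2 k).lt_top
    rw [htop, top_le_iff, ENNReal.add_eq_top] at h3
    exact h3.elim h4 hqs
  have hr : Tendsto (fun n : ℕ => ENNReal.ofReal (1 / 2 ^ n)) atTop (𝓝 0) := by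
    have h5 : Tendsto (fun n : ℕ => ((1 : ℝ) / 2) ^ n) atTop (𝓝 0) :=
      tendsto_pow_atTop_nhds_zero_of_lt_one (by norm_num) (by norm_num)
    have h6 := ENNReal.tendsto_ofReal h5
    rw [ENNReal.ofReal_zero] at h6
    refine h6.congr fun n => ?_
    rw [one_div_pow]
  have hmain := Measure.hausdorffMeasure_le_liminf_tsum (ι := fun _ : ℕ => ℕ × ℕ) d
    {l : ℝ | l ∈ Icc (1 : ℝ) 2 ∧ ∑' k, a k l = ⊤} (l := atTop)
    (fun n : ℕ => ENNReal.ofReal (1 / 2 ^ n)) hr t
    (Eventually.of_forall fun n p => by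
      by_cases hp : (p.2 < 2 ^ p.1 ∧ q ^ p.1 < c p.1 p.2 ∧ n ≤ p.1)
      · refine (hdiam n p).trans (ENNReal.ofReal_le_ofReal ?_)
        exact one_div_le_one_div_of_le (hpos n) (pow_le_pow_right₀ (by norm_num) hp.2.2)
      · rw [hempty n p hp]
        simp)
    (Eventually.of_forall hcov)
  -- the sum
  have hsum : ∀ n, ∑' p : ℕ × ℕ, Metric.ediam (t n p) ^ d ≤
      ENNReal.ofReal C * ∑' k : ℕ, q ^ k := by
    intro n
    rw [ENNReal.tsum_prod (f := fun k j => Metric.ediam (t n (k, j)) ^ d),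
      ← ENNReal.tsum_mul_left]
    refine ENNReal.tsum_le_tsum fun k => ?_
    have h7 : ∀ j, Metric.ediam (t n (k, j)) ^ d ≤ if j < 2 ^ k then
        c k j * (ENNReal.ofReal ((2 : ℝ) ^ (k * ε)) * ENNReal.ofReal ((2 : ℝ) ^ (-(k * d))))
        else 0 := by
      intro j
      by_cases hp : (j < 2 ^ k ∧ q ^ k < c k j ∧ n ≤ k)
      · rw [if_pos hp.1]
        have h8 : Metric.ediam (t n (k, j)) ^ d ≤ ENNReal.ofReal ((2 : ℝ) ^ (-(k * d))) := by
          refine (ENNReal.rpow_le_rpow (hdiam n (k, j)) hd0.le).trans (le_of_eq ?_)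
          rw [ENNReal.ofReal_rpow_of_pos (by positivity)]
          congr 1
          rw [one_div, ← Real.rpow_natCast, ← Real.rpow_neg (by norm_num),
            ← Real.rpow_mul (by norm_num)]
          congr 1
          ring
        have h9 : 1 ≤ c k j * ENNReal.ofReal ((2 : ℝ) ^ (k * ε)) := by
          rw [← hqu k]
          exact mul_le_mul' hp.2.1.le le_rfl
        calc _ ≤ 1 * ENNReal.ofReal ((2 : ℝ) ^ (-(k * d))) := by
              rw [one_mul]
              exact h8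
          _ ≤ _ := by
              rw [← mul_assoc]
              exact mul_le_mul' h9 le_rfl
      · rw [hempty n (k, j) hp]
        simp [hd0]
    refine (ENNReal.tsum_le_tsum h7).trans ?_
    rw [tsum_eq_sum (s := Finset.range (2 ^ k)) (fun j hj => by
      rw [if_neg (fun h => hj (Finset.mem_range.2 h))])]
    rw [Finset.sum_congr rfl (fun j hj => if_pos (Finset.mem_range.1 hj)), ← Finset.sum_mul]
    refine (mul_le_mul' (hc k) le_rfl).trans (le_of_eq ?_)
    rw [hqk, ← ENNReal.ofReal_mul (by positivity), ENNReal.ofReal_mul' (by positivity), mul_assoc,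
      ← ENNReal.ofReal_mul (by positivity), ← Real.rpow_add (by norm_num),
      ← Real.rpow_add (by norm_num)]
    congr 3
    rw [hε]
    ring
  have hfin : ENNReal.ofReal C * ∑' k : ℕ, q ^ k ≠ ⊤ :=
    ENNReal.mul_ne_top ENNReal.ofReal_ne_top hqs
  have hle := hmain.trans (liminf_le_of_frequently_le' (Frequently.of_forall hsum))
  exact hfin (top_le_iff.1 (hd' ▸ hle))

end Pool.Agent.J4.H87.AD.Two
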