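import Pool.Agent.J4.H87.AD.Defs3

/-!
# Project AD: dimension of the exceptional set, sharper bound
-/

set_option autoImplicit false

namespace Pool.Agent.J4.H87.AD

open MeasureTheory Complex Set Filter Topology
open scoped ENNReal NNReal RealInnerProductSpace ComplexConjugate
open Pool.Agent.J4.H73.EX (E en Ga)

namespace DIM2

/-- the intervals of the level `k` -/
def J (k j : ℕ) : Set ℝ := Icc (1 + (j : ℝ) / 2 ^ k) (1 + ((j : ℝ) + 1) / 2 ^ k)

/-- the intervals with a large value -/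
def Bad (f : ℝ → ℝ≥0∞) (τ : ℝ≥0∞) (k j : ℕ) : Prop := ∃ l ∈ J k j, τ < f l

theorem J_sub {k j : ℕ} (hj : j < 2 ^ k) {l : ℝ} (hl : l ∈ J k j) : l ∈ Icc (1 : ℝ) 2 := by
  have h2 : (0 : ℝ) < 2 ^ k := by positivity
  have hj' : (j : ℝ) + 1 ≤ 2 ^ k := by exact_mod_cast hj
  have h3 : ((j : ℝ) + 1) / 2 ^ k ≤ 1 := (div_le_one h2).2 hj'
  have h4 : 0 ≤ (j : ℝ) / 2 ^ k := by positivity
  exact ⟨by linarith [hl.1], by linarith [hl.2]⟩

theorem J_near {k i j : ℕ} {l : ℝ} (hi : l ∈ J k i) (hj : l ∈ J k j) : j ≤ i + 1 := by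
  have h2 : (0 : ℝ) < 2 ^ k := by positivity
  have h1 : (j : ℝ) / 2 ^ k ≤ ((i : ℝ) + 1) / 2 ^ k := by linarith [hi.2, hj.1]
  have h3 := (div_le_div_iff_of_pos_right h2).1 h1
  exact_mod_cast h3

open Classical in
/-- the number of bad intervals, from the inequality for sums of point masses -/
theorem count (f : ℝ → ℝ≥0∞) (τ : ℝ≥0∞) (k : ℕ) (B : ℝ → ℝ≥0∞)
    (hgen : ∀ (μ : Measure ℝ) (m : ℝ), 0 < m → μ (Icc (1 : ℝ) 2) ≤ ENNReal.ofReal m →
      (∀ j : ℕ, j < 2 ^ k → μ (J k j) ≤ ENNReal.ofReal 3) →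
      ∫⁻ l in Icc (1 : ℝ) 2, f l ∂μ ≤ B m)
    (hN : 0 < ((Finset.range (2 ^ k)).filter (Bad f τ k)).card) :
    ((((Finset.range (2 ^ k)).filter (Bad f τ k)).card : ℕ) : ℝ≥0∞) * τ ≤
      B (((Finset.range (2 ^ k)).filter (Bad f τ k)).card : ℝ) := by
  set s := (Finset.range (2 ^ k)).filter (Bad f τ k) with hs
  have h0 : ∀ j, ∃ l : ℝ, j ∈ s → l ∈ J k j ∧ τ < f l := by
    intro j
    by_cases hj : j ∈ s
    · obtain ⟨l, h1, h2⟩ := (Finset.mem_filter.1 hj).2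
      exact ⟨l, fun _ => ⟨h1, h2⟩⟩
    · exact ⟨0, fun h => absurd h hj⟩
  choose l hl using h0
  have hlt : ∀ j ∈ s, j < 2 ^ k := fun j hj => Finset.mem_range.1 (Finset.mem_filter.1 hj).1
  set μ : Measure ℝ := ∑ j ∈ s, Measure.dirac (l j) with hμ
  have h1 : μ (Icc (1 : ℝ) 2) ≤ ENNReal.ofReal (s.card : ℝ) := by
    rw [hμ, Measure.finsetSum_apply, ENNReal.ofReal_natCast]
    calc _ ≤ ∑ j ∈ s, (1 : ℝ≥0∞) := Finset.sum_le_sum fun j _ => prob_le_one
      _ = _ := by simp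
  have h2 : ∀ i : ℕ, i < 2 ^ k → μ (J k i) ≤ ENNReal.ofReal 3 := by
    intro i _
    rw [hμ, Measure.finsetSum_apply]
    have e1 : ∀ j ∈ s, (Measure.dirac (l j)) (J k i) ≤
        if j ∈ Finset.Icc (i - 1) (i + 1) then (1 : ℝ≥0∞) else 0 := by
      intro j hj
      by_cases hc : j ∈ Finset.Icc (i - 1) (i + 1)
      · rw [if_pos hc]
        exact prob_le_one
      · rw [if_neg hc]
        have hni : l j ∉ J k i := by
          intro hin
          have a1 := J_near hin (hl j hj).1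
          have a2 := J_near (hl j hj).1 hin
          exact hc (Finset.mem_Icc.2 ⟨by omega, a1⟩)
        rw [Measure.dirac_apply' _ (show MeasurableSet (J k i) from measurableSet_Icc),
          indicator_of_notMem hni]
    calc ∑ j ∈ s, (Measure.dirac (l j)) (J k i)
        ≤ ∑ j ∈ s, if j ∈ Finset.Icc (i - 1) (i + 1) then (1 : ℝ≥0∞) else 0 :=
          Finset.sum_le_sum e1
      _ = (((s.filter fun j => j ∈ Finset.Icc (i - 1) (i + 1)).card : ℕ) : ℝ≥0∞) := by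
          rw [Finset.sum_ite]
          simp
      _ ≤ (3 : ℕ) := by
          refine Nat.cast_le.2 ?_
          calc _ ≤ (Finset.Icc (i - 1) (i + 1)).card := Finset.card_le_card fun j hj =>
                (Finset.mem_filter.1 hj).2
            _ ≤ 3 := by
                rw [Nat.card_Icc]
                omega
      _ = ENNReal.ofReal 3 := by
          rw [← ENNReal.ofReal_natCast]
          norm_num
  have h3 := hgen μ (s.card : ℝ) (by exact_mod_cast hN) h1 h2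
  refine le_trans ?_ h3
  rw [← lintegral_indicator measurableSet_Icc, hμ, lintegral_finsetSum_measure,
    ← nsmul_eq_mul, ← Finset.sum_const]
  refine Finset.sum_le_sum fun j hj => ?_
  rw [lintegral_dirac, indicator_of_mem (J_sub (hlt j hj) (hl j hj).1)]
  exact (hl j hj).2.le

/-- the algebra of the exponents -/
theorem expo {N c a b k ε : ℝ} (hN : 0 < N) (hc : 0 ≤ c) (hab : a + b = 1) (hb : 0 < b)
    (h : N * (2 : ℝ) ^ (-(k * ε)) ≤ c * (N * (2 : ℝ) ^ k) ^ a * (3 * (2 : ℝ) ^ (k * ε)) ^ b) :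
    N ≤ (c * 3 ^ b) ^ (1 / b) * (2 : ℝ) ^ (k * (a / b + ε * (1 + 1 / b))) := by
  have h2 : (0 : ℝ) < 2 := by norm_num
  have e1 : (N * (2 : ℝ) ^ k) ^ a = N ^ a * (2 : ℝ) ^ (k * a) := by
    rw [Real.mul_rpow hN.le (Real.rpow_nonneg h2.le _), ← Real.rpow_mul h2.le]
  have e2 : (3 * (2 : ℝ) ^ (k * ε)) ^ b = 3 ^ b * (2 : ℝ) ^ (k * ε * b) := by
    rw [Real.mul_rpow (by norm_num) (Real.rpow_nonneg h2.le _), ← Real.rpow_mul h2.le]
  have e3 : N = N ^ a * N ^ b := by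
    rw [← Real.rpow_add hN, hab, Real.rpow_one]
  have hNa : 0 < N ^ a := Real.rpow_pos_of_pos hN a
  rw [e1, e2] at h
  have h4 : N ^ b ≤ (c * 3 ^ b) * (2 : ℝ) ^ (k * a + k * ε * b + k * ε) := by
    have h5 : N ^ a * (N ^ b * (2 : ℝ) ^ (-(k * ε))) ≤
        N ^ a * ((c * 3 ^ b) * ((2 : ℝ) ^ (k * a) * (2 : ℝ) ^ (k * ε * b))) := by
      calc _ = N * (2 : ℝ) ^ (-(k * ε)) := by
            conv_rhs => rw [e3]
            ring
        _ ≤ _ := h
        _ = _ := by ring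
    have h6 := le_of_mul_le_mul_left h5 hNa
    have h7 := mul_le_mul_of_nonneg_right h6 (Real.rpow_nonneg h2.le (k * ε))
    calc N ^ b = N ^ b * (2 : ℝ) ^ (-(k * ε)) * (2 : ℝ) ^ (k * ε) := by
          rw [mul_assoc, ← Real.rpow_add h2]
          simp
      _ ≤ _ := h7
      _ = _ := by
          rw [Real.rpow_add h2, Real.rpow_add h2]
          ring
  calc N = (N ^ b) ^ (1 / b) := by
        rw [← Real.rpow_mul hN.le, mul_one_div_cancel hb.ne', Real.rpow_one]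
    _ ≤ ((c * 3 ^ b) * (2 : ℝ) ^ (k * a + k * ε * b + k * ε)) ^ (1 / b) :=
        Real.rpow_le_rpow (Real.rpow_nonneg hN.le _) h4 (by positivity)
    _ = _ := by
        rw [Real.mul_rpow (by positivity) (by positivity), ← Real.rpow_mul h2.le]
        congr 2
        field_simp
        ring

open Classical in
/-- the bound for one `ε` -/
theorem one (h : S_GEN) (hd : S_DIM) {q : ℝ} (hq3 : 3 < q) (hq4 : q < 4) {g : E 2 → ℂ}
    (hg : Go g) (hZ : ∫⁻ x, ‖g x‖ₑ ^ q ≠ ⊤) {ε : ℝ} (hε : 0 < ε) :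
    dimH {l : ℝ | l ∈ Icc (1 : ℝ) 2 ∧ ∑' k, A g q k l = ⊤} ≤
      ENNReal.ofReal ((4 - q) / (q - 2) + ε * (1 + 1 / ((q - 2) / 2))) := by
  obtain ⟨C, hC, hgen⟩ := h q (by linarith) hq4 ε hε
  set Z := ∫⁻ x, ‖g x‖ₑ ^ q with hZdef
  set z := Z.toReal with hz
  have hz0 : 0 ≤ z := ENNReal.toReal_nonneg
  have hZz : Z = ENNReal.ofReal z := (ENNReal.ofReal_toReal hZ).symm
  -- finiteness
  have hfin : ∀ k : ℕ, ∀ l ∈ Icc (1 : ℝ) 2, A g q k l ≠ ⊤ := by
    intro k l hl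
    have h1 := hgen g hg k (Measure.dirac l) 1 1 one_pos one_pos
      (by rw [ENNReal.ofReal_one]; exact prob_le_one)
      (fun j _ => by rw [ENNReal.ofReal_one]; exact prob_le_one)
    rw [← lintegral_indicator measurableSet_Icc, lintegral_dirac, indicator_of_mem hl] at h1
    exact ne_top_of_le_ne_top (ENNReal.mul_ne_top ENNReal.ofReal_ne_top hZ) h1
  set τ : ℕ → ℝ≥0∞ := fun k => ENNReal.ofReal ((2 : ℝ) ^ (-((k : ℝ) * ε))) with hτ
  set b : ℝ := (q - 2) / 2 with hb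
  have hb0 : 0 < b := by rw [hb]; linarith
  set C' : ℝ := (C * z * 3 ^ b) ^ (1 / b) with hC'
  set β : ℝ := (4 - q) / (q - 2) + ε * (1 + 1 / b) with hβ
  have hβ0 : 0 ≤ β := by
    have : 0 ≤ (4 - q) / (q - 2) := div_nonneg (by linarith) (by linarith)
    positivity
  set c : ℕ → ℕ → ℝ≥0∞ := fun k j => if Bad (A g q k) (τ k) k j then 1 else 0 with hc
  set a : ℕ → ℝ → ℝ≥0∞ := fun k l => if τ k < A g q k l then 1 else 0 with ha
  have hsum : ∀ k : ℕ, ∑ j ∈ Finset.range (2 ^ k), c k j ≤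
      ENNReal.ofReal (C' * (2 : ℝ) ^ (k * β)) := by
    intro k
    have e1 : ∑ j ∈ Finset.range (2 ^ k), c k j =
        ((((Finset.range (2 ^ k)).filter (Bad (A g q k) (τ k) k)).card : ℕ) : ℝ≥0∞) := by
      rw [hc, Finset.sum_ite]
      simp
    rw [e1]
    rcases Nat.eq_zero_or_pos
      ((Finset.range (2 ^ k)).filter (Bad (A g q k) (τ k) k)).card with h0 | h0
    · rw [h0, Nat.cast_zero]
      exact bot_le
    · have h1 := count (A g q k) (τ k) k (fun m => ENNReal.ofReal (C * (m * 2 ^ k) ^ ((4 - q) / 2) *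
        (3 * (2 : ℝ) ^ (k * ε)) ^ ((q - 2) / 2)) * Z)
        (fun μ m hm h1 h2 => hgen g hg k μ m 3 hm (by norm_num) h1 h2) h0
      set N := ((Finset.range (2 ^ k)).filter (Bad (A g q k) (τ k) k)).card with hNdef
      have hN : (0 : ℝ) < N := by exact_mod_cast h0
      have h2 : (N : ℝ) * (2 : ℝ) ^ (-((k : ℝ) * ε)) ≤ (C * z) * ((N : ℝ) * (2 : ℝ) ^ (k : ℝ)) ^
          ((4 - q) / 2) * (3 * (2 : ℝ) ^ ((k : ℝ) * ε)) ^ b := by
        have p1 : 0 ≤ ((N : ℝ) * 2 ^ k) ^ ((4 - q) / 2) :=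
          Real.rpow_nonneg (mul_nonneg hN.le (pow_nonneg (by norm_num) _)) _
        have p2 : 0 ≤ (3 * (2 : ℝ) ^ ((k : ℝ) * ε)) ^ b :=
          Real.rpow_nonneg (mul_nonneg (by norm_num) (Real.rpow_nonneg (by norm_num) _)) _
        have p3 : 0 ≤ C * ((N : ℝ) * 2 ^ k) ^ ((4 - q) / 2) *
              (3 * (2 : ℝ) ^ ((k : ℝ) * ε)) ^ b := mul_nonneg (mul_nonneg hC.le p1) p2
        have h3 : ENNReal.ofReal ((N : ℝ) * (2 : ℝ) ^ (-((k : ℝ) * ε))) ≤
            ENNReal.ofReal (C * ((N : ℝ) * 2 ^ k) ^ ((4 - q) / 2) *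
              (3 * (2 : ℝ) ^ ((k : ℝ) * ε)) ^ b * z) := by
          rw [ENNReal.ofReal_mul hN.le, ENNReal.ofReal_natCast, ENNReal.ofReal_mul p3,
            ← hZz]
          exact h1
        have h4 := (ENNReal.ofReal_le_ofReal_iff (mul_nonneg p3 hz0)).1 h3
        rw [Real.rpow_natCast]
        linarith
      have h5 := expo hN (mul_nonneg hC.le hz0) (show (4 - q) / 2 + b = 1 by rw [hb]; ring) hb0 h2
      have h6 : (4 - q) / 2 / b = (4 - q) / (q - 2) := by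
        rw [hb]
        field_simp
      rw [h6] at h5
      rw [← ENNReal.ofReal_natCast]
      exact ENNReal.ofReal_le_ofReal h5
  have hle : ∀ k j : ℕ, j < 2 ^ k → ∀ l ∈ Icc (1 + (j : ℝ) / 2 ^ k) (1 + ((j : ℝ) + 1) / 2 ^ k),
      a k l ≤ c k j := by
    intro k j _ l hl
    simp only [ha, hc]
    by_cases h1 : τ k < A g q k l
    · rw [if_pos h1, if_pos ⟨l, hl, h1⟩]
    · rw [if_neg h1]
      exact bot_le
  refine le_trans (dimH_mono ?_) (hd a c β C' hβ0 hsum hle)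
  rintro l ⟨hl, hl2⟩
  refine ⟨hl, ?_⟩
  by_contra hne
  -- finitely many `k` with `a k l = 1`
  have h1 : Tendsto (fun k => a k l) atTop (𝓝 0) := ENNReal.tendsto_atTop_zero_of_tsum_ne_top hne
  have h2 : ∀ᶠ k in atTop, a k l < 1 := (tendsto_order.1 h1).2 1 one_pos
  obtain ⟨K, hK⟩ := eventually_atTop.1 h2
  have h3 : ∀ k, K ≤ k → A g q k l ≤ τ k := by
    intro k hk
    by_contra hc2
    push Not at hc2
    have := hK k hk
    simp only [ha] at this
    rw [if_pos hc2] at this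
    exact lt_irrefl _ this
  have h4 : ∑' k, A g q k l ≤ ∑' k, ((if k < K then A g q k l else 0) + τ k) := by
    refine ENNReal.tsum_le_tsum fun k => ?_
    by_cases hk : k < K
    · rw [if_pos hk]
      exact le_self_add
    · rw [if_neg hk, zero_add]
      exact h3 k (not_lt.1 hk)
  rw [ENNReal.tsum_add, hl2, top_le_iff] at h4
  have h5 : ∑' k, (if k < K then A g q k l else 0) ≠ ⊤ := by
    rw [tsum_eq_sum (s := Finset.range K)]
    · refine ENNReal.sum_ne_top.2 fun k _ => ?_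
      split_ifs
      · exact hfin k l hl
      · exact ENNReal.zero_ne_top
    · intro k hk
      rw [if_neg (fun h => hk (Finset.mem_range.2 h))]
  have h6 : ∑' k, τ k ≠ ⊤ := by
    have e1 : ∀ k, τ k = ENNReal.ofReal ((2 : ℝ) ^ (-ε)) ^ k := by
      intro k
      rw [← ENNReal.ofReal_pow (Real.rpow_nonneg (by norm_num) _), ← Real.rpow_natCast,
        ← Real.rpow_mul (by norm_num)]
      show ENNReal.ofReal ((2 : ℝ) ^ (-((k : ℝ) * ε))) = _
      rw [show -((k : ℝ) * ε) = -ε * k by ring]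
    simp only [e1]
    rw [ENNReal.tsum_geometric]
    have e2 : ENNReal.ofReal ((2 : ℝ) ^ (-ε)) < 1 := by
      rw [ENNReal.ofReal_lt_one]
      exact Real.rpow_lt_one_of_one_lt_of_neg (by norm_num) (by linarith)
    exact ENNReal.inv_ne_top.2 (tsub_pos_of_lt e2).ne'
  exact (ENNReal.add_ne_top.2 ⟨h5, h6⟩) h4

end DIM2

theorem t_DIM2 (h : S_GEN) (hd : S_DIM) (_ha : S_AM) (_hc : S_COV) : S_DIM2 := by
  intro q hq3 hq4 g hg hZ
  have hb0 : 0 < 1 + 1 / ((q - 2) / 2) := by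
    have : 0 < (q - 2) / 2 := by linarith
    positivity
  refine ENNReal.le_of_forall_pos_le_add fun η hη _ => ?_
  have h1 := DIM2.one h hd hq3 hq4 hg hZ (ε := (η : ℝ) / (1 + 1 / ((q - 2) / 2)))
    (div_pos (by exact_mod_cast hη) hb0)
  rw [div_mul_cancel₀ _ hb0.ne'] at h1
  refine h1.trans (ENNReal.ofReal_add_le.trans ?_)
  rw [ENNReal.ofReal_coe_nnreal]

end Pool.Agent.J4.H87.AD
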