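import Pool.Agent.J4.H87.AD.Defs3

set_option autoImplicit false

open MeasureTheory Set
open scoped ENNReal

namespace Pool.Agent.J4.H87.AD

namespace FRO2

theorem expo (α q ε : ℝ) (hq : 2 < q) (hε : ε = (α * (q - 2) - (4 - q)) / (2 * (q - 2)))
    (h : 4 - q < α * (q - 2)) : (4 - q) / 2 + (-α + ε) * ((q - 2) / 2) < 0 := by
  have h2 : 0 < q - 2 := by linarith
  have h3 : ε * (q - 2) = (α * (q - 2) - (4 - q)) / 2 := by
    rw [hε]
    field_simp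
  have h4 : (4 - q) / 2 + (-α + ε) * ((q - 2) / 2) =
      ((4 - q) - α * (q - 2) + ε * (q - 2)) / 2 := by ring
  rw [h4, h3]
  linarith

end FRO2

theorem t_FRO2 (h : S_GEN) (ha : S_AM) : S_FRO2 := by
  intro α q K hα hα1 hq hq4 hK
  have h1α : 0 < 1 + α := by linarith
  have hq2 : 2 < q := by
    have : 0 < 2 / (1 + α) := by positivity
    linarith
  have hcond : 4 - q < α * (q - 2) := by
    have h1 : (2 + 2 / (1 + α)) * (1 + α) < q * (1 + α) := mul_lt_mul_of_pos_right hq h1α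
    have h2 : (2 + 2 / (1 + α)) * (1 + α) = 2 * (1 + α) + 2 := by
      field_simp
    rw [h2] at h1
    linarith
  have hq20 : 0 < q - 2 := by linarith
  obtain ⟨ε, hε⟩ : ∃ ε : ℝ, ε = (α * (q - 2) - (4 - q)) / (2 * (q - 2)) := ⟨_, rfl⟩
  have hε0 : 0 < ε := by
    rw [hε]
    exact div_pos (by linarith) (by linarith)
  have hexp := FRO2.expo α q ε hq2 hε hcond
  obtain ⟨C, hC, hG⟩ := h q hq2 hq4 ε hε0
  obtain ⟨ρ, hρ⟩ : ∃ ρ : ℝ, ρ = (2 : ℝ) ^ ((4 - q) / 2 + (-α + ε) * ((q - 2) / 2)) := ⟨_, rfl⟩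
  have hρ0 : 0 < ρ := by rw [hρ]; exact Real.rpow_pos_of_pos two_pos _
  have hρ1 : ρ < 1 := by
    rw [hρ]
    exact Real.rpow_lt_one_of_one_lt_of_neg one_lt_two hexp
  have hd : 0 < 1 - ρ := by linarith
  obtain ⟨m, hm⟩ : ∃ m : ℝ, m = max K 1 := ⟨_, rfl⟩
  have hm1 : 1 ≤ m := by rw [hm]; exact le_max_right _ _
  have hmK : K ≤ m := by rw [hm]; exact le_max_left _ _
  have hm0 : 0 < m := by linarith
  refine ⟨C * m / (1 - ρ), div_pos (mul_pos hC hm0) hd, ?_⟩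
  intro μ hμ g hg
  have hmass : μ (Icc (1 : ℝ) 2) ≤ ENNReal.ofReal m := by
    have h1 := hμ 1 1 one_pos le_rfl
    rw [Real.one_rpow, mul_one, one_add_one_eq_two] at h1
    exact h1.trans (ENNReal.ofReal_le_ofReal hmK)
  have hterm : ∀ k : ℕ, ∫⁻ l in Icc (1 : ℝ) 2, A g q k l ∂μ ≤
      ENNReal.ofReal (C * m * ρ ^ k) * ∫⁻ x, ‖g x‖ₑ ^ q := by
    intro k
    have hr : 0 < m * (2 : ℝ) ^ (-(k : ℝ) * α) := mul_pos hm0 (Real.rpow_pos_of_pos two_pos _)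
    have h1 := hG g hg k μ m (m * (2 : ℝ) ^ (-(k : ℝ) * α)) hm0 hr hmass ?_
    · refine h1.trans (le_of_eq ?_)
      congr 2
      have h2k : (2 : ℝ) ^ k = (2 : ℝ) ^ (k : ℝ) := (Real.rpow_natCast 2 k).symm
      have e1 : (m * (2 : ℝ) ^ k) ^ ((4 - q) / 2) =
          m ^ ((4 - q) / 2) * (2 : ℝ) ^ ((k : ℝ) * ((4 - q) / 2)) := by
        rw [h2k, Real.mul_rpow hm0.le (Real.rpow_nonneg two_pos.le _),
          ← Real.rpow_mul two_pos.le]
      have e2 : (m * (2 : ℝ) ^ (-(k : ℝ) * α) * (2 : ℝ) ^ ((k : ℝ) * ε)) ^ ((q - 2) / 2) =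
          m ^ ((q - 2) / 2) * (2 : ℝ) ^ (((-(k : ℝ) * α) + (k : ℝ) * ε) * ((q - 2) / 2)) := by
        rw [mul_assoc, ← Real.rpow_add two_pos,
          Real.mul_rpow hm0.le (Real.rpow_nonneg two_pos.le _), ← Real.rpow_mul two_pos.le]
      have e3 : m ^ ((4 - q) / 2) * m ^ ((q - 2) / 2) = m := by
        rw [← Real.rpow_add hm0]
        have : (4 - q) / 2 + (q - 2) / 2 = 1 := by ring
        rw [this, Real.rpow_one]
      have e4 : ρ ^ k = (2 : ℝ) ^ ((k : ℝ) * ((4 - q) / 2)) *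
          (2 : ℝ) ^ (((-(k : ℝ) * α) + (k : ℝ) * ε) * ((q - 2) / 2)) := by
        rw [hρ, ← Real.rpow_natCast, ← Real.rpow_mul two_pos.le, ← Real.rpow_add two_pos]
        congr 1
        ring
      rw [e1, e2, e4]
      calc C * (m ^ ((4 - q) / 2) * (2 : ℝ) ^ ((k : ℝ) * ((4 - q) / 2))) *
            (m ^ ((q - 2) / 2) * (2 : ℝ) ^ (((-(k : ℝ) * α) + (k : ℝ) * ε) * ((q - 2) / 2)))
          = C * (m ^ ((4 - q) / 2) * m ^ ((q - 2) / 2)) *
            ((2 : ℝ) ^ ((k : ℝ) * ((4 - q) / 2)) *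
              (2 : ℝ) ^ (((-(k : ℝ) * α) + (k : ℝ) * ε) * ((q - 2) / 2))) := by ring
        _ = _ := by rw [e3]
    · intro j _
      have hp : (0 : ℝ) < (2 ^ k : ℝ)⁻¹ := by positivity
      have h5 := hμ (1 + (j : ℝ) / 2 ^ k) (2 ^ k : ℝ)⁻¹ hp
        (inv_le_one_of_one_le₀ (one_le_pow₀ one_le_two))
      have e : 1 + (j : ℝ) / 2 ^ k + (2 ^ k : ℝ)⁻¹ = 1 + ((j : ℝ) + 1) / 2 ^ k := by
        rw [add_div, one_div]; ring
      rw [e] at h5
      refine h5.trans (ENNReal.ofReal_le_ofReal ?_)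
      have e1 : ((2 ^ k : ℝ)⁻¹) ^ α = (2 : ℝ) ^ (-(k : ℝ) * α) := by
        rw [← Real.rpow_natCast, ← Real.rpow_neg two_pos.le, ← Real.rpow_mul two_pos.le]
      rw [e1]
      exact mul_le_mul_of_nonneg_right hmK (Real.rpow_nonneg two_pos.le _)
  calc ∫⁻ l in Icc (1 : ℝ) 2, ∑' k, A g q k l ∂μ
      = ∑' k, ∫⁻ l in Icc (1 : ℝ) 2, A g q k l ∂μ :=
        lintegral_tsum fun k => (ha g q k hg).aemeasurable
    _ ≤ ∑' k : ℕ, ENNReal.ofReal (C * m * ρ ^ k) * ∫⁻ x, ‖g x‖ₑ ^ q :=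
        ENNReal.tsum_le_tsum hterm
    _ = ENNReal.ofReal (C * m / (1 - ρ)) * ∫⁻ x, ‖g x‖ₑ ^ q := by
        rw [ENNReal.tsum_mul_right, ← ENNReal.ofReal_tsum_of_nonneg
          (fun k => mul_nonneg (mul_nonneg hC.le hm0.le) (pow_nonneg hρ0.le k))
          ((summable_geometric_of_lt_one hρ0.le hρ1).mul_left _), tsum_mul_left,
          tsum_geometric_of_lt_one hρ0.le hρ1, div_eq_mul_inv]

end Pool.Agent.J4.H87.AD
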