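import Pool.Agent.J4.H87.AD.Defs

/-!
# The one dimensional kernel lemma (by helper82)
-/

set_option autoImplicit false

namespace Pool.Agent.J4.H87.AD.K1

open MeasureTheory Complex Set Filter Topology
open scoped ENNReal NNReal RealInnerProductSpace ComplexConjugate
open Pool.Agent.J4.H73.EX (E en en_norm en_meas en_enorm en_ee)

/-- the coordinate of the line -/
noncomputable def e1 : E 1 ≃ᵐ ℝ :=
  (MeasurableEquiv.toLp 2 (Fin 1 → ℝ)).symm.trans (MeasurableEquiv.funUnique (Fin 1) ℝ)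

theorem e1_apply (y : E 1) : e1 y = y 0 := rfl

theorem e1_mp : MeasurePreserving e1 (volume : Measure (E 1)) (volume : Measure ℝ) :=
  (volume_preserving_funUnique (Fin 1) ℝ).comp
    (EuclideanSpace.volume_preserving_symm_measurableEquiv_toLp (Fin 1))

theorem lint_one (F : ℝ → ℝ≥0∞) : ∫⁻ y : E 1, F (y 0) = ∫⁻ t, F t := by
  have h := e1_mp.lintegral_comp_emb e1.measurableEmbedding F
  simpa [e1_apply] using h

theorem int_one (F : ℝ → ℂ) : ∫ y : E 1, F (y 0) = ∫ t, F t := by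
  have h := e1_mp.integral_comp e1.measurableEmbedding F
  simpa [e1_apply] using h

theorem integrable_one {h : ℝ → ℂ} (hh : Integrable h) : Integrable (fun y : E 1 => h (y 0)) := by
  have h2 := (e1_mp.integrable_comp_emb e1.measurableEmbedding (g := h)).2 hh
  exact h2

/-- Plancherel -/
theorem bound1 {h : ℝ → ℂ} (hh : Integrable h) {b : ℝ} (hb : b ≠ 0) :
    ∫⁻ t : ℝ, ‖∫ x : ℝ, en (2 * (x * b * t)) * h x‖ₑ ^ 2 ≤
      ENNReal.ofReal (Real.pi / |b|) * ∫⁻ x, ‖h x‖ₑ ^ 2 := by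
  have hpi := Real.pi_pos
  set c : ℝ := -(b / Real.pi) with hc
  have hc0 : c ≠ 0 := neg_ne_zero.2 (div_ne_zero hb hpi.ne')
  have hdet : ((c • ContinuousLinearMap.id ℝ (E 1) : E 1 →L[ℝ] E 1)).det = c := by
    unfold ContinuousLinearMap.det
    rw [ContinuousLinearMap.toLinearMap_smul, LinearMap.det_smul]
    simp
  have h1 := R412.RT.planch (n := 1) (fun x : E 1 => c • x) (measurable_const_smul c)
    (fun _ => c • ContinuousLinearMap.id ℝ (E 1)) univ MeasurableSet.univ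
    (fun x _ => ((hasFDerivAt_id x).const_smul c).hasFDerivWithinAt)
    (fun x _ y _ hxy => smul_right_injective (E 1) hc0 hxy)
    (fun x _ => by rw [hdet]; exact hc0) (by simp only [hdet]; exact measurable_const)
    (fun y : E 1 => h (y 0)) (integrable_one hh) (fun x hx => absurd (mem_univ x) hx)
  simp only [hdet] at h1
  have h2 : ∀ t : E 1, ∫ x : E 1, R412.RT.ee ⟪c • x, t⟫ * h (x 0) =
      ∫ x : ℝ, en (2 * (x * b * t 0)) * h x := by
    intro t
    rw [← int_one (fun x : ℝ => en (2 * (x * b * t 0)) * h x)]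
    refine integral_congr_ae (Eventually.of_forall fun x => ?_)
    have h3 : (⟪c • x, t⟫ : ℝ) = -(2 * Real.pi)⁻¹ * (2 * (x 0 * b * t 0)) := by
      rw [real_inner_smul_left, R412.RT.inner_eq]
      simp only [Finset.univ_unique, Fin.default_eq_zero, Finset.sum_singleton]
      rw [hc]
      field_simp
    simp only [en_ee, h3]
  simp only [h2] at h1
  rw [lint_one (fun t : ℝ => ‖∫ x : ℝ, en (2 * (x * b * t)) * h x‖ₑ ^ 2),
    lint_one (fun t : ℝ => ‖h t‖ₑ ^ 2 / ENNReal.ofReal |c|)] at h1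
  refine h1.trans (le_of_eq ?_)
  have h4 : |c| = |b| / Real.pi := by
    rw [hc, abs_neg, abs_div, abs_of_pos hpi]
  have h5 : (ENNReal.ofReal |c|)⁻¹ = ENNReal.ofReal (Real.pi / |b|) := by
    rw [← ENNReal.ofReal_inv_of_pos (abs_pos.2 hc0), h4, inv_div]
  simp only [div_eq_mul_inv, h5]
  rw [lintegral_mul_const' _ _ ENNReal.ofReal_ne_top, mul_comm]

/-- Cauchy-Schwarz -/
theorem cs {h : ℝ → ℂ} (hh : Integrable h) (hs : ∀ x, 1 < |x| → h x = 0) (b t : ℝ) :
    ‖∫ x : ℝ, en (2 * (x * b * t)) * h x‖ₑ ^ 2 ≤ 2 * ∫⁻ x, ‖h x‖ₑ ^ 2 := by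
  have h1 : ‖∫ x : ℝ, en (2 * (x * b * t)) * h x‖ₑ ≤ ∫⁻ x, ‖h x‖ₑ := by
    refine (enorm_integral_le_lintegral_enorm _).trans (le_of_eq ?_)
    refine lintegral_congr fun x => ?_
    rw [enorm_mul, en_enorm, one_mul]
  have h2 : ∫⁻ x, ‖h x‖ₑ = ∫⁻ x in Icc (-1 : ℝ) 1, ‖h x‖ₑ := by
    rw [← lintegral_indicator measurableSet_Icc]
    refine lintegral_congr fun x => ?_
    by_cases hx : x ∈ Icc (-1 : ℝ) 1
    · rw [indicator_of_mem hx]
    · rw [indicator_of_notMem hx, hs x, enorm_zero]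
      by_contra hc
      exact hx (abs_le.1 (not_lt.1 hc))
  have h3 := ENNReal.lintegral_mul_le_Lp_mul_Lq (volume.restrict (Icc (-1 : ℝ) 1))
    Real.HolderConjugate.two_two (f := fun x => ‖h x‖ₑ) (g := fun _ => 1)
    hh.aestronglyMeasurable.enorm.restrict aemeasurable_const
  simp only [Pi.mul_apply, mul_one, ENNReal.one_rpow, lintegral_const,
    Measure.restrict_apply MeasurableSet.univ, univ_inter, Real.volume_Icc, one_mul] at h3
  have h4 : (∫⁻ x, ‖h x‖ₑ) ^ 2 ≤ 2 * ∫⁻ x in Icc (-1 : ℝ) 1, ‖h x‖ₑ ^ 2 := by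
    rw [h2]
    refine (pow_le_pow_left' h3 2).trans (le_of_eq ?_)
    have e2 : ∀ a : ℝ≥0∞, (a ^ (1 / 2 : ℝ)) ^ 2 = a := by
      intro a
      rw [← ENNReal.rpow_natCast, ← ENNReal.rpow_mul]
      norm_num
    rw [mul_pow, e2, e2]
    have e3 : ENNReal.ofReal (1 - -1) = 2 := by
      rw [show (1 - -1 : ℝ) = (2 : ℕ) by norm_num, ENNReal.ofReal_natCast]
      rfl
    rw [e3, mul_comm]
    congr 1
    refine lintegral_congr fun x => ?_
    rw [← ENNReal.rpow_natCast]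
    norm_num
  calc _ ≤ (∫⁻ x, ‖h x‖ₑ) ^ 2 := pow_le_pow_left' h1 2
    _ ≤ _ := h4
    _ ≤ _ := mul_le_mul' le_rfl (setLIntegral_le_lintegral _ _)

theorem real_ineq {b T κ : ℝ} (hb : b ≠ 0) (hT : 1 ≤ T) (h0 : 0 < κ) (h1 : κ < 1) :
    min (4 * T) (Real.pi / |b|) ≤ 4 * (T ^ κ * |b| ^ (κ - 1)) := by
  have hb' : 0 < |b| := abs_pos.2 hb
  have hT0 : 0 < T := by linarith
  have hpi : Real.pi ≤ 4 := Real.pi_le_four
  have e1 : |b| ^ (κ - 1) = (1 / |b|) ^ (1 - κ) := by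
    rw [one_div, Real.inv_rpow hb'.le, ← Real.rpow_neg hb'.le]
    congr 1
    ring
  rcases le_total T (1 / |b|) with h | h
  · refine (min_le_left _ _).trans ?_
    have e2 : T = T ^ κ * T ^ (1 - κ) := by
      rw [← Real.rpow_add hT0]
      simp
    have e3 : T ^ (1 - κ) ≤ (1 / |b|) ^ (1 - κ) :=
      Real.rpow_le_rpow hT0.le h (by linarith)
    have e4 : 0 ≤ T ^ κ := Real.rpow_nonneg hT0.le _
    calc 4 * T = 4 * (T ^ κ * T ^ (1 - κ)) := by rw [← e2]
      _ ≤ 4 * (T ^ κ * |b| ^ (κ - 1)) := by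
          rw [e1]
          have := mul_le_mul_of_nonneg_left e3 e4
          linarith
  · refine (min_le_right _ _).trans ?_
    have hi : 0 < 1 / |b| := by positivity
    have e2 : 1 / |b| = (1 / |b|) ^ κ * (1 / |b|) ^ (1 - κ) := by
      rw [← Real.rpow_add hi]
      simp
    have e3 : (1 / |b|) ^ κ ≤ T ^ κ := Real.rpow_le_rpow hi.le h h0.le
    have e4 : 0 ≤ (1 / |b|) ^ (1 - κ) := Real.rpow_nonneg hi.le _
    have e5 : Real.pi / |b| ≤ 4 * (1 / |b|) := by
      rw [mul_one_div]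
      gcongr
    calc Real.pi / |b| ≤ 4 * (1 / |b|) := e5
      _ = 4 * ((1 / |b|) ^ κ * (1 / |b|) ^ (1 - κ)) := by rw [← e2]
      _ ≤ 4 * (T ^ κ * |b| ^ (κ - 1)) := by
          rw [e1]
          have := mul_le_mul_of_nonneg_right e3 e4
          linarith

end Pool.Agent.J4.H87.AD.K1

namespace Pool.Agent.J4.H87.AD

open MeasureTheory Complex Set Filter Topology
open scoped ENNReal NNReal RealInnerProductSpace ComplexConjugate
open Pool.Agent.J4.H73.EX (E en)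

theorem t_K1 : S_K1 := by
  refine ⟨4, by norm_num, fun h hh hs b T κ hb hT h0 h1 => ?_⟩
  have a1 := (setLIntegral_le_lintegral (μ := volume) (Icc (-T) T)
    (fun t : ℝ => ‖∫ x : ℝ, en (2 * (x * b * t)) * h x‖ₑ ^ 2)).trans (K1.bound1 hh hb)
  have a2 : ∫⁻ t in Icc (-T) T, ‖∫ x : ℝ, en (2 * (x * b * t)) * h x‖ₑ ^ 2 ≤
      ENNReal.ofReal (4 * T) * ∫⁻ x, ‖h x‖ₑ ^ 2 := by
    calc _ ≤ ∫⁻ _ in Icc (-T) T, 2 * ∫⁻ x, ‖h x‖ₑ ^ 2 :=
          lintegral_mono fun t => K1.cs hh hs b t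
      _ = _ := by
          rw [setLIntegral_const, Real.volume_Icc, mul_comm, ← mul_assoc]
          congr 1
          rw [show (4 * T : ℝ) = (T - -T) * 2 by ring, ENNReal.ofReal_mul (by linarith)]
          congr 1
          simp
  refine le_trans ?_ (mul_le_mul' (ENNReal.ofReal_le_ofReal (K1.real_ineq hb hT h0 h1)) le_rfl)
  rcases min_choice (4 * T) (Real.pi / |b|) with h | h
  · rw [h]
    exact a2
  · rw [h]
    exact a1

end Pool.Agent.J4.H87.AD
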