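import Pool.Agent.J4.H87.AD.Defs

/-! # Piece K2: the two dimensional kernel lemma -/

set_option autoImplicit false

namespace Pool.Agent.J4.H87.AD

open MeasureTheory Complex Set Filter Topology
open scoped ENNReal NNReal RealInnerProductSpace ComplexConjugate
open Pool.Agent.J4.H73.EX (E en Ga en_add en_meas en_bdd)

namespace K2

/-- the coordinates -/
def e : E 2 ≃ᵐ ℝ × ℝ :=
  (MeasurableEquiv.toLp 2 (Fin 2 → ℝ)).symm.trans MeasurableEquiv.finTwoArrow

theorem e_apply (x : E 2) : e x = (x 0, x 1) := rfl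

theorem mp : MeasurePreserving (⇑e) (volume : Measure (E 2)) (volume : Measure (ℝ × ℝ)) :=
  (MeasureTheory.volume_preserving_finTwoArrow ℝ).comp
    (EuclideanSpace.volume_preserving_symm_measurableEquiv_toLp (Fin 2))

theorem symm_fst (p : ℝ × ℝ) : (e.symm p) 0 = p.1 := by
  have h := e_apply (e.symm p)
  rw [MeasurableEquiv.apply_symm_apply] at h
  exact (congrArg Prod.fst h).symm

theorem symm_snd (p : ℝ × ℝ) : (e.symm p) 1 = p.2 := by
  have h := e_apply (e.symm p)
  rw [MeasurableEquiv.apply_symm_apply] at h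
  exact (congrArg Prod.snd h).symm

theorem coord_le (x : E 2) (i : Fin 2) : |x i| ≤ ‖x‖ := by
  have := PiLp.norm_apply_le x i
  rwa [Real.norm_eq_abs] at this

/-- the partial transform -/
noncomputable def h (G : E 2 → ℂ) (b : E 2) (t v : ℝ) : ℂ :=
  ∫ u : ℝ, en (2 * (u * b 0 * t)) * G (e.symm (u, v))

theorem integrable_Gp {G : E 2 → ℂ} (hG : Integrable G) :
    Integrable (fun p : ℝ × ℝ => G (e.symm p)) (volume : Measure (ℝ × ℝ)) :=
  (mp.symm e).integrable_comp_of_integrable hG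

theorem stepA {G : E 2 → ℂ} (hG : Integrable G) (b : E 2) (t s : ℝ) :
    ∫ x : E 2, en (2 * (x 0 * b 0 * t + x 1 * b 1 * s)) * G x =
      ∫ v : ℝ, en (2 * (v * b 1 * s)) * h G b t v := by
  have h1 := mp.integral_comp e.measurableEmbedding
    (fun p : ℝ × ℝ => en (2 * (p.1 * b 0 * t + p.2 * b 1 * s)) * G (e.symm p))
  have h2 : (fun x : E 2 => en (2 * (x 0 * b 0 * t + x 1 * b 1 * s)) * G x) =
      fun x => (fun p : ℝ × ℝ => en (2 * (p.1 * b 0 * t + p.2 * b 1 * s)) * G (e.symm p)) (e x) := by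
    funext x
    simp only [MeasurableEquiv.symm_apply_apply]
    rfl
  rw [h2, h1, Measure.volume_eq_prod, integral_prod_symm]
  · refine integral_congr_ae (Eventually.of_forall fun v => ?_)
    simp only
    unfold h
    rw [← integral_const_mul]
    refine integral_congr_ae (Eventually.of_forall fun u => ?_)
    simp only
    rw [← mul_assoc, ← en_add]
    congr 2
    ring
  · rw [← Measure.volume_eq_prod]
    exact en_bdd (by fun_prop) (integrable_Gp hG)

theorem int_h {G : E 2 → ℂ} (hG : Integrable G) (b : E 2) (t : ℝ) : Integrable (h G b t) := by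
  have h1 : Integrable (fun p : ℝ × ℝ => en (2 * (p.1 * b 0 * t)) * G (e.symm p))
      ((volume : Measure ℝ).prod volume) := by
    rw [← Measure.volume_eq_prod]
    exact en_bdd (by fun_prop) (integrable_Gp hG)
  exact h1.integral_prod_right

theorem supp_h {G : E 2 → ℂ} (h0 : ∀ x, 1 < ‖x‖ → G x = 0) (b : E 2) (t v : ℝ) (hv : 1 < |v|) :
    h G b t v = 0 := by
  unfold h
  have : ∀ u : ℝ, en (2 * (u * b 0 * t)) * G (e.symm (u, v)) = 0 := by
    intro u
    rw [h0, mul_zero]
    refine hv.trans_le ?_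
    have := coord_le (e.symm (u, v)) 1
    rwa [symm_snd] at this
  simp_rw [this]
  exact integral_zero _ _

theorem meas_h {G : E 2 → ℂ} (hG : Measurable G) (b : E 2) :
    Measurable (Function.uncurry (h G b)) := by
  have h1 : StronglyMeasurable (Function.uncurry fun (p : ℝ × ℝ) (u : ℝ) =>
      en (2 * (u * b 0 * p.1)) * G (e.symm (u, p.2))) := by
    refine StronglyMeasurable.mul ?_ ?_
    · refine (en_meas.comp ?_).stronglyMeasurable
      fun_prop
    · have h2 : Measurable fun q : (ℝ × ℝ) × ℝ => G (e.symm (q.2, q.1.2)) :=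
        hG.comp (e.symm.measurable.comp (by fun_prop))
      exact h2.stronglyMeasurable
  exact h1.integral_prod_right.measurable

theorem stepE {G : E 2 → ℂ} (hG : Measurable G) :
    ∫⁻ v : ℝ, ∫⁻ u : ℝ, ‖G (e.symm (u, v))‖ₑ ^ 2 = ∫⁻ x : E 2, ‖G x‖ₑ ^ 2 := by
  have hm : Measurable fun p : ℝ × ℝ => ‖G (e.symm p)‖ₑ ^ 2 :=
    (hG.comp e.symm.measurable).enorm.pow_const 2
  have h1 := mp.lintegral_comp hm
  rw [Measure.volume_eq_prod, lintegral_prod_symm _ hm.aemeasurable] at h1
  rw [← h1]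
  refine lintegral_congr fun x => ?_
  rw [MeasurableEquiv.symm_apply_apply]

end K2

open K2 in
theorem t_K2 (h1 : S_K1) : S_K2 := by
  obtain ⟨C, hC, hK⟩ := h1
  refine ⟨C ^ 2, by positivity, ?_⟩
  intro G hGm hG h0 b hb0 hb1 T κ hT hκ hκ1
  have hT0 : 0 < T := by linarith
  calc ∫⁻ t in Icc (-T) T, ∫⁻ s in Icc (-T) T,
        ‖∫ x : E 2, en (2 * (x 0 * b 0 * t + x 1 * b 1 * s)) * G x‖ₑ ^ 2
      ≤ ∫⁻ t in Icc (-T) T, ENNReal.ofReal (C * (T ^ κ * |b 1| ^ (κ - 1))) *
          ∫⁻ v, ‖h G b t v‖ₑ ^ 2 := by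
        refine lintegral_mono fun t => ?_
        simp_rw [stepA hG b t]
        exact hK (h G b t) (int_h hG b t) (fun v hv => supp_h h0 b t v hv) (b 1) T κ hb1 hT hκ hκ1
    _ = ENNReal.ofReal (C * (T ^ κ * |b 1| ^ (κ - 1))) *
          ∫⁻ t in Icc (-T) T, ∫⁻ v, ‖h G b t v‖ₑ ^ 2 :=
        lintegral_const_mul' _ _ ENNReal.ofReal_ne_top
    _ = ENNReal.ofReal (C * (T ^ κ * |b 1| ^ (κ - 1))) *
          ∫⁻ v, ∫⁻ t in Icc (-T) T, ‖h G b t v‖ₑ ^ 2 := by
        congr 1
        refine lintegral_lintegral_swap ?_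
        exact ((meas_h hGm b).enorm.pow_const 2).aemeasurable
    _ ≤ ENNReal.ofReal (C * (T ^ κ * |b 1| ^ (κ - 1))) *
          ∫⁻ v, ENNReal.ofReal (C * (T ^ κ * |b 0| ^ (κ - 1))) *
            ∫⁻ u, ‖G (e.symm (u, v))‖ₑ ^ 2 := by
        refine mul_le_mul' le_rfl ?_
        have hi : Integrable (fun p : ℝ × ℝ => G (e.symm p))
            ((volume : Measure ℝ).prod volume) := by
          rw [← Measure.volume_eq_prod]
          exact integrable_Gp hG
        refine lintegral_mono_ae ?_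
        filter_upwards [hi.prod_left_ae] with v hv
        exact hK (fun u => G (e.symm (u, v))) hv (fun u hu => h0 _ (by
          refine hu.trans_le ?_
          have := coord_le (e.symm (u, v)) 0
          rwa [symm_fst] at this)) (b 0) T κ hb0 hT hκ hκ1
    _ = ENNReal.ofReal (C ^ 2 * (T ^ (2 * κ) * (|b 0| ^ (κ - 1) * |b 1| ^ (κ - 1)))) *
          ∫⁻ x, ‖G x‖ₑ ^ 2 := by
        rw [lintegral_const_mul' _ _ ENNReal.ofReal_ne_top, stepE hGm, ← mul_assoc,
          ← ENNReal.ofReal_mul (by positivity)]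
        congr 2
        rw [show (2 : ℝ) * κ = κ + κ by ring, Real.rpow_add hT0]
        ring

end Pool.Agent.J4.H87.AD
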