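import Pool.Agent.J4.H87.AD.Defs

/-!
# Project AD: the `L²` inequality, measurability, the `L⁴` identity
-/

set_option autoImplicit false

namespace Pool.Agent.J4.H87.AD

open MeasureTheory Complex Set Filter Topology
open scoped ENNReal NNReal RealInnerProductSpace ComplexConjugate
open Pool.Agent.J4.H73.EX (E en Ga planch_n en_add en_bdd en_norm en_meas en_enorm en_conj en_zero)

theorem t_L2 : S_L2 := by
  intro g hg t s
  have h := planch_n (fun x => en (x 0 ^ 2 * t + x 1 ^ 2 * s) * g x) (en_bdd (by fun_prop) hg)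
  have h1 : ∀ y : E 2, Y g t s y =
      ∫ x, en ⟪x, y⟫ * (en (x 0 ^ 2 * t + x 1 ^ 2 * s) * g x) := by
    intro y
    unfold Y
    congr 1
    ext x
    rw [en_add, mul_assoc]
  simp_rw [h1]
  refine h.trans (le_of_eq ?_)
  congr 1
  refine lintegral_congr fun x => ?_
  rw [enorm_mul, en_enorm, one_mul]

theorem t_MEAS : S_MEAS := by
  intro g hg
  obtain ⟨g', hg', hgg⟩ := hg
  have h1 : (fun p : (ℝ × ℝ) × E 2 => Y g p.1.1 p.1.2 p.2) =
      fun p : (ℝ × ℝ) × E 2 => Y g' p.1.1 p.1.2 p.2 := by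
    ext p
    unfold Y
    refine integral_congr_ae ?_
    filter_upwards [hgg] with x hx
    rw [hx]
  rw [h1]
  unfold Y
  have : StronglyMeasurable (Function.uncurry fun (p : (ℝ × ℝ) × E 2) (x : E 2) =>
      en (⟪x, p.2⟫ + (x 0 ^ 2 * p.1.1 + x 1 ^ 2 * p.1.2)) * g' x) := by
    refine StronglyMeasurable.mul ?_ (hg'.comp_measurable measurable_snd)
    refine (en_meas.comp ?_).stronglyMeasurable
    fun_prop
  exact this.integral_prod_right.measurable

theorem t_ID4 : S_ID4 := by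
  intro g hg t s
  let Q : E 2 → ℝ := fun x => x 0 ^ 2 * t + x 1 ^ 2 * s
  have hQm : Measurable Q := by fun_prop
  have hQ : ∀ x b : E 2, Q x - Q (x - b) = 2 * (x 0 * b 0 * t + x 1 * b 1 * s) - Q b := by
    intro x b
    show x 0 ^ 2 * t + x 1 ^ 2 * s - ((x 0 - b 0) ^ 2 * t + (x 1 - b 1) ^ 2 * s) = _
    show _ = 2 * (x 0 * b 0 * t + x 1 * b 1 * s) - (b 0 ^ 2 * t + b 1 ^ 2 * s)
    ring
  have hY : ∀ y : E 2, Y g t s y = ∫ x, en (⟪x, y⟫ + Q x) * g x := fun y => rfl
  set B : E 2 → ℂ := fun b => en (-(Q b)) *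
    ∫ x : E 2, en (2 * (x 0 * b 0 * t + x 1 * b 1 * s)) * Ga g b x with hB
  have hF : ∀ y : E 2, Integrable (fun x => en (⟪x, y⟫ + Q x) * g x) := fun y =>
    en_bdd (by fun_prop) hg
  have hG : ∀ y : E 2, Integrable (fun z => conj (en (⟪-z, y⟫ + Q (-z)) * g (-z))) := fun y =>
    (Complex.conjLIE.toContinuousLinearEquiv.integrable_comp_iff).2 (hF y).comp_neg
  have hconv : ∀ y b : E 2, (∫ x, (en (⟪x, y⟫ + Q x) * g x) *
      conj (en (⟪-(b - x), y⟫ + Q (-(b - x))) * g (-(b - x)))) = en ⟪b, y⟫ * B b := by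
    intro y b
    rw [hB]
    simp only
    rw [← mul_assoc, ← en_add, ← integral_const_mul]
    congr 1
    ext x
    unfold Ga
    rw [neg_sub, map_mul, en_conj]
    rw [show en (⟪b, y⟫ + -(Q b)) * (en (2 * (x 0 * b 0 * t + x 1 * b 1 * s)) *
        (g x * conj (g (x - b)))) =
      (en (⟪b, y⟫ + -(Q b)) * en (2 * (x 0 * b 0 * t + x 1 * b 1 * s))) *
        (g x * conj (g (x - b))) by ring]
    rw [show en (⟪x, y⟫ + Q x) * g x *
      (en (-(⟪x - b, y⟫ + Q (x - b))) * conj (g (x - b))) =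
      (en (⟪x, y⟫ + Q x) * en (-(⟪x - b, y⟫ + Q (x - b)))) *
        (g x * conj (g (x - b))) by ring]
    rw [← en_add, ← en_add]
    congr 2
    rw [inner_sub_left]
    have := hQ x b
    linarith
  have hkey : ∀ y : E 2, Y g t s y * conj (Y g t s y) = ∫ b, en ⟪b, y⟫ * B b := by
    intro y
    have h := integral_convolution (L := ContinuousLinearMap.mul ℝ ℂ) (μ := volume) (ν := volume)
      (hF y) (hG y)
    simp only [convolution, ContinuousLinearMap.mul_apply'] at h
    simp_rw [hconv y] at h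
    rw [h]
    rw [hY]
    congr 1
    rw [integral_neg_eq_self (fun z => conj (en (⟪z, y⟫ + Q z) * g z)), integral_conj]
  have hBi : Integrable B := by
    have h := (hF 0).integrable_convolution (L := ContinuousLinearMap.mul ℝ ℂ) (hG 0)
    refine h.congr (Eventually.of_forall fun b => ?_)
    simp only [convolution, ContinuousLinearMap.mul_apply']
    rw [hconv 0 b, inner_zero_right, en_zero, one_mul]
  have h := planch_n B hBi
  calc ∫⁻ y, ‖Y g t s y‖ₑ ^ 4 = ∫⁻ y, ‖∫ b, en ⟪b, y⟫ * B b‖ₑ ^ 2 := by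
        refine lintegral_congr fun y => ?_
        rw [← hkey y, enorm_mul]
        have : ‖conj (Y g t s y)‖ₑ = ‖Y g t s y‖ₑ := by
          rw [← ofReal_norm, ← ofReal_norm, RCLike.norm_conj]
        rw [this]
        ring
    _ ≤ ENNReal.ofReal ((2 * Real.pi) ^ 2) * ∫⁻ b, ‖B b‖ₑ ^ 2 := h
    _ = _ := by
        congr 1
        refine lintegral_congr fun b => ?_
        rw [hB]
        simp only
        rw [enorm_mul, en_enorm, one_mul]

end Pool.Agent.J4.H87.AD
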