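import Pool.Agent.J4.H87.AD.Defs
import Pool.Agent.J4.H73.EX.KInt

/-! The `L⁴` inequality of project AD from the identity ID4 and the kernel lemma K2. -/

set_option autoImplicit false

namespace Pool.Agent.J4.H87.AD.L4

open MeasureTheory Complex Set Filter Topology
open scoped ENNReal NNReal RealInnerProductSpace ComplexConjugate
open Pool.Agent.J4.H73.EX (E en Ga en_meas en_norm lint_two pow_near meas_near)

theorem sq_le (a : ℝ≥0∞) : a ^ 2 ≤ 1 + a ^ 4 := by
  rcases le_total a 1 with h | h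
  · exact (pow_le_one₀ zero_le h).trans le_self_add
  · exact (pow_le_pow_right₀ h (by norm_num)).trans le_add_self

theorem mul_le (a b : ℝ≥0∞) : a * b ≤ a ^ 2 + b ^ 2 := by
  rcases le_total a b with h | h
  · calc a * b ≤ b * b := by gcongr
      _ = b ^ 2 := (sq b).symm
      _ ≤ _ := le_add_self
  · calc a * b ≤ a * a := by gcongr
      _ = a ^ 2 := (sq a).symm
      _ ≤ _ := le_self_add

/-- the norm of the correlation -/
theorem enorm_Ga (g : E 2 → ℂ) (b x : E 2) : ‖Ga g b x‖ₑ = ‖g x‖ₑ * ‖g (x - b)‖ₑ := by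
  unfold Ga
  rw [enorm_mul]
  congr 1
  rw [← ofReal_norm, ← ofReal_norm, RCLike.norm_conj]

theorem Ga_meas {g : E 2 → ℂ} (hg : Measurable g) (b : E 2) : Measurable (Ga g b) := by
  unfold Ga
  exact hg.mul (Complex.continuous_conj.measurable.comp (hg.comp (measurable_id.sub_const b)))

theorem two_lt_top {g : E 2 → ℂ} (hg : Go g) (h4 : ∫⁻ x, ‖g x‖ₑ ^ 4 ≠ ⊤) :
    ∫⁻ x, ‖g x‖ₑ ^ 2 ≠ ⊤ := by
  have h1 : ∫⁻ x, ‖g x‖ₑ ^ 2 ≤
      ∫⁻ x, (Metric.closedBall (0 : E 2) (1 / 2)).indicator (fun _ => 1) x + ‖g x‖ₑ ^ 4 := by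
    refine lintegral_mono fun x => ?_
    by_cases h : x ∈ Metric.closedBall (0 : E 2) (1 / 2)
    · simp only [indicator_of_mem h]
      exact sq_le _
    · rw [mem_closedBall_zero_iff, not_le] at h
      simp [hg.2.2 x h]
  refine ne_top_of_le_ne_top ?_ h1
  rw [lintegral_add_left (measurable_const.indicator Metric.isClosed_closedBall.measurableSet),
    lintegral_indicator Metric.isClosed_closedBall.measurableSet, setLIntegral_const, one_mul]
  exact ENNReal.add_ne_top.2 ⟨(measure_closedBall_lt_top).ne, h4⟩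

theorem Ga_int {g : E 2 → ℂ} (hg : Go g) (h2 : ∫⁻ x, ‖g x‖ₑ ^ 2 ≠ ⊤) (b : E 2) :
    Integrable (Ga g b) := by
  refine ⟨(Ga_meas hg.1 b).aestronglyMeasurable, ?_⟩
  rw [hasFiniteIntegral_def]
  refine lt_of_le_of_lt (b := ∫⁻ x, (‖g x‖ₑ ^ 2 + ‖g (x - b)‖ₑ ^ 2)) ?_ ?_
  · refine lintegral_mono fun x => ?_
    rw [enorm_Ga]
    exact mul_le _ _
  · rw [lintegral_add_left (hg.1.enorm.pow_const 2),
      lintegral_sub_right_eq_self (fun x => ‖g x‖ₑ ^ 2) b]
    exact (ENNReal.add_ne_top.2 ⟨h2, h2⟩).lt_top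

theorem Ga_zero {g : E 2 → ℂ} (hg : Go g) (b x : E 2) (hx : 1 < ‖x‖) : Ga g b x = 0 := by
  unfold Ga
  rw [hg.2.2 x (by linarith), zero_mul]

theorem Ga_zero' {g : E 2 → ℂ} (hg : Go g) (b : E 2) (hb : 1 < ‖b‖) (x : E 2) :
    Ga g b x = 0 := by
  unfold Ga
  by_cases h : 1 / 2 < ‖x‖
  · rw [hg.2.2 x h, zero_mul]
  · rw [hg.2.2 (x - b), map_zero, mul_zero]
    have h1 : ‖b‖ ≤ ‖x‖ + ‖x - b‖ := by
      calc ‖b‖ = ‖x - (x - b)‖ := by rw [sub_sub_cancel]
        _ ≤ _ := norm_sub_le _ _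
    linarith

theorem Ga_two {g : E 2 → ℂ} (hg : Go g) (b : E 2) :
    ∫⁻ x, ‖Ga g b x‖ₑ ^ 2 ≤ 2 * ∫⁻ x, ‖g x‖ₑ ^ 4 := by
  calc ∫⁻ x, ‖Ga g b x‖ₑ ^ 2 ≤ ∫⁻ x, (‖g x‖ₑ ^ 4 + ‖g (x - b)‖ₑ ^ 4) := by
        refine lintegral_mono fun x => ?_
        rw [enorm_Ga, mul_pow]
        refine (mul_le _ _).trans (le_of_eq ?_)
        rw [← pow_mul, ← pow_mul]
    _ = _ := by
        rw [lintegral_add_left (hg.1.enorm.pow_const 4),
          lintegral_sub_right_eq_self (fun x => ‖g x‖ₑ ^ 4) b, two_mul]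

/-- the kernel of ID4 -/
noncomputable def Kf (g : E 2 → ℂ) (t s : ℝ) (b : E 2) : ℝ≥0∞ :=
  ‖∫ x : E 2, en (2 * (x 0 * b 0 * t + x 1 * b 1 * s)) * Ga g b x‖ₑ ^ 2

theorem Kf_meas {g : E 2 → ℂ} (hg : Measurable g) :
    Measurable (fun p : (ℝ × E 2) × ℝ => Kf g p.1.1 p.2 p.1.2) := by
  unfold Kf
  refine Measurable.pow_const (Measurable.enorm ?_) 2
  have : StronglyMeasurable (Function.uncurry fun (p : (ℝ × E 2) × ℝ) (x : E 2) =>
      en (2 * (x 0 * p.1.2 0 * p.1.1 + x 1 * p.1.2 1 * p.2)) * Ga g p.1.2 x) := by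
    refine StronglyMeasurable.mul ?_ ?_
    · refine (en_meas.comp ?_).stronglyMeasurable
      fun_prop
    · unfold Ga
      refine Measurable.stronglyMeasurable ?_
      refine (hg.comp measurable_snd).mul (Complex.continuous_conj.measurable.comp (hg.comp ?_))
      fun_prop
  exact this.integral_prod_right.measurable

/-- almost every point has nonzero coordinates -/
theorem ae_coord : ∀ᵐ b : E 2, b 0 ≠ 0 ∧ b 1 ≠ 0 := by
  have hm : Measurable (Function.uncurry fun s t : ℝ => (if s = 0 ∨ t = 0 then (1 : ℝ≥0∞) else 0)) := by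
    refine Measurable.ite ?_ measurable_const measurable_const
    exact (measurableSet_eq_fun measurable_fst measurable_const).union
      (measurableSet_eq_fun measurable_snd measurable_const)
  have h1 := lint_two (fun s t : ℝ => if s = 0 ∨ t = 0 then (1 : ℝ≥0∞) else 0) hm
  have h2 : ∫⁻ s : ℝ, ∫⁻ t : ℝ, (if s = 0 ∨ t = 0 then (1 : ℝ≥0∞) else 0) = 0 := by
    refine (lintegral_eq_zero_iff' (Measurable.lintegral_prod_right' hm).aemeasurable).2 ?_
    have h3 : ∀ᵐ s : ℝ, s ≠ 0 := by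
      rw [ae_iff]; simp
    filter_upwards [h3] with s hs
    have h4 : ∫⁻ t : ℝ, (if s = 0 ∨ t = 0 then (1 : ℝ≥0∞) else 0) = ∫⁻ t : ℝ, 0 := by
      refine lintegral_congr_ae ?_
      have h5 : ∀ᵐ t : ℝ, t ≠ 0 := by
        rw [ae_iff]; simp
      filter_upwards [h5] with t ht
      simp [hs, ht]
    refine h4.trans ?_
    simp
  rw [h2] at h1
  have hm2 : Measurable fun x : E 2 => (if x 0 = 0 ∨ x 1 = 0 then (1 : ℝ≥0∞) else 0) :=
    hm.comp (f := fun x : E 2 => (x 0, x 1)) (by fun_prop)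
  rw [lintegral_eq_zero_iff hm2] at h1
  filter_upwards [h1] with b hb
  by_contra hcon
  rw [not_and_or, not_ne_iff, not_ne_iff] at hcon
  simp [hcon] at hb

end Pool.Agent.J4.H87.AD.L4

namespace Pool.Agent.J4.H87.AD

open MeasureTheory Complex Set Filter Topology
open scoped ENNReal NNReal RealInnerProductSpace ComplexConjugate
open Pool.Agent.J4.H73.EX (E en Ga en_meas en_norm lint_two pow_near meas_near)
open L4

theorem t_L4 (hID : S_ID4) (hK : S_K2) : S_L4 := by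
  intro κ hκ0 hκ1
  obtain ⟨C0, hC0, hK⟩ := hK
  have hpi := Real.pi_pos
  refine ⟨(2 * Real.pi) ^ 2 * (C0 * ((2 / κ) * (2 / κ)) * 2), by positivity, ?_⟩
  intro T hT g hg
  have hTpos : 0 < T := by linarith
  by_cases h4 : ∫⁻ x, ‖g x‖ₑ ^ 4 = ⊤
  · rw [h4, ENNReal.mul_top]
    · exact le_top
    · rw [Ne, ENNReal.ofReal_eq_zero, not_le]
      positivity
  have h2 := two_lt_top hg h4
  -- measurability
  have hKm := Kf_meas hg.1
  have hm1 : ∀ t : ℝ, Measurable (Function.uncurry fun (s : ℝ) (b : E 2) => Kf g t s b) := fun t =>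
    hKm.comp (f := fun p : ℝ × E 2 => ((t, p.2), p.1)) (by fun_prop)
  have hm2 : Measurable (Function.uncurry fun (t : ℝ) (b : E 2) =>
      ∫⁻ s in Icc (-T) T, Kf g t s b) :=
    Measurable.lintegral_prod_right' (ν := volume.restrict (Icc (-T) T)) hKm
  set c : ℝ≥0∞ := ENNReal.ofReal (C0 * T ^ (2 * κ)) * (2 * ∫⁻ x, ‖g x‖ₑ ^ 4) with hc
  set w : ℝ → ℝ≥0∞ := fun s => if |s| ≤ 1 then ENNReal.ofReal |s| ^ (-(1 - κ)) else 0 with hw
  have hwm : Measurable w := meas_near (1 - κ) 1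
  have hw1 : ∫⁻ s, w s ≤ ENNReal.ofReal (2 / κ) := by
    refine (pow_near (1 - κ) 1 (by linarith) zero_le_one).trans (le_of_eq ?_)
    rw [Real.one_rpow]
    congr 1
    rw [show 1 - (1 - κ) = κ by ring, mul_one]
  have hae : ∀ᵐ b : E 2, (∫⁻ t in Icc (-T) T, ∫⁻ s in Icc (-T) T, Kf g t s b) ≤
      c * (w (b 0) * w (b 1)) := by
    filter_upwards [ae_coord] with b hb
    by_cases hb1 : 1 < ‖b‖
    · have : ∀ t s : ℝ, Kf g t s b = 0 := by
        intro t s
        unfold Kf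
        simp [Ga_zero' hg b hb1]
      simp [this]
    · rw [not_lt] at hb1
      have hb0' : |b 0| ≤ 1 := by
        have := PiLp.norm_apply_le b 0
        rw [Real.norm_eq_abs] at this
        exact this.trans hb1
      have hb1' : |b 1| ≤ 1 := by
        have := PiLp.norm_apply_le b 1
        rw [Real.norm_eq_abs] at this
        exact this.trans hb1
      have h := hK (Ga g b) (Ga_meas hg.1 b) (Ga_int hg h2 b) (fun x hx => Ga_zero hg b x hx)
        b hb.1 hb.2 T κ hT hκ0 hκ1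
      have e0 : 0 < |b 0| := abs_pos.2 hb.1
      have e1 : 0 < |b 1| := abs_pos.2 hb.2
      have hww : w (b 0) * w (b 1) = ENNReal.ofReal (|b 0| ^ (κ - 1) * |b 1| ^ (κ - 1)) := by
        simp only [hw]
        rw [if_pos hb0', if_pos hb1', ENNReal.ofReal_rpow_of_pos e0, ENNReal.ofReal_rpow_of_pos e1,
          ← ENNReal.ofReal_mul (by positivity), show -(1 - κ) = κ - 1 by ring]
      calc (∫⁻ t in Icc (-T) T, ∫⁻ s in Icc (-T) T, Kf g t s b) ≤ _ := h
        _ ≤ ENNReal.ofReal (C0 * (T ^ (2 * κ) * (|b 0| ^ (κ - 1) * |b 1| ^ (κ - 1)))) *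
            (2 * ∫⁻ x, ‖g x‖ₑ ^ 4) := mul_le_mul_right (Ga_two hg b) _
        _ = c * (w (b 0) * w (b 1)) := by
            rw [hww, hc, ← mul_assoc C0, ENNReal.ofReal_mul (by positivity)]
            ring
  calc ∫⁻ t in Icc (-T) T, ∫⁻ s in Icc (-T) T, ∫⁻ y, ‖Y g t s y‖ₑ ^ 4
      ≤ ∫⁻ t in Icc (-T) T, ∫⁻ s in Icc (-T) T, ENNReal.ofReal ((2 * Real.pi) ^ 2) *
          ∫⁻ b : E 2, Kf g t s b :=
        lintegral_mono fun t => lintegral_mono fun s => hID g hg.2.1 t s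
    _ = ENNReal.ofReal ((2 * Real.pi) ^ 2) *
          ∫⁻ t in Icc (-T) T, ∫⁻ s in Icc (-T) T, ∫⁻ b : E 2, Kf g t s b := by
        rw [← lintegral_const_mul' _ _ ENNReal.ofReal_ne_top]
        refine lintegral_congr fun t => ?_
        rw [← lintegral_const_mul' _ _ ENNReal.ofReal_ne_top]
    _ = ENNReal.ofReal ((2 * Real.pi) ^ 2) *
          ∫⁻ b : E 2, ∫⁻ t in Icc (-T) T, ∫⁻ s in Icc (-T) T, Kf g t s b := by
        congr 1
        rw [← lintegral_lintegral_swap hm2.aemeasurable]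
        refine lintegral_congr fun t => ?_
        exact lintegral_lintegral_swap (hm1 t).aemeasurable
    _ ≤ ENNReal.ofReal ((2 * Real.pi) ^ 2) * ∫⁻ b : E 2, c * (w (b 0) * w (b 1)) :=
        mul_le_mul_right (lintegral_mono_ae hae) _
    _ ≤ ENNReal.ofReal ((2 * Real.pi) ^ 2) *
          (c * (ENNReal.ofReal (2 / κ) * ENNReal.ofReal (2 / κ))) := by
        refine mul_le_mul_right ?_ _
        have hwb : Measurable fun b : E 2 => w (b 0) * w (b 1) :=
          (hwm.comp (by fun_prop)).mul (hwm.comp (by fun_prop))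
        rw [lintegral_const_mul _ hwb]
        refine mul_le_mul_right ?_ _
        have := lint_two (fun s t => w s * w t)
          ((hwm.comp measurable_fst).mul (hwm.comp measurable_snd))
        rw [this]
        calc ∫⁻ s, ∫⁻ t, w s * w t = ∫⁻ s, w s * ∫⁻ t, w t :=
              lintegral_congr fun s => lintegral_const_mul _ hwm
          _ = (∫⁻ s, w s) * ∫⁻ t, w t := lintegral_mul_const _ hwm
          _ ≤ _ := mul_le_mul' hw1 hw1
    _ = _ := by
        rw [hc]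
        generalize (∫⁻ x, ‖g x‖ₑ ^ 4) = I4
        rw [show (2 : ℝ≥0∞) = ENNReal.ofReal 2 by norm_num]
        rw [show ENNReal.ofReal ((2 * Real.pi) ^ 2) * (ENNReal.ofReal (C0 * T ^ (2 * κ)) *
          (ENNReal.ofReal 2 * I4) *
            (ENNReal.ofReal (2 / κ) * ENNReal.ofReal (2 / κ))) =
          (ENNReal.ofReal ((2 * Real.pi) ^ 2) * (ENNReal.ofReal (C0 * T ^ (2 * κ)) *
          ENNReal.ofReal 2 * (ENNReal.ofReal (2 / κ) * ENNReal.ofReal (2 / κ)))) * I4 by ring]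
        congr 1
        have hT' : 0 < T ^ (2 * κ) := by positivity
        rw [← ENNReal.ofReal_mul (by positivity), ← ENNReal.ofReal_mul (by positivity),
          ← ENNReal.ofReal_mul (by positivity), ← ENNReal.ofReal_mul (by positivity)]
        congr 1
        ring

end Pool.Agent.J4.H87.AD
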