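import Pool.Agent.J4.H87.AD.Defs2

/-! Project AD, piece MAT: almost every linear map. -/

set_option autoImplicit false

namespace Pool.Agent.J4.H87.AD.MAT

open MeasureTheory Complex Set Filter Topology
open scoped ENNReal NNReal RealInnerProductSpace ComplexConjugate
open Pool.Agent.J4.H73.EX (E en Ga)
open Pool.Agent.J4.H87.AD

/-- the linear map with columns `u`, `v` -/
noncomputable def lin (u v : E 2) : E 2 →ₗ[ℝ] E 2 where
  toFun := fun x => x 0 • u + x 1 • v
  map_add' := by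
    intro x y
    simp only [PiLp.add_apply, add_smul]
    abel
  map_smul' := by
    intro c x
    simp only [PiLp.smul_apply, smul_eq_mul, mul_smul, smul_add, RingHom.id_apply]

theorem lin_apply (u v x : E 2) : lin u v x = x 0 • u + x 1 • v := rfl

theorem lin_ker {u v : E 2} (hu : u ≠ 0) (hv : v ∉ Submodule.span ℝ {u}) :
    LinearMap.ker (lin u v) = ⊥ := by
  rw [LinearMap.ker_eq_bot']
  intro x hx
  have hx' : x 0 • u + x 1 • v = 0 := hx
  have h1 : x 1 = 0 := by
    by_contra h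
    apply hv
    rw [Submodule.mem_span_singleton]
    refine ⟨(x 1)⁻¹ * (-(x 0)), ?_⟩
    have h2 : x 1 • v = -(x 0 • u) := by
      rw [eq_neg_iff_add_eq_zero, add_comm]
      exact hx'
    calc ((x 1)⁻¹ * (-(x 0))) • u = (x 1)⁻¹ • (-(x 0 • u)) := by rw [mul_smul, neg_smul]
      _ = (x 1)⁻¹ • (x 1 • v) := by rw [h2]
      _ = v := by rw [smul_smul, inv_mul_cancel₀ h, one_smul]
  have h0 : x 0 = 0 := by
    rw [h1, zero_smul, add_zero] at hx'
    exact (smul_eq_zero.1 hx').resolve_right hu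
  ext i
  fin_cases i
  · exact h0
  · exact h1

theorem det_ne {A : E 2 →ₗ[ℝ] E 2} (hA : LinearMap.ker A = ⊥) : LinearMap.det A ≠ 0 := by
  intro h
  have h1 := LinearMap.bot_lt_ker_of_det_eq_zero h
  rw [hA] at h1
  exact lt_irrefl _ h1

theorem memLp_comp {f : E 2 → ℂ} {p : ℝ≥0∞} (hf : MemLp f p volume) (hm : Measurable f)
    (A : E 2 →ₗ[ℝ] E 2) (hA : LinearMap.det A ≠ 0) : MemLp (fun x => f (A x)) p volume := by
  have h1 : Measure.map A volume =
      ENNReal.ofReal |(LinearMap.det A)⁻¹| • (volume : Measure (E 2)) :=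
    Measure.map_linearMap_addHaar_eq_smul_addHaar volume hA
  have hAm : Measurable A := A.continuous_of_finiteDimensional.measurable
  have h2 : MemLp f p (Measure.map A volume) := by
    rw [h1]
    exact hf.smul_measure ENNReal.ofReal_ne_top
  exact (memLp_map_measure_iff hm.aestronglyMeasurable hAm.aemeasurable).1 h2

theorem D1_smul (l c : ℝ) (x : E 2) : D1 l (c • x) = c • D1 l x := by
  ext i
  fin_cases i
  · simp [D1]
  · simp [D1]; ring

theorem norm_D1 {l : ℝ} (hl : 1 ≤ l) (x : E 2) : ‖x‖ ≤ ‖D1 l x‖ := by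
  rw [EuclideanSpace.norm_eq, EuclideanSpace.norm_eq]
  apply Real.sqrt_le_sqrt
  simp only [Fin.sum_univ_two, D1]
  have h1 : ‖x 1‖ ≤ ‖l * x 1‖ := by
    rw [norm_mul, Real.norm_of_nonneg (by linarith : (0 : ℝ) ≤ l)]
    nlinarith [norm_nonneg (x 1)]
  have h2 : ‖x 1‖ ^ 2 ≤ ‖l * x 1‖ ^ 2 := pow_le_pow_left₀ (norm_nonneg _) h1 2
  simpa using h2

theorem lin_D1 (u v x : E 2) (l : ℝ) : lin u v (D1 l x) = x 0 • u + x 1 • (l • v) := by
  rw [lin_apply, smul_smul, mul_comm (x 1) l]
  simp [D1]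

theorem ae_l (h : S_SCA) {q : ℝ} (hq : 3 < q)
    (H : ∀ g : E 2 → ℂ, Measurable g → (∀ x, x ∉ Metric.ball (0 : E 2) (1 / 2) → g x = 0) →
      MemLp g (ENNReal.ofReal q) volume →
      ∀ᵐ l ∂(volume.restrict (Icc (1 : ℝ) 2)),
        MemLp (ext fun x => g (D1 l x)) (ENNReal.ofReal q) volume)
    {f : E 2 → ℂ} (hm : Measurable f) (hc : HasCompactSupport f)
    (hf : MemLp f (ENNReal.ofReal q) volume) {u v : E 2} (hu : u ≠ 0)
    (hv : v ∉ Submodule.span ℝ {u}) :
    ∀ᵐ l ∂(volume.restrict (Icc (1 : ℝ) 2)),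
      MemLp (extR fun x => f (x 0 • u + x 1 • (l • v))) (ENNReal.ofReal q) volume := by
  have hker := lin_ker hu hv
  have hAm : Measurable (lin u v) := (lin u v).continuous_of_finiteDimensional.measurable
  obtain ⟨K, hK, hanti⟩ := LinearMap.exists_antilipschitzWith (lin u v) hker
  obtain ⟨M, hM⟩ := hc.isCompact.isBounded.exists_norm_le
  have hR : ∃ R : ℝ, 0 < R ∧ ∀ x : E 2, R ≤ ‖x‖ → f (lin u v x) = 0 := by
    refine ⟨K * (|M| + 1) + 1, by positivity, ?_⟩
    intro x hx
    apply image_eq_zero_of_notMem_tsupport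
    intro hmem
    have h1 := hM _ hmem
    have h2 := hanti.le_mul_dist x 0
    rw [map_zero, dist_zero_right, dist_zero_right] at h2
    have h3 : (K : ℝ) * ‖lin u v x‖ ≤ K * |M| :=
      mul_le_mul_of_nonneg_left (h1.trans (le_abs_self M)) K.2
    have h4 : (0 : ℝ) ≤ K := K.2
    nlinarith
  obtain ⟨R, hR0, hRz⟩ := hR
  have hmem0 : MemLp (fun x => f (lin u v x)) (ENNReal.ofReal q) volume :=
    memLp_comp hf hm _ (det_ne hker)
  have hm0 : Measurable (fun x => f (lin u v x)) := hm.comp hAm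
  have hS : LinearMap.det ((2 * R) • (LinearMap.id : E 2 →ₗ[ℝ] E 2)) ≠ 0 := by
    rw [LinearMap.det_smul, LinearMap.det_id, mul_one]
    exact pow_ne_zero _ (by positivity)
  have hmem1 := memLp_comp hmem0 hm0 _ hS
  have hm1 : Measurable (fun x : E 2 => f (lin u v ((2 * R) • x))) :=
    hm0.comp (measurable_const_smul (2 * R))
  have hz1 : ∀ x : E 2, x ∉ Metric.ball (0 : E 2) (1 / 2) → f (lin u v ((2 * R) • x)) = 0 := by
    intro x hx
    apply hRz
    rw [mem_ball_zero_iff, not_lt] at hx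
    rw [norm_smul, Real.norm_of_nonneg (by positivity : (0 : ℝ) ≤ 2 * R)]
    nlinarith
  have hae := H (fun x => f (lin u v ((2 * R) • x))) hm1 hz1 hmem1
  filter_upwards [hae, ae_restrict_mem measurableSet_Icc] with l hl hl2
  have h5 : MemLp (ext fun x => (fun y => f (lin u v (D1 l y))) ((2 * R) • x))
      (ENNReal.ofReal q) volume := by
    have h6 : (fun x => f (lin u v ((2 * R) • D1 l x))) =
        fun x => (fun y => f (lin u v (D1 l y))) ((2 * R) • x) := by
      funext x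
      show _ = f (lin u v (D1 l ((2 * R) • x)))
      rw [D1_smul]
    rw [← h6]
    exact hl
  have h7 := h (fun y => f (lin u v (D1 l y))) R q hR0 (by linarith) (by
    intro x hx
    apply hRz
    rw [mem_ball_zero_iff, not_lt] at hx
    exact hx.trans (norm_D1 hl2.1 x)) h5
  simp_rw [lin_D1] at h7
  exact h7

theorem cont_Phi : Continuous Phi := by
  unfold Phi
  refine (PiLp.continuous_toLp 2 _).comp (continuous_pi fun i => ?_)
  fin_cases i
  · simp; fun_prop
  · simp; fun_prop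
  · simp; fun_prop

theorem meas_ext {f : E 2 → ℂ} (hm : Measurable f) :
    Measurable (fun z : (E 2 × E 2) × E 3 =>
      extR (fun x => f (x 0 • z.1.1 + x 1 • z.1.2)) z.2) := by
  have h0 : Measurable (fun w : ((E 2 × E 2) × E 3) × E 2 =>
      w.2 0 • w.1.1.1 + w.2 1 • w.1.1.2) := by
    have : Continuous (fun w : ((E 2 × E 2) × E 3) × E 2 =>
      w.2 0 • w.1.1.1 + w.2 1 • w.1.1.2) := by fun_prop
    exact this.measurable
  have h2 : Measurable (fun w : ((E 2 × E 2) × E 3) × E 2 =>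
      Complex.exp (-((⟪Phi w.2, w.1.2⟫ : ℝ) : ℂ) * I)) := by
    have hc := cont_Phi
    have : Continuous (fun w : ((E 2 × E 2) × E 3) × E 2 =>
      Complex.exp (-((⟪Phi w.2, w.1.2⟫ : ℝ) : ℂ) * I)) := by fun_prop
    exact this.measurable
  have h1 : Measurable (fun w : ((E 2 × E 2) × E 3) × E 2 =>
      Complex.exp (-((⟪Phi w.2, w.1.2⟫ : ℝ) : ℂ) * I) *
        f (w.2 0 • w.1.1.1 + w.2 1 • w.1.1.2)) := h2.mul (hm.comp h0)
  exact (h1.stronglyMeasurable.integral_prod_right').measurable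

/-- the joint function -/
noncomputable def GG (f : E 2 → ℂ) (z : (E 2 × E 2) × E 3) : ℂ :=
  extR (fun x => f (x 0 • z.1.1 + x 1 • z.1.2)) z.2

theorem meas_GG {f : E 2 → ℂ} (hm : Measurable f) : Measurable (GG f) := meas_ext hm

theorem memLp_iff {f : E 2 → ℂ} (hm : Measurable f) {q : ℝ} (hq : 3 < q) (p : E 2 × E 2) :
    MemLp (extR fun x => f (x 0 • p.1 + x 1 • p.2)) (ENNReal.ofReal q) volume ↔
      ∫⁻ ξ : E 3, ‖extR (fun x => f (x 0 • p.1 + x 1 • p.2)) ξ‖ₑ ^ q < ⊤ := by
  have h0 : Measurable (fun ξ : E 3 => ((p, ξ) : (E 2 × E 2) × E 3)) :=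
    measurable_const.prodMk measurable_id
  have h1 : Measurable (fun ξ : E 3 => GG f (p, ξ)) := (meas_GG hm).comp h0
  change Measurable (extR fun x => f (x 0 • p.1 + x 1 • p.2)) at h1
  have h2 : ENNReal.ofReal q ≠ 0 := by
    rw [Ne, ENNReal.ofReal_eq_zero, not_le]
    linarith
  unfold MemLp
  rw [eLpNorm_lt_top_iff_lintegral_rpow_enorm_lt_top h2 ENNReal.ofReal_ne_top,
    ENNReal.toReal_ofReal (by linarith)]
  constructor
  · exact fun h => h.2
  · exact fun h => ⟨h1.aestronglyMeasurable, h⟩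

theorem measurable_good {f : E 2 → ℂ} (hm : Measurable f) {q : ℝ} (hq : 3 < q) :
    MeasurableSet {p : E 2 × E 2 |
      MemLp (extR fun x => f (x 0 • p.1 + x 1 • p.2)) (ENNReal.ofReal q) volume} := by
  have h1 : {p : E 2 × E 2 |
      MemLp (extR fun x => f (x 0 • p.1 + x 1 • p.2)) (ENNReal.ofReal q) volume} =
      {p : E 2 × E 2 | ∫⁻ ξ : E 3, ‖extR (fun x => f (x 0 • p.1 + x 1 • p.2)) ξ‖ₑ ^ q < ⊤} := by
    ext p
    exact memLp_iff hm hq p
  rw [h1]
  have h2 : Measurable (fun p : E 2 × E 2 =>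
      ∫⁻ ξ : E 3, ‖extR (fun x => f (x 0 • p.1 + x 1 • p.2)) ξ‖ₑ ^ q) :=
    ((meas_ext hm).enorm.pow_const q).lintegral_prod_right'
  exact measurableSet_lt h2 measurable_const

end Pool.Agent.J4.H87.AD.MAT

namespace Pool.Agent.J4.H87.AD

open MeasureTheory Complex Set Filter Topology
open scoped ENNReal NNReal RealInnerProductSpace ComplexConjugate
open Pool.Agent.J4.H73.EX (E en Ga)
open Pool.Agent.J4.H87.AD.MAT

theorem t_MAT (h : S_SCA) : S_MAT := by
  intro q hq H f hm hc hf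
  have hmeas := measurable_good hm hq
  set Good : E 2 → E 2 → Prop := fun u v =>
    MemLp (extR fun x => f (x 0 • u + x 1 • v)) (ENNReal.ofReal q) volume with hGood
  have hmeasG : MeasurableSet {p : E 2 × E 2 | Good p.1 p.2} := hmeas
  have key : ∀ u : E 2, u ≠ 0 → ∀ᵐ w : E 2, Good u w := by
    intro u hu
    have hspan : ∀ᵐ v : E 2, v ∉ Submodule.span ℝ {u} := by
      have h1 : (volume : Measure (E 2)) (Submodule.span ℝ {u} : Submodule ℝ (E 2)) = 0 := by
        apply Measure.addHaar_submodule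
        intro htop
        have h2 : Module.finrank ℝ (Submodule.span ℝ {u} : Submodule ℝ (E 2)) = 1 :=
          finrank_span_singleton hu
        rw [htop, finrank_top] at h2
        simp at h2
      exact measure_eq_zero_iff_ae_notMem.1 h1
    have h1 : ∀ᵐ v : E 2, ∀ᵐ l ∂(volume.restrict (Icc (1 : ℝ) 2)), Good u (l • v) := by
      filter_upwards [hspan] with v hv
      exact ae_l h hq H hm hc hf hu hv
    have hms : MeasurableSet {z : E 2 × ℝ | Good u (z.2 • z.1)} := by
      have h3 : Measurable (fun z : E 2 × ℝ => ((u, z.2 • z.1) : E 2 × E 2)) :=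
        measurable_const.prodMk (measurable_snd.smul measurable_fst)
      exact h3 hmeasG
    have h2 : ∀ᵐ l ∂(volume.restrict (Icc (1 : ℝ) 2)), ∀ᵐ v : E 2, Good u (l • v) :=
      (Measure.ae_ae_comm hms).1 h1
    have hne : (ae ((volume : Measure ℝ).restrict (Icc (1 : ℝ) 2))).NeBot := by
      rw [ae_neBot, Ne, Measure.restrict_eq_zero, Real.volume_Icc]
      norm_num
    obtain ⟨l, hl, hl2⟩ := (h2.and (ae_restrict_mem measurableSet_Icc)).exists
    have hl0 : l ≠ 0 := by
      have := hl2.1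
      positivity
    have h4 : (volume : Measure (E 2)) ((fun v : E 2 => l • v) ⁻¹' {w | ¬ Good u w}) = 0 := hl
    rw [Measure.addHaar_preimage_smul volume hl0, mul_eq_zero] at h4
    rcases h4 with h4 | h4
    · exfalso
      rw [ENNReal.ofReal_eq_zero] at h4
      have : (0 : ℝ) < |(l ^ Module.finrank ℝ (E 2))⁻¹| := abs_pos.2 (inv_ne_zero (pow_ne_zero _ hl0))
      linarith
    · exact h4
  have hu0 : ∀ᵐ u : E 2, u ≠ 0 := by
    have : (volume : Measure (E 2)) {0} = 0 := measure_singleton 0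
    exact measure_eq_zero_iff_ae_notMem.1 this
  have h5 : ∀ᵐ u : E 2, ∀ᵐ w : E 2, Good u w := by
    filter_upwards [hu0] with u hu
    exact key u hu
  have h6 : ∀ᵐ p : E 2 × E 2, Good p.1 p.2 := by
    have h7 := (Measure.ae_prod_iff_ae_ae (μ := (volume : Measure (E 2)))
      (ν := (volume : Measure (E 2))) (p := fun p => Good p.1 p.2) hmeasG).2 h5
    exact h7
  exact h6

end Pool.Agent.J4.H87.AD
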