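import Pool.Agent.J4.H87.AD.Defs

/-! Project AD, piece ROT: rotations. -/

set_option autoImplicit false

namespace Pool.Agent.J4.H87.AD

open MeasureTheory Complex Set Filter Topology
open scoped ENNReal NNReal RealInnerProductSpace ComplexConjugate
open Pool.Agent.J4.H73.EX (E en Ga)

namespace ROT

/-- the horizontal part -/
noncomputable def hz (ξ : E 3) : E 2 := !₂[ξ 0, ξ 1]

/-- the rotation about the vertical axis, as a linear equivalence -/
noncomputable def rotL (ρ : E 2 ≃ₗᵢ[ℝ] E 2) : E 3 ≃ₗ[ℝ] E 3 where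
  toFun ξ := !₂[(ρ (hz ξ)) 0, (ρ (hz ξ)) 1, ξ 2]
  invFun ξ := !₂[(ρ.symm (hz ξ)) 0, (ρ.symm (hz ξ)) 1, ξ 2]
  map_add' ξ η := by
    have h : hz (ξ + η) = hz ξ + hz η := by
      ext i
      fin_cases i <;> simp [hz]
    ext i
    fin_cases i <;> simp [h]
  map_smul' c ξ := by
    have h : hz (c • ξ) = c • hz ξ := by
      ext i
      fin_cases i <;> simp [hz]
    ext i
    fin_cases i <;> simp [h]
  left_inv ξ := by
    have h : hz (!₂[(ρ (hz ξ)) 0, (ρ (hz ξ)) 1, ξ 2] : E 3) = ρ (hz ξ) := by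
      ext i
      fin_cases i <;> simp [hz]
    ext i
    fin_cases i <;> simp [h] <;> simp [hz]
  right_inv ξ := by
    have h : hz (!₂[(ρ.symm (hz ξ)) 0, (ρ.symm (hz ξ)) 1, ξ 2] : E 3) = ρ.symm (hz ξ) := by
      ext i
      fin_cases i <;> simp [hz]
    ext i
    fin_cases i <;> simp [h] <;> simp [hz]

/-- the rotation about the vertical axis -/
noncomputable def rot (ρ : E 2 ≃ₗᵢ[ℝ] E 2) : E 3 ≃ₗᵢ[ℝ] E 3 where
  toLinearEquiv := rotL ρ
  norm_map' ξ := by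
    have h1 : ‖ρ (hz ξ)‖ ^ 2 = ‖hz ξ‖ ^ 2 := by rw [ρ.norm_map]
    have h2 : ‖rotL ρ ξ‖ ^ 2 = ‖ρ (hz ξ)‖ ^ 2 + ξ 2 ^ 2 := by
      rw [EuclideanSpace.norm_sq_eq, EuclideanSpace.norm_sq_eq, Fin.sum_univ_three,
        Fin.sum_univ_two]
      simp [rotL]
    have h3 : ‖ξ‖ ^ 2 = ‖hz ξ‖ ^ 2 + ξ 2 ^ 2 := by
      rw [EuclideanSpace.norm_sq_eq, EuclideanSpace.norm_sq_eq, Fin.sum_univ_three,
        Fin.sum_univ_two]
      simp [hz]
    have h4 : ‖rotL ρ ξ‖ ^ 2 = ‖ξ‖ ^ 2 := by rw [h2, h3, h1]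
    exact (sq_eq_sq₀ (norm_nonneg _) (norm_nonneg _)).1 h4

theorem inner_Phi (x : E 2) (ξ : E 3) : ⟪Phi x, ξ⟫ = ⟪x, hz ξ⟫ + ‖x‖ ^ 2 * ξ 2 := by
  rw [EuclideanSpace.norm_sq_eq, PiLp.inner_apply, PiLp.inner_apply, Fin.sum_univ_three,
    Fin.sum_univ_two, Fin.sum_univ_two]
  simp [Phi, hz]
  ring

theorem inner_rot (ρ : E 2 ≃ₗᵢ[ℝ] E 2) (x : E 2) (ξ : E 3) :
    ⟪Phi x, ξ⟫ = ⟪Phi (ρ x), rot ρ ξ⟫ := by
  have h : hz (rot ρ ξ) = ρ (hz ξ) := by
    ext i
    fin_cases i <;> simp [hz, rot, rotL]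
  have h2 : (rot ρ ξ) 2 = ξ 2 := by simp [rot, rotL]
  rw [inner_Phi, inner_Phi, h, h2, ρ.inner_map_map, ρ.norm_map]

theorem ext_rot (ρ : E 2 ≃ₗᵢ[ℝ] E 2) (g : E 2 → ℂ) (ξ : E 3) :
    ext (fun x => g (ρ x)) ξ = ext g (rot ρ ξ) := by
  unfold ext
  have h := ρ.measurePreserving.setIntegral_preimage_emb
    ρ.toHomeomorph.measurableEmbedding
    (fun x => Complex.exp (-((⟪Phi x, rot ρ ξ⟫ : ℝ) : ℂ) * I) * g x) (Metric.ball (0 : E 2) (1 / 2))
  have h1 : (⇑ρ ⁻¹' Metric.ball (0 : E 2) (1 / 2)) = Metric.ball (0 : E 2) (1 / 2) := by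
    ext x
    simp
  rw [h1] at h
  rw [← h]
  refine integral_congr_ae (Eventually.of_forall fun x => ?_)
  simp only
  rw [inner_rot ρ x ξ]

end ROT

open ROT in
theorem t_ROT : S_ROT := by
  intro e he
  have hcard : Module.finrank ℝ (E 2) = Fintype.card (Fin 2) := by simp
  have hort : Orthonormal ℝ (({1} : Set (Fin 2)).domRestrict (fun _ : Fin 2 => e)) := by
    constructor
    · intro i; exact he
    · intro i j hij
      exact absurd (Subsingleton.elim i j) hij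
  obtain ⟨b, hb⟩ := hort.exists_orthonormalBasis_extension_of_card_eq hcard
  have hb1 : b 1 = e := by simpa using hb 1 (by simp)
  refine ⟨b.repr, ?_, ?_⟩
  · intro l x
    have h0 : ⟪b 0, e⟫ = 0 := by
      rw [← hb1]
      exact b.orthonormal.2 (by decide)
    have h1 : ⟪b 1, e⟫ = 1 := by
      rw [hb1, real_inner_self_eq_norm_sq, he]
      norm_num
    ext i
    fin_cases i
    · simp [Dil, D1, b.repr_apply_apply, inner_add_right, inner_smul_right, h0]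
    · simp [Dil, D1, b.repr_apply_apply, inner_add_right, inner_smul_right, h1]
      rw [hb1]
      ring
  · intro g q _
    have h := (rot b.repr).measurePreserving.lintegral_comp_emb
      (rot b.repr).toHomeomorph.measurableEmbedding (fun ξ => ‖ext g ξ‖ₑ ^ q)
    rw [← h]
    refine lintegral_congr fun ξ => ?_
    rw [ext_rot]

end Pool.Agent.J4.H87.AD
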