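import Pool.Agent.J4.H87.AD.Defs2

/-!
# Project AD: parabolic scaling
-/

set_option autoImplicit false

namespace Pool.Agent.J4.H87.AD

open MeasureTheory Complex Set Filter Topology
open scoped ENNReal NNReal RealInnerProductSpace ComplexConjugate
open Pool.Agent.J4.H73.EX (E en Ga)

namespace SCA

/-- a diagonal map -/
noncomputable def Dl (a b : ℝ) : E 3 →ₗ[ℝ] E 3 where
  toFun ξ := !₂[a * ξ 0, a * ξ 1, b * ξ 2]
  map_add' x y := by
    ext i
    fin_cases i <;> simp [mul_add]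
  map_smul' c x := by
    ext i
    fin_cases i <;> simp [mul_left_comm]

lemma Dl_comp {a b : ℝ} (ha : a ≠ 0) (hb : b ≠ 0) : (Dl a b) * (Dl a⁻¹ b⁻¹) = 1 := by
  ext x i
  fin_cases i <;> simp [Dl, ha, hb]

lemma Dl_det {a b : ℝ} (ha : a ≠ 0) (hb : b ≠ 0) : LinearMap.det (Dl a b) ≠ 0 := by
  intro h
  have h1 := congrArg LinearMap.det (Dl_comp ha hb)
  rw [map_mul, h, zero_mul, map_one] at h1
  exact zero_ne_one h1

lemma inner_Phi (a : ℝ) (z : E 2) (ξ : E 3) : (⟪Phi (a • z), ξ⟫ : ℝ) = ⟪Phi z, Dl a (a ^ 2) ξ⟫ := by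
  unfold Phi Dl
  simp [PiLp.inner_apply, Fin.sum_univ_three]
  ring

lemma extR_eq (g : E 2 → ℂ) (R : ℝ) (hR : 0 < R) (hg : ∀ x, x ∉ Metric.ball (0 : E 2) R → g x = 0) (ξ : E 3) :
    extR g ξ = ((2 * R) ^ 2 : ℝ) • ext (fun x => g ((2 * R) • x)) (Dl (2 * R) ((2 * R) ^ 2) ξ) := by
  have h2R : (0 : ℝ) < 2 * R := by positivity
  have h1 : ext (fun x => g ((2 * R) • x)) (Dl (2 * R) ((2 * R) ^ 2) ξ) =
      ∫ x : E 2, (fun y => Complex.exp (-((⟪Phi y, ξ⟫ : ℝ) : ℂ) * I) * g y) ((2 * R) • x) := by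
    unfold ext
    rw [setIntegral_eq_integral_of_forall_compl_eq_zero]
    · refine integral_congr_ae (Filter.Eventually.of_forall fun x => ?_)
      simp only
      rw [inner_Phi]
    · intro x hx
      have : g ((2 * R) • x) = 0 := by
        apply hg
        intro h
        apply hx
        rw [mem_ball_zero_iff] at h ⊢
        rw [norm_smul, Real.norm_of_nonneg h2R.le] at h
        nlinarith
      simp only
      rw [this, mul_zero]
  rw [h1, Measure.integral_comp_smul volume (fun y => Complex.exp (-((⟪Phi y, ξ⟫ : ℝ) : ℂ) * I) * g y) (2 * R)]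
  have h3 : Module.finrank ℝ (E 2) = 2 := by
    unfold E
    simp
  rw [h3, abs_of_pos (by positivity), smul_smul, mul_inv_cancel₀ (by positivity), one_smul]
  rfl

end SCA

open SCA in
theorem t_SCA : S_SCA := by
  intro g R q hR hq hg hm
  have h2R : (2 * R) ≠ 0 := by positivity
  have hD : LinearMap.det (Dl (2 * R) ((2 * R) ^ 2)) ≠ 0 := Dl_det h2R (by positivity)
  have h1 : extR g = ((2 * R) ^ 2 : ℝ) • ((ext (fun x => g ((2 * R) • x))) ∘ (Dl (2 * R) ((2 * R) ^ 2))) := by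
    funext ξ
    rw [extR_eq g R hR hg ξ]
    rfl
  rw [h1]
  refine MemLp.const_smul ?_ _
  have hmeas : Measurable (Dl (2 * R) ((2 * R) ^ 2)) :=
    (LinearMap.continuous_of_finiteDimensional _).measurable
  have h2 : MemLp (ext (fun x => g ((2 * R) • x))) (ENNReal.ofReal q)
      (Measure.map (Dl (2 * R) ((2 * R) ^ 2)) volume) := by
    rw [Measure.map_linearMap_addHaar_eq_smul_addHaar volume hD]
    exact hm.smul_measure ENNReal.ofReal_ne_top
  exact h2.comp_of_map hmeas.aemeasurable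

end Pool.Agent.J4.H87.AD
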