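import Pool.Agent.J4.H87.AD.T_LQ

/-! Project AD: a locally constant majorant. -/

set_option autoImplicit false

namespace Pool.Agent.J4.H87.AD

open MeasureTheory Complex Set Filter Topology
open scoped ENNReal NNReal RealInnerProductSpace ComplexConjugate Nat
open Pool.Agent.J4.H73.EX (E en Ga en_bdd en_add en_norm en_meas)

namespace SUP

/-- the functions `(4 x_1^2)^k g` -/
noncomputable def gk (g : E 2 → ℂ) (k : ℕ) (x : E 2) : ℂ := ((4 * x 1 ^ 2 : ℝ) : ℂ) ^ k * g x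

/-- the real weights -/
noncomputable def wr (k : ℕ) : ℝ := (3 / 4 : ℝ) ^ k / (k ! : ℝ)

theorem wr_nonneg (k : ℕ) : 0 ≤ wr k := by unfold wr; positivity

theorem wr_summable : Summable wr := Real.summable_pow_div_factorial _

/-- the weights -/
noncomputable def w (k : ℕ) : ℝ≥0∞ := ENNReal.ofReal (wr k)

/-- the sum of the weights -/
noncomputable def Wr : ℝ := ∑' k, wr k

theorem Wr_pos : 0 < Wr := by
  have h := wr_summable.sum_le_tsum (Finset.range 1) (fun k _ => wr_nonneg k)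
  simp only [Finset.range_one, Finset.sum_singleton] at h
  have : wr 0 = 1 := by simp [wr]
  unfold Wr
  linarith

theorem w_tsum : ∑' k, w k = ENNReal.ofReal Wr :=
  (ENNReal.ofReal_tsum_of_nonneg wr_nonneg wr_summable).symm

theorem holder (q : ℝ) (hq : 2 < q) (a : ℕ → ℝ≥0∞) :
    (∑' k, w k * a k) ^ q ≤ ENNReal.ofReal (Wr ^ (q - 1)) * ∑' k, w k * a k ^ q := by
  have hpq : (q / (q - 1)).HolderConjugate q := by
    rw [Real.holderConjugate_iff]
    refine ⟨?_, ?_⟩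
    · rw [lt_div_iff₀ (by linarith)]; linarith
    · have : q ≠ 0 := by linarith
      have : q - 1 ≠ 0 := by linarith
      field_simp
      ring
  have hq0 : (0 : ℝ) ≤ q := by linarith
  have hint : ∀ f : ℕ → ℝ≥0∞, ∫⁻ k, f k ∂(Measure.count.withDensity w) = ∑' k, w k * f k := by
    intro f
    rw [lintegral_withDensity_eq_lintegral_mul _ (measurable_of_countable _)
      (measurable_of_countable _), lintegral_count]
    rfl
  have h := ENNReal.lintegral_mul_le_Lp_mul_Lq (Measure.count.withDensity w) hpq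
    (f := fun _ => 1) (g := a) (measurable_of_countable _).aemeasurable
    (measurable_of_countable _).aemeasurable
  simp only [Pi.mul_apply, one_mul, ENNReal.one_rpow] at h
  rw [hint a, hint (fun _ => 1), hint (fun k => a k ^ q)] at h
  simp only [mul_one] at h
  rw [w_tsum] at h
  calc (∑' k, w k * a k) ^ q
      ≤ (ENNReal.ofReal Wr ^ (1 / (q / (q - 1))) * (∑' k, w k * a k ^ q) ^ (1 / q)) ^ q :=
        ENNReal.rpow_le_rpow h hq0
    _ = ENNReal.ofReal (Wr ^ (q - 1)) * ∑' k, w k * a k ^ q := by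
        rw [ENNReal.mul_rpow_of_nonneg _ _ hq0, ← ENNReal.rpow_mul, ← ENNReal.rpow_mul,
          one_div_mul_cancel (by linarith), ENNReal.rpow_one,
          ← ENNReal.ofReal_rpow_of_pos Wr_pos]
        congr 2
        have : q ≠ 0 := by linarith
        have : q - 1 ≠ 0 := by linarith
        field_simp

theorem gk_norm_le {g : E 2 → ℂ} (hg : Go g) (k : ℕ) (x : E 2) : ‖gk g k x‖ ≤ ‖g x‖ := by
  unfold gk
  by_cases hx : 1 / 2 < ‖x‖
  · rw [hg.2.2 x hx]; simp
  · have h1 : |x 1| ≤ 1 / 2 := by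
      have : ‖x 1‖ ≤ ‖x‖ := PiLp.norm_apply_le x 1
      rw [Real.norm_eq_abs] at this
      linarith [not_lt.1 hx]
    have h2 : |4 * x 1 ^ 2| ≤ 1 := by
      rw [abs_of_nonneg (by positivity)]
      nlinarith [sq_abs (x 1), abs_nonneg (x 1)]
    rw [norm_mul, norm_pow, Complex.norm_real, Real.norm_eq_abs]
    calc |4 * x 1 ^ 2| ^ k * ‖g x‖ ≤ 1 * ‖g x‖ := by
          gcongr
          exact pow_le_one₀ (abs_nonneg _) h2
      _ = ‖g x‖ := one_mul _

theorem Go_gk {g : E 2 → ℂ} (hg : Go g) (k : ℕ) : Go (gk g k) := by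
  have hm : Measurable (gk g k) := by
    unfold gk
    have : Measurable fun x : E 2 => ((4 * x 1 ^ 2 : ℝ) : ℂ) ^ k := by fun_prop
    exact this.mul hg.1
  refine ⟨hm, hg.2.1.mono hm.aestronglyMeasurable (Eventually.of_forall (gk_norm_le hg k)),
    fun x hx => ?_⟩
  unfold gk
  rw [hg.2.2 x hx, mul_zero]

theorem Y_exp {g : E 2 → ℂ} (hg : Go g) (t s s' : ℝ) (y : E 2) (h : |s - s'| ≤ 3) :
    ‖Y g t s y‖ₑ ≤ ∑' k, w k * ‖Y (gk g k) t s' y‖ₑ := by
  set δ : ℝ := s - s' with hδ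
  set c : ℕ → ℂ := fun k => (-((δ / 4 : ℝ) : ℂ) * I) ^ k / (k ! : ℂ) with hc
  have hcn : ∀ k, ‖c k‖ ≤ wr k := by
    intro k
    rw [hc]
    simp only
    unfold wr
    rw [norm_div, norm_pow, norm_mul, norm_neg, Complex.norm_I, mul_one, Complex.norm_real,
      Real.norm_eq_abs, Complex.norm_natCast, abs_div, abs_of_pos (show (0 : ℝ) < 4 by norm_num)]
    gcongr
  set F : ℕ → E 2 → ℂ := fun k x =>
    c k * (en (⟪x, y⟫ + (x 0 ^ 2 * t + x 1 ^ 2 * s')) * gk g k x) with hF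
  have hFi : ∀ k, Integrable (F k) := fun k =>
    (en_bdd (by fun_prop) (Go_gk hg k).2.1).const_mul (c k)
  have hFn : ∀ k x, ‖F k x‖ ≤ wr k * ‖g x‖ := by
    intro k x
    rw [hF]
    simp only
    rw [norm_mul, norm_mul, en_norm, one_mul]
    exact mul_le_mul (hcn k) (gk_norm_le hg k x) (norm_nonneg _) (wr_nonneg k)
  have hsum : Summable fun k => ∫ x, ‖F k x‖ := by
    refine Summable.of_nonneg_of_le (fun k => integral_nonneg fun x => norm_nonneg _)
      (fun k => ?_) (wr_summable.mul_right (∫ x, ‖g x‖))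
    rw [← integral_const_mul]
    exact integral_mono (hFi k).norm (hg.2.1.norm.const_mul _) (hFn k)
  have hHS := hasSum_integral_of_summable_integral_norm hFi hsum
  have hpt : ∀ x : E 2, ∑' k, F k x = en (⟪x, y⟫ + (x 0 ^ 2 * t + x 1 ^ 2 * s)) * g x := by
    intro x
    have h1 := (NormedSpace.expSeries_div_hasSum_exp (-((x 1 ^ 2 * δ : ℝ) : ℂ) * I)).mul_left
      (en (⟪x, y⟫ + (x 0 ^ 2 * t + x 1 ^ 2 * s')) * g x)
    have h2 : (fun k => F k x) = fun k => en (⟪x, y⟫ + (x 0 ^ 2 * t + x 1 ^ 2 * s')) * g x *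
        ((-((x 1 ^ 2 * δ : ℝ) : ℂ) * I) ^ k / (k ! : ℂ)) := by
      ext k
      rw [hF, hc]
      simp only
      unfold gk
      have : (-((x 1 ^ 2 * δ : ℝ) : ℂ) * I) = (-((δ / 4 : ℝ) : ℂ) * I) * ((4 * x 1 ^ 2 : ℝ) : ℂ) := by
        push_cast
        ring
      rw [this, mul_pow]
      ring
    rw [h2, h1.tsum_eq, ← Complex.exp_eq_exp_ℂ]
    have h3 : cexp (-((x 1 ^ 2 * δ : ℝ) : ℂ) * I) = en (x 1 ^ 2 * δ) := rfl
    rw [h3, mul_right_comm, ← en_add]
    congr 2
    rw [hδ]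
    ring
  have hY : Y g t s y = ∑' k, c k * Y (gk g k) t s' y := by
    have h1 : Y g t s y = ∫ x, ∑' k, F k x := by
      unfold Y
      exact integral_congr_ae (Eventually.of_forall fun x => (hpt x).symm)
    rw [h1, ← hHS.tsum_eq]
    refine tsum_congr fun k => ?_
    rw [hF]
    simp only
    rw [integral_const_mul]
    rfl
  rw [hY]
  refine enorm_tsum_le_tsum_enorm.trans (ENNReal.tsum_le_tsum fun k => ?_)
  rw [enorm_mul]
  gcongr
  rw [← ofReal_norm]
  exact ENNReal.ofReal_le_ofReal (hcn k)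

end SUP

open SUP in
theorem t_SUP (hLQ : S_LQ) (hM : S_MEAS) : S_SUP := by
  intro q hq hq4 ε hε
  have hq0 : (0 : ℝ) ≤ q := by linarith
  obtain ⟨C, hC, hL⟩ := hLQ q hq hq4 ε hε
  have hW := Wr_pos
  refine ⟨Wr ^ (q - 1) * Wr * C, by positivity, ?_⟩
  intro g hg
  have hmk : ∀ k, Measurable fun p : (ℝ × ℝ) × E 2 => w k * ‖Y (gk g k) p.1.1 p.1.2 p.2‖ₑ ^ q :=
    fun k => ((hM _ (Go_gk hg k).2.1.aestronglyMeasurable).enorm.pow_const q).const_mul _
  have hm : Measurable fun p : (ℝ × ℝ) × E 2 =>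
      ENNReal.ofReal (Wr ^ (q - 1)) * ∑' k, w k * ‖Y (gk g k) p.1.1 p.1.2 p.2‖ₑ ^ q :=
    (Measurable.ennreal_tsum hmk).const_mul _
  refine ⟨fun t s y => ENNReal.ofReal (Wr ^ (q - 1)) * ∑' k, w k * ‖Y (gk g k) t s y‖ₑ ^ q,
    hm, ?_, ?_⟩
  · intro t s s' y h
    exact (ENNReal.rpow_le_rpow (Y_exp hg t s s' y h) hq0).trans (holder q hq _)
  · intro T hT
    have hT0 : 0 < T := by linarith
    have h1 := LQ.lint3 (volume.restrict (Icc (-T) T)) _ hm
    simp only at h1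
    rw [← h1, lintegral_const_mul _ (Measurable.ennreal_tsum hmk),
      lintegral_tsum fun k => (hmk k).aemeasurable]
    have h2 : ∀ k, ∫⁻ p : (ℝ × ℝ) × E 2, w k * ‖Y (gk g k) p.1.1 p.1.2 p.2‖ₑ ^ q
        ∂(((volume.restrict (Icc (-T) T)).prod (volume.restrict (Icc (-T) T))).prod volume) ≤
        w k * (ENNReal.ofReal (C * T ^ (4 - q + ε)) * ∫⁻ x, ‖g x‖ₑ ^ q) := by
      intro k
      rw [lintegral_const_mul _
        ((hM _ (Go_gk hg k).2.1.aestronglyMeasurable).enorm.pow_const q),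
        LQ.lint3 _ _ ((hM _ (Go_gk hg k).2.1.aestronglyMeasurable).enorm.pow_const q)]
      gcongr
      refine (hL T hT _ (Go_gk hg k)).trans ?_
      gcongr with x
      rw [← ofReal_norm, ← ofReal_norm]
      exact ENNReal.ofReal_le_ofReal (gk_norm_le hg k x)
    calc ENNReal.ofReal (Wr ^ (q - 1)) *
          ∑' k, ∫⁻ p : (ℝ × ℝ) × E 2, w k * ‖Y (gk g k) p.1.1 p.1.2 p.2‖ₑ ^ q
            ∂(((volume.restrict (Icc (-T) T)).prod (volume.restrict (Icc (-T) T))).prod volume)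
        ≤ ENNReal.ofReal (Wr ^ (q - 1)) *
          ∑' k, w k * (ENNReal.ofReal (C * T ^ (4 - q + ε)) * ∫⁻ x, ‖g x‖ₑ ^ q) := by
          gcongr with k
          exact h2 k
      _ = ENNReal.ofReal (Wr ^ (q - 1) * Wr * C * T ^ (4 - q + ε)) * ∫⁻ x, ‖g x‖ₑ ^ q := by
          rw [ENNReal.tsum_mul_right, w_tsum,
            show Wr ^ (q - 1) * Wr * C * T ^ (4 - q + ε) =
              Wr ^ (q - 1) * (Wr * (C * T ^ (4 - q + ε))) by ring,
            ENNReal.ofReal_mul (p := Wr ^ (q - 1)) (by positivity),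
            ENNReal.ofReal_mul (p := Wr) (by positivity)]
          ring

end Pool.Agent.J4.H87.AD
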