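import Pool.Agent.J4.H87.AD.Fin5
import Pool.Agent.J4.H87.AD.Gen2
import Pool.Agent.J4.H87.AD.T_K1
import Pool.Agent.J4.H87.AD.T_K2
import Pool.Agent.J4.H87.AD.T_L2
import Pool.Agent.J4.H87.AD.T_L4
import Pool.Agent.J4.H87.AD.T_LQ
import Pool.Agent.J4.H87.AD.T_SUP
import Pool.Agent.J4.H87.AD.T_COV
import Pool.Agent.J4.H87.AD.T_FRO
import Pool.Agent.J4.H87.AD.T_FRO2
import Pool.Agent.J4.H87.AD.T_DIM2
import Pool.Agent.J4.H87.AD.T_DIM
import Pool.Agent.J4.H87.AD.T_LINK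
import Pool.Agent.J4.H87.AD.T_ROT
import Pool.Agent.J4.H87.AD.T_SCA
import Pool.Agent.J4.H87.AD.T_MAT

/-!
# Project AD: the theorem

Pieces: K1 helper82; K2 helper40 (independent copy helper85); L4 helper81; LQ, SUP helper14; COV, DIM2
helper19; FRO, FRO2 helper65; DIM helper82; LINK helper7 (independent copy helper96); ROT helper96, helper59,
helper7; SCA helper39, helper7; MAT helper99; L2, MEAS, ID4 (after a file of helper73), GEN, plan and assembly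
helper87. The Marcinkiewicz interpolation between `2` and `4` is taken from the starting library (H438R2).
-/

set_option autoImplicit false

namespace Pool.Agent.J4.H87.AD

open MeasureTheory Complex Set Filter Topology
open scoped ENNReal NNReal RealInnerProductSpace ComplexConjugate
open Pool.Agent.J4.H73.EX (E en Ga lint_two)

theorem c_L4 : S_L4 := t_L4 t_ID4 (t_K2 t_K1)

theorem c_COV : S_COV := t_COV (t_SUP (t_LQ t_L2 t_MEAS c_L4) t_MEAS)

theorem c_GEN : S_GEN :=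
  t_GEN t_L2 t_MEAS (COVat 4 (by norm_num) (SUPat 4 (by norm_num) (LQ4 c_L4) t_MEAS))

theorem c_AM : S_AM := t_AM t_MEAS

theorem main :
    (∀ α q K : ℝ, 0 < α → α ≤ 1 → 2 + 2 / (1 + α) < q → 0 ≤ K → ∃ C : ℝ≥0, ∀ μ : Measure ℝ,
      (∀ a r : ℝ, 0 < r → r ≤ 1 → μ (Icc a (a + r)) ≤ ENNReal.ofReal (K * r ^ α)) →
      ∀ e : E 2, ‖e‖ = 1 → ∀ f : E 2 → ℂ, Measurable f →
        (∀ x, x ∉ Metric.ball (0 : E 2) (1 / 2) → f x = 0) →
        ∫⁻ l in Icc (1 : ℝ) 2, eLpNorm (extR fun x => f (Dil e l x)) (ENNReal.ofReal q) volume ^ q ∂μ ≤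
          C * eLpNorm f (ENNReal.ofReal q) volume ^ q) ∧
    (∀ q : ℝ, 3 < q → q < 4 → ∀ e : E 2, ‖e‖ = 1 → ∀ f : E 2 → ℂ, Measurable f →
      (∀ x, x ∉ Metric.ball (0 : E 2) (1 / 2) → f x = 0) → MemLp f (ENNReal.ofReal q) volume →
        dimH {l : ℝ | l ∈ Icc (1 : ℝ) 2 ∧
          ¬ MemLp (extR fun x => f (Dil e l x)) (ENNReal.ofReal q) volume} ≤
            ENNReal.ofReal ((4 - q) / (q - 2))) ∧
    ∀ q : ℝ, 3 < q → ∀ f : E 2 → ℂ, Measurable f → HasCompactSupport f →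
      MemLp f (ENNReal.ofReal q) volume →
        ∀ᵐ p : E 2 × E 2, MemLp (extR fun x => f (x 0 • p.1 + x 1 • p.2)) (ENNReal.ofReal q) volume :=
  ⟨fun α q K hα hα1 hq hK => zA (t_FRO2 c_GEN c_AM) t_LINK t_ROT α q K hα hα1 hq hK,
    fun q hq hq4 e he f hm hz hf =>
      zB (t_DIM2 c_GEN Two.t_DIM c_AM c_COV) t_LINK t_ROT q hq hq4 e he f hm hz hf,
    fun q hq => t_MAT t_SCA q hq (ae_param c_COV t_FRO t_LINK t_ROT q hq)⟩

end Pool.Agent.J4.H87.AD
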