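import Pool.Agent.J4.H87.AD.Defs3
import Pool.Agent.J4.H87.AD.T_SUP
import Pool.Agent.J4.H87.AD.T_COV
import Pool.Agent.J4.H87.AD.T_L4

/-!
# Project AD: the majorant and the covering at the exponent `4`

The two proofs are those of T_SUP (helper14) and T_COV (helper19), for one exponent.
-/

set_option autoImplicit false

namespace Pool.Agent.J4.H87.AD

open MeasureTheory Complex Set Filter Topology
open scoped ENNReal NNReal RealInnerProductSpace ComplexConjugate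
open Pool.Agent.J4.H73.EX (E en Ga)

/-- `L^q` inequality for one exponent -/
def P_LQ (q : ℝ) : Prop := ∀ ε : ℝ, 0 < ε → ∃ C : ℝ, 0 < C ∧
  ∀ T : ℝ, 1 ≤ T → ∀ g, Go g →
    ∫⁻ t in Icc (-T) T, ∫⁻ s in Icc (-T) T, ∫⁻ y, ‖Y g t s y‖ₑ ^ q ≤
      ENNReal.ofReal (C * T ^ (4 - q + ε)) * ∫⁻ x, ‖g x‖ₑ ^ q

/-- a locally constant majorant -/
def P_SUP (q : ℝ) : Prop := ∀ ε : ℝ, 0 < ε → ∃ C : ℝ, 0 < C ∧ ∀ g, Go g →
  ∃ M : ℝ → ℝ → E 2 → ℝ≥0∞, Measurable (fun p : (ℝ × ℝ) × E 2 => M p.1.1 p.1.2 p.2) ∧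
    (∀ t s s' y, |s - s'| ≤ 3 → ‖Y g t s y‖ₑ ^ q ≤ M t s' y) ∧
    ∀ T : ℝ, 1 ≤ T → ∫⁻ t in Icc (-T) T, ∫⁻ s in Icc (-T) T, ∫⁻ y, M t s y ≤
      ENNReal.ofReal (C * T ^ (4 - q + ε)) * ∫⁻ x, ‖g x‖ₑ ^ q

/-- coverings -/
def P_COV (q : ℝ) : Prop := ∀ ε : ℝ, 0 < ε → ∃ C : ℝ, 0 < C ∧ ∀ g, Go g →
  ∃ c : ℕ → ℕ → ℝ≥0∞,
    (∀ k : ℕ, ∑ j ∈ Finset.range (2 ^ k), c k j ≤
      ENNReal.ofReal (C * (2 : ℝ) ^ (k * (4 - q + ε))) * ∫⁻ x, ‖g x‖ₑ ^ q) ∧
    ∀ k j : ℕ, j < 2 ^ k → ∀ l ∈ Icc (1 + (j : ℝ) / 2 ^ k) (1 + ((j : ℝ) + 1) / 2 ^ k),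
      A g q k l ≤ c k j

theorem LQ4 (hL4 : S_L4) : P_LQ 4 := by
  intro ε hε
  obtain ⟨C, hC, H⟩ := hL4 (min (ε / 2) (1 / 2)) (by positivity) (by
    exact lt_of_le_of_lt (min_le_right _ _) (by norm_num))
  refine ⟨C, hC, fun T hT g hg => ?_⟩
  have h1 := H T hT g hg
  have e4 : ∀ z : ℂ, ‖z‖ₑ ^ (4 : ℝ) = ‖z‖ₑ ^ 4 := fun z => by
    rw [show (4 : ℝ) = ((4 : ℕ) : ℝ) by norm_num, ENNReal.rpow_natCast]
  simp_rw [e4]
  refine h1.trans (mul_le_mul_left (ENNReal.ofReal_le_ofReal ?_) _)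
  refine mul_le_mul_of_nonneg_left (Real.rpow_le_rpow_of_exponent_le hT ?_) hC.le
  have := min_le_left (ε / 2) (1 / 2 : ℝ)
  linarith

open SUP in
theorem SUPat (q : ℝ) (hq : 2 < q) (hLQ : P_LQ q) (hM : S_MEAS) : P_SUP q := by
  intro ε hε
  have hq0 : (0 : ℝ) ≤ q := by linarith
  obtain ⟨C, hC, hL⟩ := hLQ ε hε
  have hW := Wr_pos
  refine ⟨Wr ^ (q - 1) * Wr * C, by positivity, ?_⟩
  intro g hg
  have hmk : ∀ k, Measurable fun p : (ℝ × ℝ) × E 2 => w k * ‖Y (gk g k) p.1.1 p.1.2 p.2‖ₑ ^ q :=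
    fun k => ((hM _ (Go_gk hg k).2.1.aestronglyMeasurable).enorm.pow_const q).const_mul _
  have hm : Measurable fun p : (ℝ × ℝ) × E 2 =>
      ENNReal.ofReal (Wr ^ (q - 1)) * ∑' k, w k * ‖Y (gk g k) p.1.1 p.1.2 p.2‖ₑ ^ q :=
    (Measurable.ennreal_tsum hmk).const_mul _
  refine ⟨fun t s y => ENNReal.ofReal (Wr ^ (q - 1)) * ∑' k, w k * ‖Y (gk g k) t s y‖ₑ ^ q,
    hm, ?_, ?_⟩
  · intro t s s' y h
    exact (ENNReal.rpow_le_rpow (Y_exp hg t s s' y h) hq0).trans (holder q hq _)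
  · intro T hT
    have hT0 : 0 < T := by linarith
    have h1 := LQ.lint3 (volume.restrict (Icc (-T) T)) _ hm
    simp only at h1
    rw [← h1, lintegral_const_mul _ (Measurable.ennreal_tsum hmk),
      lintegral_tsum fun k => (hmk k).aemeasurable]
    have h2 : ∀ k, ∫⁻ p : (ℝ × ℝ) × E 2, w k * ‖Y (gk g k) p.1.1 p.1.2 p.2‖ₑ ^ q
        ∂(((volume.restrict (Icc (-T) T)).prod (volume.restrict (Icc (-T) T))).prod volume) ≤
        w k * (ENNReal.ofReal (C * T ^ (4 - q + ε)) * ∫⁻ x, ‖g x‖ₑ ^ q) := by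
      intro k
      rw [lintegral_const_mul _
        ((hM _ (Go_gk hg k).2.1.aestronglyMeasurable).enorm.pow_const q),
        LQ.lint3 _ _ ((hM _ (Go_gk hg k).2.1.aestronglyMeasurable).enorm.pow_const q)]
      gcongr
      refine (hL T hT _ (Go_gk hg k)).trans ?_
      gcongr with x
      rw [← ofReal_norm, ← ofReal_norm]
      exact ENNReal.ofReal_le_ofReal (gk_norm_le hg k x)
    calc ENNReal.ofReal (Wr ^ (q - 1)) *
          ∑' k, ∫⁻ p : (ℝ × ℝ) × E 2, w k * ‖Y (gk g k) p.1.1 p.1.2 p.2‖ₑ ^ q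
            ∂(((volume.restrict (Icc (-T) T)).prod (volume.restrict (Icc (-T) T))).prod volume)
        ≤ ENNReal.ofReal (Wr ^ (q - 1)) *
          ∑' k, w k * (ENNReal.ofReal (C * T ^ (4 - q + ε)) * ∫⁻ x, ‖g x‖ₑ ^ q) := by
          gcongr with k
          exact h2 k
      _ = ENNReal.ofReal (Wr ^ (q - 1) * Wr * C * T ^ (4 - q + ε)) * ∫⁻ x, ‖g x‖ₑ ^ q := by
          rw [ENNReal.tsum_mul_right, w_tsum,
            show Wr ^ (q - 1) * Wr * C * T ^ (4 - q + ε) =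
              Wr ^ (q - 1) * (Wr * (C * T ^ (4 - q + ε))) by ring,
            ENNReal.ofReal_mul (p := Wr ^ (q - 1)) (by positivity),
            ENNReal.ofReal_mul (p := Wr) (by positivity)]
          ring

open COV
theorem COVat (q : ℝ) (hq2 : 2 < q) (h : P_SUP q) : P_COV q := by
  classical
  intro ε hε
  obtain ⟨C, hC, hM⟩ := h ε hε
  refine ⟨9 * (C * 2 ^ (4 - q + ε)), by positivity, ?_⟩
  intro g hg
  obtain ⟨M, -, hMY, hMI⟩ := hM g hg
  refine ⟨fun k j => ∫⁻ t in shell k, ∫⁻ s in Icc (t / aa k j ^ 2) (t / aa k j ^ 2 + 1),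
    ∫⁻ y, M t s y, ?_, ?_⟩
  · intro k
    set T : ℝ := 2 ^ (k + 1) with hT
    have hT1 : 1 ≤ T := one_le_pow₀ one_le_two
    have hkT : (2 : ℝ) ^ k + 1 ≤ T := by
      have : (1 : ℝ) ≤ 2 ^ k := one_le_pow₀ one_le_two
      rw [hT, pow_succ]
      linarith
    have hstep : ∀ t ∈ shell k,
        ∑ j ∈ Finset.range (2 ^ k), ∫⁻ s in Icc (t / aa k j ^ 2) (t / aa k j ^ 2 + 1),
          ∫⁻ y, M t s y ≤ 9 * ∫⁻ s in Icc (-T) T, ∫⁻ y, M t s y := by
      intro t ht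
      simp_rw [← lintegral_indicator measurableSet_Icc]
      refine (sum_lintegral_le _ _ _).trans ?_
      rw [← lintegral_const_mul' _ _ (by norm_num)]
      refine lintegral_mono fun s => ?_
      have e1 : ∀ j, (Icc (t / aa k j ^ 2) (t / aa k j ^ 2 + 1)).indicator
          (fun s => ∫⁻ y, M t s y) s =
          if s ∈ Icc (t / aa k j ^ 2) (t / aa k j ^ 2 + 1) then ∫⁻ y, M t s y else 0 := by
        intro j
        rw [indicator_apply]
      simp_rw [e1]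
      rw [← Finset.sum_filter, Finset.sum_const, nsmul_eq_mul]
      by_cases hs : s ∈ Icc (-T) T
      · rw [indicator_of_mem hs]
        refine mul_le_mul_left ?_ _
        exact_mod_cast count k t s ht
      · have h0 : ((Finset.range (2 ^ k)).filter fun j =>
            s ∈ Icc (t / aa k j ^ 2) (t / aa k j ^ 2 + 1)) = ∅ := by
          rw [Finset.filter_eq_empty_iff]
          intro j _ hj
          apply hs
          have h2 := shell_abs ht
          have h3 : |t / aa k j ^ 2| ≤ 2 ^ k := by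
            rw [abs_div, abs_of_pos (by have := aa_one k j; positivity : (0 : ℝ) < aa k j ^ 2)]
            refine (div_le_self (abs_nonneg _) ?_).trans h2
            exact one_le_pow₀ (aa_one k j)
          rw [abs_le] at h3
          constructor <;> linarith [hj.1, hj.2, h3.1, h3.2]
        rw [h0]
        simp
    calc ∑ j ∈ Finset.range (2 ^ k), ∫⁻ t in shell k,
          ∫⁻ s in Icc (t / aa k j ^ 2) (t / aa k j ^ 2 + 1), ∫⁻ y, M t s y
        ≤ ∫⁻ t in shell k, ∑ j ∈ Finset.range (2 ^ k),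
          ∫⁻ s in Icc (t / aa k j ^ 2) (t / aa k j ^ 2 + 1), ∫⁻ y, M t s y :=
          sum_lintegral_le _ _ _
      _ ≤ ∫⁻ t in shell k, 9 * ∫⁻ s in Icc (-T) T, ∫⁻ y, M t s y :=
          setLIntegral_mono' (shell_meas k) hstep
      _ = 9 * ∫⁻ t in shell k, ∫⁻ s in Icc (-T) T, ∫⁻ y, M t s y :=
          lintegral_const_mul' _ _ (by norm_num)
      _ ≤ 9 * ∫⁻ t in Icc (-T) T, ∫⁻ s in Icc (-T) T, ∫⁻ y, M t s y := by
          refine mul_le_mul_right (lintegral_mono_set fun t ht => ?_) _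
          have h2 := shell_abs ht
          rw [abs_le] at h2
          constructor <;> linarith [h2.1, h2.2]
      _ ≤ 9 * (ENNReal.ofReal (C * T ^ (4 - q + ε)) * ∫⁻ x, ‖g x‖ₑ ^ q) :=
          mul_le_mul_right (hMI T hT1) _
      _ = ENNReal.ofReal (9 * (C * 2 ^ (4 - q + ε)) * (2 : ℝ) ^ (k * (4 - q + ε))) *
          ∫⁻ x, ‖g x‖ₑ ^ q := by
          rw [← mul_assoc]
          congr 1
          have e1 : T ^ (4 - q + ε) = 2 ^ (4 - q + ε) * (2 : ℝ) ^ (k * (4 - q + ε)) := by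
            rw [hT, ← Real.rpow_natCast, ← Real.rpow_mul (by norm_num),
              ← Real.rpow_add (by norm_num)]
            congr 1
            push_cast
            ring
          rw [e1, show (9 : ℝ≥0∞) = ENNReal.ofReal 9 by norm_num,
            ← ENNReal.ofReal_mul (by norm_num)]
          congr 1
          ring
  · intro k j _ l hl
    unfold A
    refine setLIntegral_mono' (shell_meas k) fun t ht => ?_
    calc ∫⁻ y : E 2, ‖Y g t (t / l ^ 2) y‖ₑ ^ q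
        = ∫⁻ _s in Icc (t / aa k j ^ 2) (t / aa k j ^ 2 + 1),
            ∫⁻ y : E 2, ‖Y g t (t / l ^ 2) y‖ₑ ^ q := by
          rw [setLIntegral_const, Real.volume_Icc]
          simp
      _ ≤ ∫⁻ s in Icc (t / aa k j ^ 2) (t / aa k j ^ 2 + 1), ∫⁻ y, M t s y := by
          refine setLIntegral_mono' measurableSet_Icc fun s hs => ?_
          exact lintegral_mono fun y => hMY t _ s y (near (shell_abs ht) hl hs)

end Pool.Agent.J4.H87.AD
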