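import Pool.Agent.J4.H87.AD.Defs
import Pool.Agent.R412.RT.C

/-! Project AD, piece LINK: the operator of the problem and the operator with two times. -/

set_option autoImplicit false

namespace Pool.Agent.J4.H87.AD

open MeasureTheory Complex Set Filter Topology
open scoped ENNReal NNReal RealInnerProductSpace ComplexConjugate
open Pool.Agent.J4.H73.EX (E en Ga)

namespace LINK

/-- copy of `lint3` of Pool/Agent/J4/H73/EX/Fin.lean -/
theorem lint3 (F : ℝ → E 2 → ℝ≥0∞) (hF : Measurable (Function.uncurry F)) :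
    ∫⁻ ξ : E 3, F (ξ 2) (!₂[ξ 0, ξ 1]) = ∫⁻ t, ∫⁻ y, F t y := by
  have hm : Measurable fun ξ : E 3 => F (ξ 2) (!₂[ξ 0, ξ 1]) := by
    refine hF.comp (f := fun ξ : E 3 => (ξ 2, (!₂[ξ 0, ξ 1] : E 2))) ?_
    fun_prop
  have h1 := (PiLp.volume_preserving_toLp (Fin 3)).lintegral_comp hm
  rw [← h1, R412.RT.split_lint (Fin.last 2)]
  · refine lintegral_congr fun r => ?_
    have h2 : Measurable fun y : E 2 => F r y := hF.comp measurable_prodMk_left
    rw [← (PiLp.volume_preserving_toLp (Fin 2)).lintegral_comp h2]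
    refine lintegral_congr fun t => ?_
    congr 1
    ext i
    fin_cases i
    · rfl
    · rfl
  · exact hm.comp (PiLp.volume_preserving_toLp (Fin 3)).measurable

theorem Y_meas (g : E 2 → ℂ) (hg : Measurable g) :
    Measurable (fun p : (ℝ × ℝ) × E 2 => Y g p.1.1 p.1.2 p.2) := by
  unfold Y
  have : StronglyMeasurable (Function.uncurry fun (p : (ℝ × ℝ) × E 2) (x : E 2) =>
      en (⟪x, p.2⟫ + (x 0 ^ 2 * p.1.1 + x 1 ^ 2 * p.1.2)) * g x) := by
    refine StronglyMeasurable.mul ?_ (hg.comp measurable_snd).stronglyMeasurable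
    refine (Pool.Agent.J4.H73.EX.en_meas.comp ?_).stronglyMeasurable
    fun_prop
  exact this.integral_prod_right.measurable

/-- the dilation as a linear map -/
noncomputable def DL (l : ℝ) : E 2 →ₗ[ℝ] E 2 where
  toFun := D1 l
  map_add' x y := by
    ext i
    fin_cases i <;> simp [D1] <;> ring
  map_smul' c x := by
    ext i
    fin_cases i <;> simp [D1] <;> ring

theorem det_DL (l : ℝ) : LinearMap.det (DL l) = l := by
  rw [← LinearMap.det_toMatrix (EuclideanSpace.basisFun (Fin 2) ℝ).toBasis, Matrix.det_fin_two]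
  simp [LinearMap.toMatrix_apply, DL, D1]

theorem D1_D1 (l m : ℝ) (x : E 2) : D1 l (D1 m x) = D1 (l * m) x := by
  ext i
  fin_cases i <;> simp [D1] <;> ring

theorem D1_one (x : E 2) : D1 1 x = x := by
  ext i
  fin_cases i <;> simp [D1]

theorem D1_cont (l : ℝ) : Continuous (D1 l) := by
  unfold D1
  fun_prop

/-- the dilation as a homeomorphism -/
noncomputable def DH (l : ℝ) (hl : l ≠ 0) : E 2 ≃ₜ E 2 where
  toFun := D1 l
  invFun := D1 l⁻¹
  left_inv x := by rw [D1_D1, inv_mul_cancel₀ hl, D1_one]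
  right_inv x := by rw [D1_D1, mul_inv_cancel₀ hl, D1_one]
  continuous_toFun := D1_cont l
  continuous_invFun := D1_cont l⁻¹

theorem map_D1 (l : ℝ) (hl : l ≠ 0) :
    Measure.map (D1 l) (volume : Measure (E 2)) = ENNReal.ofReal |l⁻¹| • volume := by
  have h := Measure.map_linearMap_addHaar_eq_smul_addHaar (volume : Measure (E 2))
    (f := DL l) (by rw [det_DL]; exact hl)
  rw [det_DL] at h
  exact h

theorem lint_D1 (l : ℝ) (hl : l ≠ 0) (F : E 2 → ℝ≥0∞) :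
    ∫⁻ x, F (D1 l x) = ENNReal.ofReal |l⁻¹| * ∫⁻ x, F x := by
  have h1 := (DH l hl).measurableEmbedding.lintegral_map F (μ := volume)
  have h2 : Measure.map (⇑(DH l hl)) (volume : Measure (E 2)) = ENNReal.ofReal |l⁻¹| • volume :=
    map_D1 l hl
  rw [h2, lintegral_smul_measure, smul_eq_mul] at h1
  exact h1.symm

theorem int_D1 (l : ℝ) (hl : 0 < l) (F : E 2 → ℂ) :
    ∫ x, F (D1 l x) = ((l⁻¹ : ℝ) : ℂ) * ∫ x, F x := by
  have h1 := (DH l hl.ne').measurableEmbedding.integral_map (μ := volume) F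
  have h2 : Measure.map (⇑(DH l hl.ne')) (volume : Measure (E 2)) = ENNReal.ofReal |l⁻¹| • volume :=
    map_D1 l hl.ne'
  rw [h2, integral_smul_measure, ENNReal.toReal_ofReal (abs_nonneg _),
    abs_of_pos (inv_pos.2 hl)] at h1
  rw [← Complex.real_smul]
  exact h1.symm

theorem norm_D1 (l : ℝ) (hl : 1 ≤ l) (x : E 2) : ‖x‖ ≤ ‖D1 l x‖ := by
  have h : ‖x‖ ^ 2 ≤ ‖D1 l x‖ ^ 2 := by
    rw [EuclideanSpace.norm_sq_eq, EuclideanSpace.norm_sq_eq, Fin.sum_univ_two, Fin.sum_univ_two]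
    simp only [D1, Real.norm_eq_abs, sq_abs]
    simp only [PiLp.toLp_apply, Matrix.cons_val_zero, Matrix.cons_val_one]
    have : x 1 ^ 2 ≤ (l * x 1) ^ 2 := by
      rw [mul_pow]
      have h2 : (1 : ℝ) ≤ l ^ 2 := one_le_pow₀ hl
      nlinarith [sq_nonneg (x 1)]
    linarith
  exact (sq_le_sq₀ (norm_nonneg _) (norm_nonneg _)).1 h

theorem ext_eq (g : E 2 → ℂ) (hg : ∀ x, 1 / 2 < ‖x‖ → g x = 0) (l : ℝ) (hl : 1 ≤ l) (ξ : E 3) :
    ext (fun x => g (D1 l x)) ξ =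
      ((l⁻¹ : ℝ) : ℂ) * Y g (ξ 2) (ξ 2 / l ^ 2) (D1 l⁻¹ (!₂[ξ 0, ξ 1])) := by
  have hl0 : 0 < l := by linarith
  unfold ext Y
  rw [← int_D1 l hl0, ← integral_indicator measurableSet_ball]
  refine integral_congr_ae ?_
  have hsph : (volume : Measure (E 2)) (Metric.sphere (0 : E 2) (1 / 2)) = 0 :=
    Measure.addHaar_sphere _ _ _
  have hae : ∀ᵐ x : E 2, x ∉ Metric.sphere (0 : E 2) (1 / 2) :=
    measure_eq_zero_iff_ae_notMem.1 hsph
  filter_upwards [hae] with x hx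
  have hphase : (⟪D1 l x, D1 l⁻¹ (!₂[ξ 0, ξ 1])⟫ +
      ((D1 l x) 0 ^ 2 * ξ 2 + (D1 l x) 1 ^ 2 * (ξ 2 / l ^ 2)) : ℝ) = ⟪Phi x, ξ⟫ := by
    rw [PiLp.inner_apply, PiLp.inner_apply, Fin.sum_univ_three, Fin.sum_univ_two]
    simp [D1, Phi]
    field_simp
  by_cases hxb : x ∈ Metric.ball (0 : E 2) (1 / 2)
  · rw [indicator_of_mem hxb, hphase]
    rfl
  · rw [indicator_of_notMem hxb, hg, mul_zero]
    have h1 : 1 / 2 ≤ ‖x‖ := by
      simpa using hxb
    have h2 : ‖x‖ ≠ 1 / 2 := by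
      intro h
      exact hx (by simpa using h)
    exact (lt_of_le_of_ne h1 h2.symm).trans_le (norm_D1 l hl x)

end LINK

open LINK in
theorem t_LINK : S_LINK := by
  intro g q l hg hq hl1 hl2
  obtain ⟨hgm, hgi, hgs⟩ := hg
  have hl0 : 0 < l := by linarith
  set F : ℝ → E 2 → ℝ≥0∞ := fun t y =>
    ENNReal.ofReal (l⁻¹) ^ q * ‖Y g t (t / l ^ 2) (D1 l⁻¹ y)‖ₑ ^ q with hF
  have hFm : Measurable (Function.uncurry F) := by
    have h := Y_meas g hgm
    have h2 : Measurable (fun p : ℝ × E 2 => (((p.1, p.1 / l ^ 2) : ℝ × ℝ), D1 l⁻¹ p.2)) := by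
      have := (D1_cont l⁻¹).measurable
      fun_prop
    exact ((h.comp h2).enorm.pow_const q).const_mul _
  have h1 : ∫⁻ ξ : E 3, ‖ext (fun x => g (D1 l x)) ξ‖ₑ ^ q = ∫⁻ t, ∫⁻ y, F t y := by
    rw [← lint3 F hFm]
    refine lintegral_congr fun ξ => ?_
    rw [ext_eq g hgs l hl1 ξ, enorm_mul, ENNReal.mul_rpow_of_nonneg _ _ (by linarith)]
    simp only [hF]
    congr 2
    rw [← ofReal_norm, Complex.norm_real, Real.norm_of_nonneg (inv_pos.2 hl0).le]
  have h2 : ∀ t, ∫⁻ y, F t y = ENNReal.ofReal (l⁻¹) ^ q * (ENNReal.ofReal l *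
      ∫⁻ y, ‖Y g t (t / l ^ 2) y‖ₑ ^ q) := by
    intro t
    simp only [hF]
    rw [lintegral_const_mul]
    · rw [lint_D1 l⁻¹ (inv_ne_zero hl0.ne') (fun y => ‖Y g t (t / l ^ 2) y‖ₑ ^ q), inv_inv,
        abs_of_pos hl0]
    · have h := Y_meas g hgm
      have h2 : Measurable (fun y : E 2 => (((t, t / l ^ 2) : ℝ × ℝ), D1 l⁻¹ y)) := by
        have := (D1_cont l⁻¹).measurable
        fun_prop
      exact (h.comp h2).enorm.pow_const q
  have h3 : ENNReal.ofReal (l⁻¹) ^ q * ENNReal.ofReal l ≤ 1 := by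
    have h4 : ENNReal.ofReal (l⁻¹) ^ q ≤ ENNReal.ofReal (l⁻¹) := by
      have h5 : ENNReal.ofReal (l⁻¹) ≤ 1 := by
        rw [← ENNReal.ofReal_one]
        exact ENNReal.ofReal_le_ofReal (inv_le_one_of_one_le₀ hl1)
      calc ENNReal.ofReal (l⁻¹) ^ q ≤ ENNReal.ofReal (l⁻¹) ^ (1 : ℝ) :=
            ENNReal.rpow_le_rpow_of_exponent_ge h5 hq
        _ = _ := ENNReal.rpow_one _
    calc ENNReal.ofReal (l⁻¹) ^ q * ENNReal.ofReal l ≤ ENNReal.ofReal (l⁻¹) * ENNReal.ofReal l :=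
          mul_le_mul' h4 le_rfl
      _ = ENNReal.ofReal (l⁻¹ * l) := (ENNReal.ofReal_mul (inv_pos.2 hl0).le).symm
      _ = 1 := by rw [inv_mul_cancel₀ hl0.ne', ENNReal.ofReal_one]
  have h6 : ∀ t, ∫⁻ y, F t y ≤ ∫⁻ y, ‖Y g t (t / l ^ 2) y‖ₑ ^ q := by
    intro t
    rw [h2, ← mul_assoc]
    exact mul_le_of_le_one_left' h3
  have hU : (⋃ k, shell k) = (univ : Set ℝ) := by
    refine eq_univ_of_forall fun t => ?_
    rw [mem_iUnion]
    by_cases ht : |t| ≤ 1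
    · exact ⟨0, ht⟩
    · push Not at ht
      obtain ⟨n, hn⟩ := exists_nat_pow_near ht.le (by norm_num : (1 : ℝ) < 2)
      rcases eq_or_lt_of_le hn.1 with h | h
      · rcases Nat.eq_zero_or_pos n with h0 | h0
        · subst h0
          rw [pow_zero] at h
          linarith
        · obtain ⟨m, rfl⟩ := Nat.exists_eq_succ_of_ne_zero h0.ne'
          refine ⟨m + 1, ?_, ?_⟩
          · rw [← h]
            exact pow_lt_pow_right₀ (by norm_num) (Nat.lt_succ_self m)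
          · exact h.symm.le
      · exact ⟨n + 1, h, hn.2.le⟩
  rw [h1]
  calc ∫⁻ t, ∫⁻ y, F t y ≤ ∫⁻ t, ∫⁻ y, ‖Y g t (t / l ^ 2) y‖ₑ ^ q := lintegral_mono h6
    _ = ∫⁻ t in ⋃ k, shell k, ∫⁻ y, ‖Y g t (t / l ^ 2) y‖ₑ ^ q := by
        rw [hU, Measure.restrict_univ]
    _ ≤ ∑' k, A g q k l := lintegral_iUnion_le _ _

end Pool.Agent.J4.H87.AD
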