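import Pool.Agent.J4.H87.AD.Defs2

/-! Project AD, piece SCA (second copy): parabolic scaling. -/

set_option autoImplicit false

namespace Pool.Agent.J4.H87.AD.Two

open MeasureTheory Complex Set Filter Topology
open scoped ENNReal NNReal RealInnerProductSpace ComplexConjugate
open Pool.Agent.J4.H73.EX (E en Ga)

/-- the parabolic scaling of space -/
noncomputable def SL (r : ℝ) (hr : r ≠ 0) : E 3 ≃ₗ[ℝ] E 3 where
  toFun ξ := !₂[r * ξ 0, r * ξ 1, r ^ 2 * ξ 2]
  invFun ξ := !₂[r⁻¹ * ξ 0, r⁻¹ * ξ 1, (r ^ 2)⁻¹ * ξ 2]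
  map_add' ξ η := by
    ext i
    fin_cases i <;> (simp; ring)
  map_smul' c ξ := by
    ext i
    fin_cases i <;> (simp; ring)
  left_inv ξ := by
    ext i
    fin_cases i <;> (simp; field_simp)
  right_inv ξ := by
    ext i
    fin_cases i <;> (simp; field_simp)

theorem extR_eq (g : E 2 → ℂ) (R : ℝ) (hR : 0 < R)
    (hg : ∀ x, x ∉ Metric.ball (0 : E 2) R → g x = 0) (ξ : E 3) :
    extR g ξ = (((2 * R) ^ 2 : ℝ) : ℂ) *
      ext (fun x => g ((2 * R) • x)) (SL (2 * R) (by positivity) ξ) := by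
  have hr : (0 : ℝ) < 2 * R := by linarith
  have h1 := Measure.integral_comp_smul (volume : Measure (E 2))
    (fun x : E 2 => Complex.exp (-((⟪Phi x, ξ⟫ : ℝ) : ℂ) * I) * g x) (2 * R)
  rw [finrank_euclideanSpace, Fintype.card_fin, abs_of_pos (by positivity)] at h1
  have h2 : ext (fun x => g ((2 * R) • x)) (SL (2 * R) (by positivity) ξ) =
      ∫ x : E 2, Complex.exp (-((⟪Phi ((2 * R) • x), ξ⟫ : ℝ) : ℂ) * I) * g ((2 * R) • x) := by
    unfold ext
    rw [setIntegral_eq_integral_of_forall_compl_eq_zero]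
    · refine integral_congr_ae (Eventually.of_forall fun x => ?_)
      simp only
      congr 5
      rw [PiLp.inner_apply, PiLp.inner_apply, Fin.sum_univ_three, Fin.sum_univ_three]
      simp [Phi, SL]
      ring
    · intro x hx
      beta_reduce
      rw [hg, mul_zero]
      intro h
      refine hx ?_
      rw [mem_ball_zero_iff] at h ⊢
      rw [norm_smul, Real.norm_of_nonneg hr.le] at h
      nlinarith
  rw [h2, h1, Complex.real_smul, ← mul_assoc, ← Complex.ofReal_mul]
  have h3 : (2 * R) ^ 2 * ((2 * R) ^ 2)⁻¹ = 1 := mul_inv_cancel₀ (by positivity)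
  rw [h3, Complex.ofReal_one, one_mul]
  rfl

theorem t_SCA2 : S_SCA := by
  intro g R q hR _ hg hM
  have hr : (2 * R : ℝ) ≠ 0 := by positivity
  set S := SL (2 * R) hr with hS
  have hdet : LinearMap.det (S : E 3 →ₗ[ℝ] E 3) ≠ 0 := (LinearEquiv.isUnit_det' S).ne_zero
  have hmap := Measure.map_linearMap_addHaar_eq_smul_addHaar (volume : Measure (E 3)) hdet
  have hcont : Continuous (S : E 3 → E 3) := (S : E 3 →ₗ[ℝ] E 3).continuous_of_finiteDimensional
  have hM2 : MemLp (ext fun x => g ((2 * R) • x)) (ENNReal.ofReal q)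
      (Measure.map (S : E 3 → E 3) volume) := by
    have h1 : Measure.map (S : E 3 → E 3) volume =
        ENNReal.ofReal |(LinearMap.det (S : E 3 →ₗ[ℝ] E 3))⁻¹| • (volume : Measure (E 3)) := hmap
    rw [h1]
    exact hM.smul_measure ENNReal.ofReal_ne_top
  have hM3 := (memLp_map_measure_iff hM2.aestronglyMeasurable
    hcont.measurable.aemeasurable).1 hM2
  have hM4 := hM3.const_mul ((((2 * R) ^ 2 : ℝ) : ℂ))
  refine hM4.congr_norm ?_ ?_
  · refine (hM4.aestronglyMeasurable.congr (Eventually.of_forall fun ξ => ?_))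
    exact (extR_eq g R hR hg ξ).symm
  · refine Eventually.of_forall fun ξ => ?_
    rw [extR_eq g R hR hg ξ]
    rfl

end Pool.Agent.J4.H87.AD.Two
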